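import Mathlib

/-!
# Decomposition of a weighting into weightings of small support with the same first moment

Strong induction on the size of the support `{a | w a ≠ 0}`. If it is `≤ finrank`, take `k = 1`.
Otherwise the vectors `z a`, `a` in the support, are linearly dependent
(`exists_nontrivial_relation_of_finrank_lt_card` or similar): there is `c ≠ 0`, supported in the
support of `w`, with `∑ c a • z a = 0`; applying `ℓ`: `∑ c a = 0`, so `c` takes both signs.
Let `s = min {w a / (-c a) : c a < 0} > 0`, `t = min {w a / c a : c a > 0} > 0`: `w + s c` and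
`w - t c` are nonnegative with smaller support (contained in that of `w`), same first moment, and
`w = (t/(s+t)) (w + s c) + (s/(s+t)) (w - t c)`. Apply the induction hypothesis to both and combine
the two families (`Fin k₁ ⊕ Fin k₂`, reindexed to `Fin (k₁+k₂)`).
-/

namespace Pool.Agent.Helper47.ZC

private def Good {V : Type*} [AddCommGroup V] [Module ℝ V] {A : Type*} [Fintype A] [DecidableEq A]
    (z : A → V) (w : A → ℝ) : Prop :=
  ∃ (k : ℕ) (p : Fin k → ℝ) (v : Fin k → A → ℝ),
      (∀ i, 0 ≤ p i) ∧ ∑ i, p i = 1 ∧ (∀ i a, 0 ≤ v i a) ∧ (∀ i a, w a = 0 → v i a = 0) ∧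
      (∀ i, ∑ a, v i a • z a = ∑ a, w a • z a) ∧
      (∀ a, ∑ i, p i * v i a = w a) ∧
      (∀ i, (Finset.univ.filter fun a => v i a ≠ 0).card ≤ Module.finrank ℝ V)

/-- convex combination of two good weightings -/
private theorem Good.comb {V : Type*} [AddCommGroup V] [Module ℝ V] {A : Type*} [Fintype A]
    [DecidableEq A] {z : A → V} {w w1 w2 : A → ℝ} (h1 : Good z w1) (h2 : Good z w2)
    (hz1 : ∀ a, w a = 0 → w1 a = 0) (hz2 : ∀ a, w a = 0 → w2 a = 0)
    (hm1 : ∑ a, w1 a • z a = ∑ a, w a • z a) (hm2 : ∑ a, w2 a • z a = ∑ a, w a • z a)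
    {x y : ℝ} (hx : 0 ≤ x) (hy : 0 ≤ y) (hxy : x + y = 1)
    (hw : ∀ a, x * w1 a + y * w2 a = w a) : Good z w := by
  obtain ⟨k1, p1, v1, a1, b1, c1, d1, e1, f1, g1⟩ := h1
  obtain ⟨k2, p2, v2, a2, b2, c2, d2, e2, f2, g2⟩ := h2
  refine ⟨k1 + k2, Fin.append (fun i => x * p1 i) (fun i => y * p2 i), Fin.append v1 v2,
    ?_, ?_, ?_, ?_, ?_, ?_, ?_⟩
  · intro i
    refine Fin.addCases (fun j => ?_) (fun j => ?_) i
    · rw [Fin.append_left]; exact mul_nonneg hx (a1 j)
    · rw [Fin.append_right]; exact mul_nonneg hy (a2 j)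
  · rw [Fin.sum_univ_add]
    simp only [Fin.append_left, Fin.append_right]
    rw [← Finset.mul_sum, ← Finset.mul_sum, b1, b2, mul_one, mul_one, hxy]
  · intro i
    refine Fin.addCases (fun j => ?_) (fun j => ?_) i
    · rw [Fin.append_left]; exact c1 j
    · rw [Fin.append_right]; exact c2 j
  · intro i
    refine Fin.addCases (fun j => ?_) (fun j => ?_) i
    · rw [Fin.append_left]; exact fun a ha => d1 j a (hz1 a ha)
    · rw [Fin.append_right]; exact fun a ha => d2 j a (hz2 a ha)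
  · intro i
    refine Fin.addCases (fun j => ?_) (fun j => ?_) i
    · rw [Fin.append_left]; rw [e1 j, hm1]
    · rw [Fin.append_right]; rw [e2 j, hm2]
  · intro a
    rw [Fin.sum_univ_add]
    simp only [Fin.append_left, Fin.append_right]
    have h3 : ∑ i, x * p1 i * v1 i a = x * w1 a := by
      rw [← f1 a, Finset.mul_sum]
      exact Finset.sum_congr rfl fun i _ => by ring
    have h4 : ∑ i, y * p2 i * v2 i a = y * w2 a := by
      rw [← f2 a, Finset.mul_sum]
      exact Finset.sum_congr rfl fun i _ => by ring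
    rw [h3, h4, hw a]
  · intro i
    refine Fin.addCases (fun j => ?_) (fun j => ?_) i
    · rw [Fin.append_left]; exact g1 j
    · rw [Fin.append_right]; exact g2 j

/-- moving in the direction `c` until a coordinate vanishes -/
private theorem step {A : Type*} [Fintype A] [DecidableEq A] (w c : A → ℝ) (hw : ∀ a, 0 ≤ w a)
    (hc : ∀ a, w a = 0 → c a = 0) (hneg : ∃ a, c a < 0) :
    ∃ s : ℝ, 0 < s ∧ (∀ a, 0 ≤ w a + s * c a) ∧ ∃ a, w a ≠ 0 ∧ w a + s * c a = 0 := by
  obtain ⟨b, hb⟩ := hneg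
  obtain ⟨a0, ha0, hmin⟩ := Finset.exists_min_image (Finset.univ.filter fun a => c a < 0)
    (fun a => w a / (-c a)) ⟨b, Finset.mem_filter.2 ⟨Finset.mem_univ _, hb⟩⟩
  have hc0 : c a0 < 0 := (Finset.mem_filter.1 ha0).2
  have hw0 : w a0 ≠ 0 := fun h => hc0.ne (hc a0 h)
  have hwp : 0 < w a0 := lt_of_le_of_ne (hw a0) (Ne.symm hw0)
  refine ⟨w a0 / (-c a0), div_pos hwp (by linarith), fun a => ?_, a0, hw0, ?_⟩
  · rcases lt_or_ge (c a) 0 with h | h
    · have h1 := hmin a (Finset.mem_filter.2 ⟨Finset.mem_univ _, h⟩)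
      have h2 := (le_div_iff₀ (by linarith : (0 : ℝ) < -c a)).1 h1
      linarith
    · have h1 : 0 ≤ w a0 / (-c a0) * c a := mul_nonneg (div_pos hwp (by linarith)).le h
      linarith [hw a]
  · have h1 : c a0 ≠ 0 := hc0.ne
    rw [div_neg, neg_mul, div_mul_cancel₀ _ h1]
    ring

private theorem good_aux {V : Type*} [AddCommGroup V] [Module ℝ V] [FiniteDimensional ℝ V]
    {A : Type*} [Fintype A] [DecidableEq A] (z : A → V) (ℓ : V →ₗ[ℝ] ℝ) (n : ℕ) :
    ∀ w : A → ℝ, (∀ a, 0 ≤ w a) → (∀ a, w a ≠ 0 → ℓ (z a) = 1) →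
      (Finset.univ.filter fun a => w a ≠ 0).card ≤ n → Good z w := by
  induction n with
  | zero =>
    intro w hw hℓ hn
    refine ⟨1, fun _ => 1, fun _ => w, fun _ => zero_le_one, by simp, fun _ => hw,
      fun _ _ h => h, fun _ => rfl, fun a => by simp, fun _ => ?_⟩
    exact hn.trans (Nat.zero_le _)
  | succ n ih =>
    intro w hw hℓ hn
    by_cases hd : (Finset.univ.filter fun a => w a ≠ 0).card ≤ Module.finrank ℝ V
    · exact ⟨1, fun _ => 1, fun _ => w, fun _ => zero_le_one, by simp, fun _ => hw,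
        fun _ _ h => h, fun _ => rfl, fun a => by simp, fun _ => hd⟩
    obtain ⟨S, hS⟩ : ∃ S : Finset A, S = Finset.univ.filter fun a => w a ≠ 0 := ⟨_, rfl⟩
    have hmem : ∀ a, a ∈ S ↔ w a ≠ 0 := by
      intro a
      rw [hS, Finset.mem_filter]
      exact ⟨fun h => h.2, fun h => ⟨Finset.mem_univ _, h⟩⟩
    rw [← hS] at hd hn
    have hli : ¬ LinearIndependent ℝ (fun a : S => z a) := by
      intro h
      apply hd
      have := h.fintype_card_le_finrank
      rwa [Fintype.card_coe] at this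
    obtain ⟨g, hg, i0, hi0⟩ := Fintype.not_linearIndependent_iff.1 hli
    obtain ⟨c, hc⟩ : ∃ c : A → ℝ, c = fun a => if h : a ∈ S then g ⟨a, h⟩ else 0 := ⟨_, rfl⟩
    have hcS : ∀ a, w a = 0 → c a = 0 := by
      intro a ha
      rw [hc]
      exact dif_neg fun h => (hmem a).1 h ha
    have hcS' : ∀ a, a ∉ S → c a = 0 := by
      intro a ha
      exact hcS a (by by_contra h; exact ha ((hmem a).2 h))
    have hcz : ∑ a, c a • z a = 0 := by
      rw [← Finset.sum_subset (Finset.subset_univ S) (fun a _ ha => by rw [hcS' a ha, zero_smul]),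
        ← Finset.sum_coe_sort S, ← hg]
      refine Finset.sum_congr rfl fun a _ => ?_
      rw [hc]
      simp only
      rw [dif_pos a.2]
    have hcs : ∑ a, c a = 0 := by
      have h := congrArg ℓ hcz
      rw [map_sum, map_zero] at h
      rw [← h]
      refine Finset.sum_congr rfl fun a _ => ?_
      rw [map_smul, smul_eq_mul]
      by_cases ha : w a = 0
      · rw [hcS a ha, zero_mul]
      · rw [hℓ a ha, mul_one]
    have hne : ∃ a ∈ Finset.univ, c a ≠ 0 := by
      refine ⟨i0, Finset.mem_univ _, ?_⟩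
      rw [hc]
      simp only
      rw [dif_pos i0.2]
      exact hi0
    obtain ⟨ap, -, hap⟩ := Finset.exists_pos_of_sum_zero_of_exists_nonzero c hcs hne
    obtain ⟨an, -, han⟩ := Finset.exists_pos_of_sum_zero_of_exists_nonzero (fun a => -c a)
      (by rw [Finset.sum_neg_distrib, hcs, neg_zero])
      (by obtain ⟨a, h1, h2⟩ := hne; exact ⟨a, h1, neg_ne_zero.2 h2⟩)
    obtain ⟨s, hs, hs1, a1, ha1, hs2⟩ := step w c hw hcS ⟨an, by simpa using han⟩
    obtain ⟨t, ht, ht1, a2, ha2, ht2⟩ := step w (fun a => -c a) hw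
      (fun a ha => by rw [hcS a ha, neg_zero]) ⟨ap, by simpa using hap⟩
    have hz1 : ∀ a, w a = 0 → w a + s * c a = 0 := by
      intro a ha
      rw [ha, hcS a ha]
      ring
    have hz2 : ∀ a, w a = 0 → w a + t * -c a = 0 := by
      intro a ha
      rw [ha, hcS a ha]
      ring
    have hcard : ∀ (u : A → ℝ) (b : A), (∀ a, w a = 0 → u a = 0) → w b ≠ 0 → u b = 0 →
        (Finset.univ.filter fun a => u a ≠ 0).card ≤ n := by
      intro u b hu hb hub
      have h : (Finset.univ.filter fun a => u a ≠ 0) ⊆ S.erase b := by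
        intro a ha
        have hua := (Finset.mem_filter.1 ha).2
        refine Finset.mem_erase.2 ⟨?_, (hmem a).2 fun h => hua (hu a h)⟩
        rintro rfl
        exact hua hub
      have h2 := Finset.card_le_card h
      rw [Finset.card_erase_of_mem ((hmem b).2 hb)] at h2
      omega
    have hmom : ∀ r : ℝ, ∑ a, (w a + r * c a) • z a = ∑ a, w a • z a := by
      intro r
      simp only [add_smul, Finset.sum_add_distrib, mul_smul]
      rw [← Finset.smul_sum, hcz, smul_zero, add_zero]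
    have hst : s + t ≠ 0 := (add_pos hs ht).ne'
    refine Good.comb (w1 := fun a => w a + s * c a) (w2 := fun a => w a + t * -c a)
      (x := t / (s + t)) (y := s / (s + t))
      (ih _ hs1 (fun a ha => hℓ a fun h => ha (hz1 a h)) (hcard _ a1 hz1 ha1 hs2))
      (ih _ ht1 (fun a ha => hℓ a fun h => ha (hz2 a h)) (hcard _ a2 hz2 ha2 ht2))
      hz1 hz2 (hmom s) ?_ (div_nonneg ht.le (add_pos hs ht).le)
      (div_nonneg hs.le (add_pos hs ht).le) ?_ ?_
    · have h := hmom (-t)
      rw [← h]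
      exact Finset.sum_congr rfl fun a _ => by congr 1; ring
    · field_simp
      ring
    · intro a
      field_simp
      ring


theorem carath {V : Type*} [AddCommGroup V] [Module ℝ V] [FiniteDimensional ℝ V]
    {A : Type*} [Fintype A] [DecidableEq A] (z : A → V) (ℓ : V →ₗ[ℝ] ℝ)
    (w : A → ℝ) (hw : ∀ a, 0 ≤ w a) (hℓ : ∀ a, w a ≠ 0 → ℓ (z a) = 1) :
    ∃ (k : ℕ) (p : Fin k → ℝ) (v : Fin k → A → ℝ),
      (∀ i, 0 ≤ p i) ∧ ∑ i, p i = 1 ∧ (∀ i a, 0 ≤ v i a) ∧ (∀ i a, w a = 0 → v i a = 0) ∧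
      (∀ i, ∑ a, v i a • z a = ∑ a, w a • z a) ∧
      (∀ a, ∑ i, p i * v i a = w a) ∧
      (∀ i, (Finset.univ.filter fun a => v i a ≠ 0).card ≤ Module.finrank ℝ V) := by
  exact good_aux z ℓ _ w hw hℓ le_rfl

end Pool.Agent.Helper47.ZC
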