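import Mathlib

/-!
# Partition of the boundary of the cube into `2 n 2^L` cells

`n ≥ 2`. Write `L = q (n-1) + r`, `0 ≤ r < n-1`. The cell of `z` (`max |z i| = 1`) is described by:
the least index `i` with `|z i| = 1`, the sign of `z i`, and for the other `n-1` coordinates
(in increasing order, the `l`-th one, `l < n-1`) the dyadic interval of `[-1,1]` of length
`2 * 2^{-(q + [l < r])}` containing it, i.e. `min (⌊(z j + 1) 2^{q_j - 1}⌋, 2^{q_j} - 1)` where
`q_j = q + [l < r]` (`2^{q_j-1}` is a real power if `q_j = 0`: use `(z j + 1)/2 * 2^{q_j}`).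
There are `∏ 2^{q_j} = 2^{q(n-1)+r} = 2^L` such descriptions for each `(i, sign)`.
Two points of a cell: `z i = z' i = ±1` and
`|z j - z' j| ≤ 2 * 2^{-q}`, and `2^{-q} ≤ 2 * 2^{-L/(n-1)}` because `L < (q+1)(n-1)`.
(Any other bookkeeping is fine; e.g. give a `Fintype` of cells of cardinality `≤ 2 n 2^L` and
embed it into `Fin (2 * n * 2 ^ L)`.)
-/

namespace Pool.Agent.Helper47.ZC

private theorem bin_bounds (Q : ℕ) (hQ : 1 ≤ Q) (a : ℝ) (h0 : 0 ≤ a) (h1 : a ≤ 1) :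
    ((min ⌊a * Q⌋₊ (Q - 1) : ℕ) : ℝ) ≤ a * Q ∧ a * Q ≤ ((min ⌊a * Q⌋₊ (Q - 1) : ℕ) : ℝ) + 1 := by
  have hQ0 : (0 : ℝ) ≤ Q := Nat.cast_nonneg Q
  have haQ : 0 ≤ a * Q := mul_nonneg h0 hQ0
  constructor
  · have h2 : min ⌊a * Q⌋₊ (Q - 1) ≤ ⌊a * Q⌋₊ := min_le_left _ _
    have h3 : ((min ⌊a * Q⌋₊ (Q - 1) : ℕ) : ℝ) ≤ (⌊a * Q⌋₊ : ℝ) := by exact_mod_cast h2
    exact h3.trans (Nat.floor_le haQ)
  · rcases le_total ⌊a * Q⌋₊ (Q - 1) with h | h
    · rw [min_eq_left h]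
      exact (Nat.lt_floor_add_one _).le
    · rw [min_eq_right h]
      have h2 : a * Q ≤ 1 * Q := mul_le_mul_of_nonneg_right h1 hQ0
      have h3 : ((Q - 1 : ℕ) : ℝ) + 1 = Q := by
        have h4 : (Q - 1) + 1 = Q := by omega
        exact_mod_cast h4
      rw [h3]
      linarith

private theorem bin_close (Q : ℕ) (hQ : 1 ≤ Q) (a b : ℝ) (h0 : 0 ≤ a) (h1 : a ≤ 1)
    (g0 : 0 ≤ b) (g1 : b ≤ 1) (h : min ⌊a * Q⌋₊ (Q - 1) = min ⌊b * Q⌋₊ (Q - 1)) :
    |a - b| * Q ≤ 1 := by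
  have hA := bin_bounds Q hQ a h0 h1
  have hB := bin_bounds Q hQ b g0 g1
  rw [h] at hA
  have hQ0 : (0 : ℝ) ≤ Q := Nat.cast_nonneg Q
  have h2 : |a - b| * Q = |a * Q - b * Q| := by
    rw [← sub_mul, abs_mul, abs_of_nonneg hQ0]
  rw [h2, abs_le]
  constructor
  · linarith [hA.1, hB.2]
  · linarith [hA.2, hB.1]

/-- The number of bits of the `l`-th coordinate. -/
private def bits (m L : ℕ) (l : Fin m) : ℕ := L / m + if (l : ℕ) < L % m then 1 else 0

private theorem sum_bits (m L : ℕ) (hm : 0 < m) : ∑ l, bits m L l = L := by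
  unfold bits
  rw [Finset.sum_add_distrib, Finset.sum_const, Finset.card_univ, Fintype.card_fin,
    Finset.sum_boole]
  have h1 : (Finset.univ.filter (fun l : Fin m => (l : ℕ) < L % m)).card = L % m := by
    have h2 := Nat.mod_lt L hm
    rw [Fin.card_filter_val_lt]
    exact min_eq_right h2.le
  rw [h1, smul_eq_mul]
  have h3 := Nat.div_add_mod L m
  simpa using h3

/-- The type of the cells. -/
private abbrev Cell (m L : ℕ) : Type :=
  Fin (m + 1) × Bool × (∀ l : Fin m, Fin (2 ^ bits m L l))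

private theorem card_cell (m L : ℕ) (hm : 0 < m) :
    Fintype.card (Cell m L) = 2 * (m + 1) * 2 ^ L := by
  rw [Fintype.card_prod, Fintype.card_prod, Fintype.card_pi, Fintype.card_fin, Fintype.card_bool]
  have h : ∏ l : Fin m, Fintype.card (Fin (2 ^ bits m L l)) = 2 ^ L := by
    have h1 : ∀ l : Fin m, Fintype.card (Fin (2 ^ bits m L l)) = 2 ^ bits m L l :=
      fun l => Fintype.card_fin _
    rw [Finset.prod_congr rfl (fun l _ => h1 l), Finset.prod_pow_eq_pow_sum, sum_bits m L hm]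
  rw [h]
  ring

open Classical in
/-- A coordinate of absolute value one. -/
private noncomputable def face {m : ℕ} (z : EuclideanSpace ℝ (Fin (m + 1))) : Fin (m + 1) :=
  if h : ∃ i, |z i| = 1 then h.choose else 0

private theorem face_spec {m : ℕ} (z : EuclideanSpace ℝ (Fin (m + 1))) (h : ∃ i, |z i| = 1) :
    |z (face z)| = 1 := by
  unfold face
  rw [dif_pos h]
  exact h.choose_spec

open Classical in
private noncomputable def cellOf (m L : ℕ) (z : EuclideanSpace ℝ (Fin (m + 1))) : Cell m L :=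
  (face z, decide (0 ≤ z (face z)), fun l =>
    ⟨min ⌊(z ((face z).succAbove l) + 1) / 2 * ((2 ^ bits m L l : ℕ) : ℝ)⌋₊
      (2 ^ bits m L l - 1), by
        have h : 0 < 2 ^ bits m L l := by positivity
        have h2 : min ⌊(z ((face z).succAbove l) + 1) / 2 * ((2 ^ bits m L l : ℕ) : ℝ)⌋₊
          (2 ^ bits m L l - 1) ≤ 2 ^ bits m L l - 1 := min_le_right _ _
        omega⟩)

private theorem cell_dist (m L : ℕ) (hm : 0 < m) (l : Fin m) (x y : ℝ) (hx : |x| ≤ 1)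
    (hy : |y| ≤ 1) (h : min ⌊(x + 1) / 2 * ((2 ^ bits m L l : ℕ) : ℝ)⌋₊ (2 ^ bits m L l - 1) =
      min ⌊(y + 1) / 2 * ((2 ^ bits m L l : ℕ) : ℝ)⌋₊ (2 ^ bits m L l - 1)) :
    |x - y| ≤ 4 * (2 : ℝ) ^ (-((L : ℝ) / (m : ℝ))) := by
  rw [abs_le] at hx hy
  have hQ : 1 ≤ 2 ^ bits m L l := Nat.one_le_two_pow
  have h1 := bin_close (2 ^ bits m L l) hQ ((x + 1) / 2) ((y + 1) / 2) (by linarith)
    (by linarith) (by linarith) (by linarith) h
  have h2 : (x + 1) / 2 - (y + 1) / 2 = (x - y) / 2 := by ring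
  rw [h2, abs_div, abs_of_pos (by norm_num : (0 : ℝ) < 2)] at h1
  have h3 : (2 : ℝ) ^ (L / m) ≤ ((2 ^ bits m L l : ℕ) : ℝ) := by
    push_cast
    refine pow_le_pow_right₀ (by norm_num) ?_
    unfold bits
    exact Nat.le_add_right _ _
  have h4 : |x - y| / 2 * (2 : ℝ) ^ (L / m) ≤ 1 :=
    le_trans (mul_le_mul_of_nonneg_left h3 (by positivity)) h1
  have hmR : (0 : ℝ) < m := by exact_mod_cast hm
  have h5 : (L : ℝ) / m ≤ ((L / m : ℕ) : ℝ) + 1 := by
    rw [div_le_iff₀ hmR]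
    have h6 : L ≤ (L / m + 1) * m := by
      have := Nat.div_add_mod L m
      have h7 := Nat.mod_lt L hm
      nlinarith
    exact_mod_cast h6
  have h6 : (2 : ℝ) ^ ((L : ℝ) / m) ≤ 2 * (2 : ℝ) ^ (L / m) := by
    have h7 : (2 : ℝ) ^ ((L : ℝ) / m) ≤ (2 : ℝ) ^ (((L / m : ℕ) : ℝ) + 1) :=
      Real.rpow_le_rpow_of_exponent_le (by norm_num) h5
    rw [Real.rpow_add (by norm_num), Real.rpow_one, Real.rpow_natCast] at h7
    linarith
  have h7 : 0 < (2 : ℝ) ^ ((L : ℝ) / m) := Real.rpow_pos_of_pos (by norm_num) _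
  rw [Real.rpow_neg (by norm_num), ← div_eq_mul_inv, le_div_iff₀ h7]
  calc |x - y| * (2 : ℝ) ^ ((L : ℝ) / m) ≤ |x - y| * (2 * (2 : ℝ) ^ (L / m)) :=
        mul_le_mul_of_nonneg_left h6 (abs_nonneg _)
    _ = 4 * (|x - y| / 2 * (2 : ℝ) ^ (L / m)) := by ring
    _ ≤ 4 := by linarith

theorem cells' (n L : ℕ) (hn : 2 ≤ n) :
    ∃ κ : EuclideanSpace ℝ (Fin n) → Fin (2 * n * 2 ^ L),
      (∀ z : EuclideanSpace ℝ (Fin n), (∀ i, |z i| ≤ 1) → (∃ i, |z i| = 1) →
        ∃ i, |z i| = 1 ∧ ∀ z' : EuclideanSpace ℝ (Fin n), (∀ i, |z' i| ≤ 1) → (∃ i, |z' i| = 1) →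
          κ z' = κ z → z' i = z i) ∧
      ∀ z z' : EuclideanSpace ℝ (Fin n), (∀ i, |z i| ≤ 1) → (∃ i, |z i| = 1) →
        (∀ i, |z' i| ≤ 1) → (∃ i, |z' i| = 1) → κ z = κ z' →
        ∀ j, |z j - z' j| ≤ 4 * (2 : ℝ) ^ (-((L : ℝ) / ((n : ℝ) - 1))) := by
  obtain ⟨m, rfl⟩ : ∃ m, n = m + 1 := ⟨n - 1, by omega⟩
  have hm : 0 < m := by omega
  have hmR : (((m + 1 : ℕ) : ℝ) - 1) = m := by push_cast; ring
  rw [hmR]
  refine ⟨fun z => Fintype.equivFinOfCardEq (card_cell m L hm) (cellOf m L z), ?_, ?_⟩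
  · intro z hz hz1
    refine ⟨face z, face_spec z hz1, ?_⟩
    intro z' hz' hz1' he0
    have he := he0.symm
    have h := (Fintype.equivFinOfCardEq (card_cell m L hm)).injective he
    unfold cellOf at h
    rw [Prod.mk.injEq, Prod.mk.injEq] at h
    obtain ⟨h1, h2, h3⟩ := h
    have hi := face_spec z hz1
    have hi' := face_spec z' hz1'
    rw [← h1] at hi' h2
    have h4 : z (face z) = z' (face z) := by
      have h5 : 0 ≤ z (face z) ↔ 0 ≤ z' (face z) := by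
        have := decide_eq_decide.mp h2
        exact this
      rcases le_or_gt 0 (z (face z)) with h6 | h6
      · rw [abs_of_nonneg h6] at hi
        rw [abs_of_nonneg (h5.mp h6)] at hi'
        rw [hi, hi']
      · have h7 : z' (face z) < 0 := by
          by_contra h8
          exact absurd (h5.mpr (not_lt.mp h8)) (not_le.mpr h6)
        rw [abs_of_neg h6] at hi
        rw [abs_of_neg h7] at hi'
        linarith
    exact h4.symm
  · intro z z' hz hz1 hz' hz1' he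
    have h := (Fintype.equivFinOfCardEq (card_cell m L hm)).injective he
    unfold cellOf at h
    rw [Prod.mk.injEq, Prod.mk.injEq] at h
    obtain ⟨h1, h2, h3⟩ := h
    have hi := face_spec z hz1
    have hi' := face_spec z' hz1'
    rw [← h1] at hi' h2
    have h4 : z (face z) = z' (face z) := by
      have h5 : 0 ≤ z (face z) ↔ 0 ≤ z' (face z) := by
        have := decide_eq_decide.mp h2
        exact this
      rcases le_or_gt 0 (z (face z)) with h6 | h6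
      · rw [abs_of_nonneg h6] at hi
        rw [abs_of_nonneg (h5.mp h6)] at hi'
        rw [hi, hi']
      · have h7 : z' (face z) < 0 := by
          by_contra h8
          exact absurd (h5.mpr (not_lt.mp h8)) (not_le.mpr h6)
        rw [abs_of_neg h6] at hi
        rw [abs_of_neg h7] at hi'
        linarith
    intro j
    rcases eq_or_ne j (face z) with hj | hj
    · rw [hj, h4, sub_self, abs_zero]
      positivity
    · obtain ⟨l, hl⟩ := Fin.exists_succAbove_eq hj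
      have h5 := congrFun h3 l
      have h6 : min ⌊(z ((face z).succAbove l) + 1) / 2 * ((2 ^ bits m L l : ℕ) : ℝ)⌋₊
          (2 ^ bits m L l - 1) =
          min ⌊(z' ((face z').succAbove l) + 1) / 2 * ((2 ^ bits m L l : ℕ) : ℝ)⌋₊
          (2 ^ bits m L l - 1) := congrArg Fin.val h5
      rw [← h1] at h6
      rw [← hl]
      exact cell_dist m L hm l _ _ (hz _) (hz' _) h6

theorem cells (n L : ℕ) (hn : 2 ≤ n) :
    ∃ κ : EuclideanSpace ℝ (Fin n) → Fin (2 * n * 2 ^ L),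
      ∀ z z' : EuclideanSpace ℝ (Fin n), (∀ i, |z i| ≤ 1) → (∃ i, |z i| = 1) →
        (∀ i, |z' i| ≤ 1) → (∃ i, |z' i| = 1) → κ z = κ z' →
        (∃ i, |z i| = 1 ∧ z i = z' i) ∧
        ∀ j, |z j - z' j| ≤ 4 * (2 : ℝ) ^ (-((L : ℝ) / ((n : ℝ) - 1))) := by
  obtain ⟨κ, h1, h2⟩ := cells' n L hn
  refine ⟨κ, fun z z' hz hz1 hz' hz1' he => ⟨?_, h2 z z' hz hz1 hz' hz1' he⟩⟩
  obtain ⟨i, hi, hi'⟩ := h1 z hz hz1
  exact ⟨i, hi, (hi' z' hz' hz1' he.symm).symm⟩

end Pool.Agent.Helper47.ZC
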