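import Pool.Agent.Helper47.ZC.Defs

/-!
# Gaussian averages of cosines
Copy the proof of `Helper24/Zono/Pair1.integral_sin_mul_sin'` (product-to-sum and
`Helper24.Zono.integral_cos`), with cos instead of sin.
-/

open MeasureTheory ProbabilityTheory
open scoped RealInnerProductSpace

namespace Pool.Agent.Helper47.ZC

variable {E : Type*} [NormedAddCommGroup E] [InnerProductSpace ℝ E] [FiniteDimensional ℝ E]
  [MeasurableSpace E] [BorelSpace E]

private lemma integrable_cos' (t : E) :
    Integrable (fun Y : E => Real.cos (⟪Y, t⟫ + 0)) (stdGaussian E) := by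
  refine Integrable.mono' (integrable_const (1 : ℝ))
    (Measurable.aestronglyMeasurable (by fun_prop)) (Filter.Eventually.of_forall fun g => ?_)
  rw [Real.norm_eq_abs]; exact Real.abs_cos_le_one _

theorem integral_cos_inner (a : ℝ) (u : E) (hu : ‖u‖ = 1) :
    ∫ z, Real.cos (a * ⟪u, z⟫) ∂(stdGaussian E) = Real.exp (-a ^ 2 / 2) := by
  have h1 : ∀ z : E, Real.cos (a * ⟪u, z⟫) = Real.cos (⟪z, a • u⟫ + 0) := by
    intro z
    rw [add_zero, inner_smul_right, real_inner_comm u z]
  simp only [h1]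
  rw [Helper24.Zono.integral_cos, Real.cos_zero, mul_one, norm_smul, hu, mul_one,
    Real.norm_eq_abs, sq_abs]

theorem integral_cos_mul_cos (a b : ℝ) (u v : E) (hu : ‖u‖ = 1) (hv : ‖v‖ = 1) :
    ∫ z, Real.cos (a * ⟪u, z⟫) * Real.cos (b * ⟪v, z⟫) ∂(stdGaussian E)
      = Real.exp (-(a ^ 2 + b ^ 2) / 2) * Real.cosh (a * b * ⟪u, v⟫) := by
  have h1 : ∀ Y : E, Real.cos (a * ⟪u, Y⟫) * Real.cos (b * ⟪v, Y⟫)
      = (Real.cos (⟪Y, a • u - b • v⟫ + 0) + Real.cos (⟪Y, a • u + b • v⟫ + 0)) / 2 := by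
    intro Y
    rw [add_zero, add_zero, inner_sub_right, inner_add_right, inner_smul_right, inner_smul_right,
      Real.cos_sub, Real.cos_add, real_inner_comm u Y, real_inner_comm v Y]
    ring
  simp only [h1]
  rw [integral_div, integral_add (integrable_cos' _) (integrable_cos' _),
    Helper24.Zono.integral_cos, Helper24.Zono.integral_cos, Real.cos_zero,
    mul_one, mul_one]
  have h2 : ‖a • u - b • v‖ ^ 2 = a ^ 2 + b ^ 2 - 2 * (a * b * ⟪u, v⟫) := by
    rw [norm_sub_sq_real, norm_smul, norm_smul, hu, hv, inner_smul_left, inner_smul_right]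
    simp; ring
  have h3 : ‖a • u + b • v‖ ^ 2 = a ^ 2 + b ^ 2 + 2 * (a * b * ⟪u, v⟫) := by
    rw [norm_add_sq_real, norm_smul, norm_smul, hu, hv, inner_smul_left, inner_smul_right]
    simp; ring
  rw [h2, h3, Real.cosh_eq, ← mul_div_assoc, mul_add, ← Real.exp_add, ← Real.exp_add]
  congr 3 <;> ring

theorem integrable_cos_mul_cos (a b : ℝ) (u v : E) :
    Integrable (fun z : E => Real.cos (a * ⟪u, z⟫) * Real.cos (b * ⟪v, z⟫)) (stdGaussian E) := by
  refine Integrable.mono' (integrable_const (1 : ℝ))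
    (Measurable.aestronglyMeasurable (by fun_prop)) (Filter.Eventually.of_forall fun g => ?_)
  rw [Real.norm_eq_abs, abs_mul]
  exact mul_le_one₀ (Real.abs_cos_le_one _) (abs_nonneg _) (Real.abs_cos_le_one _)

end Pool.Agent.Helper47.ZC
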