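import Mathlib
import Pool.Agent.Helper24.Zono.Setup
import Pool.Agent.Helper24.Zono.Psi
import Pool.Agent.Helper61.Zono.Gauss

/-!
# Zonotope approximation, bound uniform in `n` and `ε`: definitions
(`wt x j = ‖x j‖`, `dir x j = ‖x j‖⁻¹ • x j` are from `Helper24/Zono/Setup`; `cst`, `ker_*` from
`Helper24/Zono/Psi`.)
-/

open MeasureTheory ProbabilityTheory
open scoped RealInnerProductSpace

namespace Pool.Agent.Helper47.ZC

/-- Support function of the zonotope is `(1 ± ε)|v|`. -/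
def Approx {n N : ℕ} (ε : ℝ) (x : Fin N → EuclideanSpace ℝ (Fin n)) : Prop :=
  ∀ v : EuclideanSpace ℝ (Fin n),
    (1 - ε) * ‖v‖ ≤ ∑ j, |⟪v, x j⟫| ∧ ∑ j, |⟪v, x j⟫| ≤ (1 + ε) * ‖v‖

/-- The band limited kernel `∫_lam^{2 lam} cos (s t) ds / s²`. -/
noncomputable def phi (lam t : ℝ) : ℝ := ∫ s in lam..(2 * lam), Real.cos (s * t) / s ^ 2

/-- The constant `∫_0^∞ (1 - e^{-r/2}) r^{-3/2} dr`. -/
noncomputable def C1 : ℝ :=
  ∫ r in Set.Ioi (0 : ℝ), (1 - Real.exp (-(r / 2))) * r ^ (-(3 / 2) : ℝ)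

end Pool.Agent.Helper47.ZC
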