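import Mathlib

/-!
# Independent choices: Hoeffding's inequality, derandomised

For every `q` there are `k q` options with probabilities `p q`, and `ξ q x i` are centred,
`|ξ q x i| ≤ b q x`. If `∑_q (b q x)² ≤ V` for all `x ∈ X` and `2 V log (2 |X|) < t²`, some choice
`ω` has `|∑_q ξ q x (ω q)| ≤ t` for all `x ∈ X`.

Proof. `θ = t/V`. Convexity of `exp` on `[-b,b]`: `e^{θ y} ≤ cosh (θ b) + (y/b) sinh (θ b)` for
`|y| ≤ b`, so `∑_i p_i e^{± θ ξ_i} ≤ cosh(θ b) ≤ e^{θ² b²/2}` (`Real.cosh_le_exp_half_sq`).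
Average over all choices `ω ∈ ∏ Fin (k q)` with weights `∏ p q (ω q)`
(`Finset.prod_univ_sum` / `Fintype.piFinset`): the average of
`Φ(ω) = ∑_{x ∈ X} (e^{θ D_x(ω)} + e^{-θ D_x(ω)})` is `≤ 2 |X| e^{θ² V/2} < e^{θ t}` (since
`θ t - θ² V/2 = t²/(2V) > log (2|X|)`). So some `ω` has `Φ(ω) < e^{θ t}` and then `|D_x| < t`
for all `x ∈ X`. (If `X = ∅` any `ω` will do; `k q ≥ 1` since the `p q` sum to `1`.)
-/

namespace Pool.Agent.Helper47.ZC

private lemma exp_chord (θ b y : ℝ) (hy : |y| ≤ b) :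
    Real.exp (θ * y) ≤ Real.cosh (θ * b) + Real.sinh (θ * b) / b * y := by
  have hb : 0 ≤ b := le_trans (abs_nonneg y) hy
  rcases hb.eq_or_lt with h0 | h0
  · have hy0 : y = 0 := by
      have : |y| ≤ 0 := by rw [h0]; exact hy
      exact abs_nonpos_iff.1 this
    rw [hy0, ← h0]
    simp
  · have h1 := abs_le.1 hy
    have h2 : 0 ≤ (b + y) / (2 * b) := by
      apply div_nonneg <;> linarith
    have h3 : 0 ≤ (b - y) / (2 * b) := by
      apply div_nonneg <;> linarith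
    have h4 : (b + y) / (2 * b) + (b - y) / (2 * b) = 1 := by
      field_simp
      ring
    have h5 := convexOn_exp.2 (Set.mem_univ (θ * b)) (Set.mem_univ (-(θ * b))) h2 h3 h4
    simp only [smul_eq_mul] at h5
    have h6 : (b + y) / (2 * b) * (θ * b) + (b - y) / (2 * b) * -(θ * b) = θ * y := by
      field_simp
      ring
    rw [h6] at h5
    refine h5.trans (le_of_eq ?_)
    rw [Real.cosh_eq, Real.sinh_eq]
    field_simp
    ring

private lemma mgf_le {n : ℕ} (p ξ : Fin n → ℝ) (hp : ∀ i, 0 ≤ p i) (hp1 : ∑ i, p i = 1)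
    (hξ : ∑ i, p i * ξ i = 0) (b : ℝ) (hb : ∀ i, |ξ i| ≤ b) (θ : ℝ) :
    ∑ i, p i * Real.exp (θ * ξ i) ≤ Real.exp (θ ^ 2 * b ^ 2 / 2) := by
  have h1 : ∑ i, p i * Real.exp (θ * ξ i) ≤
      ∑ i, p i * (Real.cosh (θ * b) + Real.sinh (θ * b) / b * ξ i) :=
    Finset.sum_le_sum fun i _ => mul_le_mul_of_nonneg_left (exp_chord θ b (ξ i) (hb i)) (hp i)
  have h2 : ∑ i, p i * (Real.cosh (θ * b) + Real.sinh (θ * b) / b * ξ i) =
      (∑ i, p i) * Real.cosh (θ * b) + Real.sinh (θ * b) / b * ∑ i, p i * ξ i := by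
    rw [Finset.sum_mul, Finset.mul_sum, ← Finset.sum_add_distrib]
    exact Finset.sum_congr rfl fun i _ => by ring
  rw [h2, hp1, hξ, mul_zero, add_zero, one_mul] at h1
  refine h1.trans ((Real.cosh_le_exp_half_sq _).trans (le_of_eq ?_))
  congr 1
  ring

private lemma avg_le {Q : Type*} [Fintype Q] [DecidableEq Q] (k : Q → ℕ)
    (p : ∀ q, Fin (k q) → ℝ) (hp : ∀ q i, 0 ≤ p q i) (hp1 : ∀ q, ∑ i, p q i = 1)
    (ξ : ∀ q, Fin (k q) → ℝ) (hξ : ∀ q, ∑ i, p q i * ξ q i = 0)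
    (b : Q → ℝ) (hb : ∀ q, ∀ i, |ξ q i| ≤ b q) (V : ℝ) (hVb : ∑ q, b q ^ 2 ≤ V) (θ : ℝ) :
    ∑ ω : ∀ q, Fin (k q), (∏ q, p q (ω q)) * Real.exp (θ * ∑ q, ξ q (ω q)) ≤
      Real.exp (θ ^ 2 * V / 2) := by
  have h1 : ∑ ω : ∀ q, Fin (k q), (∏ q, p q (ω q)) * Real.exp (θ * ∑ q, ξ q (ω q)) =
      ∏ q, ∑ i, p q i * Real.exp (θ * ξ q i) := by
    rw [Finset.prod_univ_sum, Fintype.piFinset_univ]
    refine Finset.sum_congr rfl fun ω _ => ?_
    rw [Finset.mul_sum, Real.exp_sum, ← Finset.prod_mul_distrib]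
  rw [h1]
  have h2 : ∏ q, ∑ i, p q i * Real.exp (θ * ξ q i) ≤ ∏ q, Real.exp (θ ^ 2 * b q ^ 2 / 2) := by
    refine Finset.prod_le_prod (fun q _ => ?_) fun q _ =>
      mgf_le (p q) (ξ q) (hp q) (hp1 q) (hξ q) (b q) (hb q) θ
    exact Finset.sum_nonneg fun i _ => mul_nonneg (hp q i) (Real.exp_pos _).le
  refine h2.trans ?_
  rw [← Real.exp_sum]
  refine Real.exp_le_exp.2 ?_
  have h3 : ∑ q, θ ^ 2 * b q ^ 2 / 2 = θ ^ 2 / 2 * ∑ q, b q ^ 2 := by
    rw [Finset.mul_sum]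
    exact Finset.sum_congr rfl fun q _ => by ring
  rw [h3]
  calc θ ^ 2 / 2 * ∑ q, b q ^ 2 ≤ θ ^ 2 / 2 * V :=
        mul_le_mul_of_nonneg_left hVb (by positivity)
    _ = θ ^ 2 * V / 2 := by ring

theorem derand {Q X : Type*} [Fintype Q] [DecidableEq Q] (S : Finset X) (k : Q → ℕ)
    (p : ∀ q, Fin (k q) → ℝ) (hp : ∀ q i, 0 ≤ p q i) (hp1 : ∀ q, ∑ i, p q i = 1)
    (ξ : ∀ q, X → Fin (k q) → ℝ) (hξ : ∀ q, ∀ x ∈ S, ∑ i, p q i * ξ q x i = 0)
    (b : Q → X → ℝ) (hb : ∀ q, ∀ x ∈ S, ∀ i, |ξ q x i| ≤ b q x) (V t : ℝ) (hV : 0 < V)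
    (hVb : ∀ x ∈ S, ∑ q, b q x ^ 2 ≤ V) (ht : 0 < t)
    (htV : 2 * V * Real.log (2 * S.card) < t ^ 2) :
    ∃ ω : ∀ q, Fin (k q), ∀ x ∈ S, |∑ q, ξ q x (ω q)| ≤ t := by
  by_contra hcon
  have hcon' : ∀ ω : ∀ q, Fin (k q), ∃ x ∈ S, t < |∑ q, ξ q x (ω q)| := by
    intro ω
    by_contra h
    refine hcon ⟨ω, fun x hx => ?_⟩
    by_contra h2
    exact h ⟨x, hx, lt_of_not_ge h2⟩
  set θ : ℝ := t / V with hθ
  have hθ0 : 0 < θ := div_pos ht hV
  have hw : ∀ ω : ∀ q, Fin (k q), 0 ≤ ∏ q, p q (ω q) :=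
    fun ω => Finset.prod_nonneg fun q _ => hp q _
  have hw1 : ∑ ω : ∀ q, Fin (k q), ∏ q, p q (ω q) = 1 := by
    have h := Finset.prod_univ_sum (fun q : Q => (Finset.univ : Finset (Fin (k q)))) p
    rw [Fintype.piFinset_univ] at h
    rw [← h]
    exact Finset.prod_eq_one fun q _ => hp1 q
  have hΦ : ∀ ω : ∀ q, Fin (k q), Real.exp (θ * t) ≤
      ∑ x ∈ S, (Real.exp (θ * ∑ q, ξ q x (ω q)) + Real.exp (-θ * ∑ q, ξ q x (ω q))) := by
    intro ω
    obtain ⟨x, hx, hx2⟩ := hcon' ω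
    have h1 : Real.exp (θ * t) ≤
        Real.exp (θ * ∑ q, ξ q x (ω q)) + Real.exp (-θ * ∑ q, ξ q x (ω q)) := by
      rcases abs_cases (∑ q, ξ q x (ω q)) with h | h
      · rw [h.1] at hx2
        have h3 : Real.exp (θ * t) ≤ Real.exp (θ * ∑ q, ξ q x (ω q)) :=
          Real.exp_le_exp.2 (mul_le_mul_of_nonneg_left hx2.le hθ0.le)
        have h4 := (Real.exp_pos (-θ * ∑ q, ξ q x (ω q))).le
        linarith
      · rw [h.1] at hx2
        have h3 : Real.exp (θ * t) ≤ Real.exp (-θ * ∑ q, ξ q x (ω q)) := by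
          refine Real.exp_le_exp.2 ?_
          have h5 := mul_le_mul_of_nonneg_left hx2.le hθ0.le
          calc θ * t ≤ θ * -∑ q, ξ q x (ω q) := h5
            _ = -θ * ∑ q, ξ q x (ω q) := by ring
        have h4 := (Real.exp_pos (θ * ∑ q, ξ q x (ω q))).le
        linarith
    refine h1.trans (Finset.single_le_sum (f := fun x => Real.exp (θ * ∑ q, ξ q x (ω q)) +
      Real.exp (-θ * ∑ q, ξ q x (ω q))) (fun y _ => ?_) hx)
    have h3 := (Real.exp_pos (θ * ∑ q, ξ q y (ω q))).le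
    have h4 := (Real.exp_pos (-θ * ∑ q, ξ q y (ω q))).le
    linarith
  have hmain : Real.exp (θ * t) ≤ S.card * (2 * Real.exp (θ ^ 2 * V / 2)) := by
    calc Real.exp (θ * t) = ∑ ω : ∀ q, Fin (k q), (∏ q, p q (ω q)) * Real.exp (θ * t) := by
          rw [← Finset.sum_mul, hw1, one_mul]
      _ ≤ ∑ ω : ∀ q, Fin (k q), (∏ q, p q (ω q)) *
            ∑ x ∈ S, (Real.exp (θ * ∑ q, ξ q x (ω q)) + Real.exp (-θ * ∑ q, ξ q x (ω q))) :=
          Finset.sum_le_sum fun ω _ => mul_le_mul_of_nonneg_left (hΦ ω) (hw ω)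
      _ = ∑ x ∈ S, (∑ ω : ∀ q, Fin (k q), (∏ q, p q (ω q)) * Real.exp (θ * ∑ q, ξ q x (ω q)) +
            ∑ ω : ∀ q, Fin (k q), (∏ q, p q (ω q)) * Real.exp (-θ * ∑ q, ξ q x (ω q))) := by
          simp only [Finset.mul_sum]
          rw [Finset.sum_comm]
          refine Finset.sum_congr rfl fun x _ => ?_
          rw [← Finset.sum_add_distrib]
          exact Finset.sum_congr rfl fun ω _ => by rw [← Finset.mul_sum]; ring
      _ ≤ ∑ x ∈ S, (2 * Real.exp (θ ^ 2 * V / 2)) := by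
          refine Finset.sum_le_sum fun x hx => ?_
          have h1 := avg_le k p hp hp1 (fun q => ξ q x) (fun q => hξ q x hx) (fun q => b q x)
            (fun q => hb q x hx) V (hVb x hx) θ
          have h2 := avg_le k p hp hp1 (fun q => ξ q x) (fun q => hξ q x hx) (fun q => b q x)
            (fun q => hb q x hx) V (hVb x hx) (-θ)
          rw [neg_sq] at h2
          linarith
      _ = S.card * (2 * Real.exp (θ ^ 2 * V / 2)) := by
          rw [Finset.sum_const, nsmul_eq_mul]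
  rcases Nat.eq_zero_or_pos S.card with h0 | h0
  · rw [h0] at hmain
    have := Real.exp_pos (θ * t)
    simp only [Nat.cast_zero, zero_mul] at hmain
    linarith
  · have hc : (0 : ℝ) < 2 * S.card := by
      have : (0 : ℝ) < S.card := by exact_mod_cast h0
      linarith
    have h1 : Real.log (2 * S.card) < t ^ 2 / (2 * V) := by
      rw [lt_div_iff₀ (by linarith)]
      linarith
    have h2 : 2 * (S.card : ℝ) < Real.exp (t ^ 2 / (2 * V)) := by
      rw [← Real.log_lt_iff_lt_exp hc]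
      exact h1
    have h3 : θ * t = t ^ 2 / (2 * V) + θ ^ 2 * V / 2 := by
      rw [hθ]
      field_simp
      ring
    rw [h3, Real.exp_add] at hmain
    have h4 : Real.exp (t ^ 2 / (2 * V)) * Real.exp (θ ^ 2 * V / 2) ≤
        2 * S.card * Real.exp (θ ^ 2 * V / 2) := by
      calc _ ≤ S.card * (2 * Real.exp (θ ^ 2 * V / 2)) := hmain
        _ = _ := by ring
    have h5 := le_of_mul_le_mul_right h4 (Real.exp_pos _)
    linarith

end Pool.Agent.Helper47.ZC
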