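import Pool.Agent.Helper47.ZC.Slab

/-!
# Discretisation of the rotation invariant measure

For a finite set `X` of vectors, a finite measure on the boundary of the cube `[-1,1]ⁿ`
(`|z i| ≤ 1` for all `i`, `|z i| = 1` for some `i`) which represents `‖x‖`, `x ∈ X`, up to `τ`, has
mass `≤ 2√n + τ`, and whose slabs have the right mass up to `τ`.

Proof. Let `m(y) = max |y i| ≤ ‖y‖` (sup norm), `κ = ∫ |t| dγ₁ ∈ [1/2, 1]` (`Helper61.Zono.kap`,
`half_le_kap`), `γ` standard Gaussian. The finitely many functions of `y ≠ 0`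
`f_x(y) = |⟨x,y⟩|/κ`, `g_x(y) = (m(y)/κ) 1(|⟨x,y⟩| ≤ η m(y))` (`x ∈ X`), `h(y) = m(y)/κ`
are integrable; `∫ f_x = ‖x‖` (`Helper61.Zono.integral_inner_abs`), `∫ h ≤ √n/κ ≤ 2√n`,
`∫ g_x ≤ 2 * 8 n (2η) = 32 n η` when `‖x‖ ≥ 1/2`: with `x' = x/‖x‖` one has
`{|⟨x,y⟩| ≤ η m(y)} ⊆ {|⟨x',y⟩| ≤ 2η ‖y‖}`, use `slab`.
The vector of integrals lies in the closure of the convex hull of the set of values of
`(f, g, h)` on `{y ≠ 0}` (`Convex.integral_mem`, closed convex set, `γ`-almost every `y ≠ 0` —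
here `n ≥ 1`), so some finite convex combination `∑ p_a (f,g,h)(y_a)` is within `τ` of it in every
coordinate. Put `z_a = y_a / m(y_a)`, `w_a = p_a m(y_a)/κ`; then `w_a |⟨x,z_a⟩| = p_a f_x(y_a)`,
`∑_{|⟨x,z_a⟩| ≤ η} w_a = ∑ p_a g_x(y_a)`, `∑ w_a = ∑ p_a h(y_a)`.
-/

open MeasureTheory ProbabilityTheory
open scoped RealInnerProductSpace

namespace Pool.Agent.Helper47.ZC

section discraux

variable {n : ℕ}

/-- the sup norm -/
private noncomputable def mx (y : EuclideanSpace ℝ (Fin n)) : ℝ :=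
  ‖(WithLp.ofLp y : Fin n → ℝ)‖

private lemma mx_nonneg (y : EuclideanSpace ℝ (Fin n)) : 0 ≤ mx y := norm_nonneg _

private lemma mx_cont : Continuous (mx (n := n)) := by
  unfold mx
  fun_prop

private lemma abs_le_mx (y : EuclideanSpace ℝ (Fin n)) (i : Fin n) : |y i| ≤ mx y := by
  have := norm_le_pi_norm (WithLp.ofLp y) i
  simpa [mx] using this

private lemma mx_le_norm (y : EuclideanSpace ℝ (Fin n)) : mx y ≤ ‖y‖ := by
  unfold mx
  rw [pi_norm_le_iff_of_nonneg (norm_nonneg _)]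
  intro i
  exact PiLp.norm_apply_le y i

private lemma exists_mx (hn : 1 ≤ n) (y : EuclideanSpace ℝ (Fin n)) : ∃ i, |y i| = mx y := by
  have : Nonempty (Fin n) := ⟨⟨0, hn⟩⟩
  obtain ⟨i, -, hi⟩ := Finset.exists_max_image Finset.univ (fun i => |y i|) Finset.univ_nonempty
  refine ⟨i, le_antisymm (abs_le_mx y i) ?_⟩
  unfold mx
  rw [pi_norm_le_iff_of_nonneg (abs_nonneg _)]
  exact fun j => hi j (Finset.mem_univ _)

/-- the rescaled vector on the boundary of the cube -/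
private noncomputable def zz (y : EuclideanSpace ℝ (Fin n)) : EuclideanSpace ℝ (Fin n) :=
  open Classical in if mx y = 0 then WithLp.toLp 2 (fun _ => 1) else (mx y)⁻¹ • y

private lemma zz_le (y : EuclideanSpace ℝ (Fin n)) (i : Fin n) : |zz y i| ≤ 1 := by
  unfold zz
  split_ifs with h
  · simp
  · have h1 : 0 < mx y := lt_of_le_of_ne (mx_nonneg y) (Ne.symm h)
    rw [PiLp.smul_apply, smul_eq_mul, abs_mul, abs_of_pos (inv_pos.2 h1), ← div_eq_inv_mul,
      div_le_one h1]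
    exact abs_le_mx y i

private lemma zz_eq (hn : 1 ≤ n) (y : EuclideanSpace ℝ (Fin n)) : ∃ i, |zz y i| = 1 := by
  unfold zz
  split_ifs with h
  · exact ⟨⟨0, hn⟩, by simp⟩
  · have h1 : 0 < mx y := lt_of_le_of_ne (mx_nonneg y) (Ne.symm h)
    obtain ⟨i, hi⟩ := exists_mx hn y
    refine ⟨i, ?_⟩
    rw [PiLp.smul_apply, smul_eq_mul, abs_mul, abs_of_pos (inv_pos.2 h1), ← div_eq_inv_mul,
      hi, div_self h1.ne']

private lemma mx_zz (x y : EuclideanSpace ℝ (Fin n)) : mx y * |⟪x, zz y⟫| = |⟪x, y⟫| := by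
  unfold zz
  split_ifs with h
  · have h0 : y = 0 := by
      unfold mx at h
      rw [norm_eq_zero] at h
      ext i
      exact congrFun h i
    rw [h0, inner_zero_right, abs_zero]
    unfold mx
    simp
  · have h1 : 0 < mx y := lt_of_le_of_ne (mx_nonneg y) (Ne.symm h)
    rw [inner_smul_right, abs_mul, abs_of_pos (inv_pos.2 h1), ← mul_assoc,
      mul_inv_cancel₀ h1.ne', one_mul]

end discraux

theorem discr {n : ℕ} (hn : 1 ≤ n) (X : Finset (EuclideanSpace ℝ (Fin n))) (η τ : ℝ)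
    (hη : 0 ≤ η) (hτ : 0 < τ) :
    ∃ (k : ℕ) (w : Fin k → ℝ) (z : Fin k → EuclideanSpace ℝ (Fin n)),
      (∀ a, 0 ≤ w a) ∧ (∀ a i, |z a i| ≤ 1) ∧ (∀ a, ∃ i, |z a i| = 1) ∧
      ∑ a, w a ≤ 2 * Real.sqrt n + τ ∧
      (∀ x ∈ X, abs ((∑ a, w a * |⟪x, z a⟫|) - ‖x‖) ≤ τ) ∧
      (∀ x ∈ X, 1 / 2 ≤ ‖x‖ →
        ∑ a ∈ Finset.univ.filter (fun a => |⟪x, z a⟫| ≤ η), w a ≤ 32 * n * η + τ) := by
  classical
  obtain ⟨κ, hκ⟩ : ∃ κ, κ = Helper61.Zono.kap := ⟨_, rfl⟩
  have hκ2 : 1 / 2 ≤ κ := by rw [hκ]; exact Helper61.Zono.half_le_kap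
  have hκ0 : 0 < κ := by linarith
  have hnorm : Integrable (fun y : EuclideanSpace ℝ (Fin n) => ‖y‖) (stdGaussian _) :=
    IsGaussian.integrable_id.norm
  have hcard : (Module.finrank ℝ (EuclideanSpace ℝ (Fin n)) : ℝ) = n := by
    rw [finrank_euclideanSpace_fin]
  -- the three families of functions
  obtain ⟨f, hf⟩ : ∃ f : EuclideanSpace ℝ (Fin n) → X → ℝ, f = fun y x => |⟪x.1, y⟫| / κ :=
    ⟨_, rfl⟩
  obtain ⟨g, hg⟩ : ∃ g : EuclideanSpace ℝ (Fin n) → X → ℝ, g = fun y x =>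
      Set.indicator {y : EuclideanSpace ℝ (Fin n) | |⟪x.1, y⟫| ≤ η * mx y}
        (fun y => mx y / κ) y := ⟨_, rfl⟩
  obtain ⟨Φ, hΦ⟩ : ∃ Φ : EuclideanSpace ℝ (Fin n) → (X → ℝ) × (X → ℝ) × ℝ,
      Φ = fun y => (f y, g y, mx y / κ) := ⟨_, rfl⟩
  have hih : Integrable (fun y : EuclideanSpace ℝ (Fin n) => mx y / κ) (stdGaussian _) := by
    refine (hnorm.div_const κ).mono' (mx_cont.div_const κ).aestronglyMeasurable
      (Filter.Eventually.of_forall fun y => ?_)
    rw [Real.norm_of_nonneg (div_nonneg (mx_nonneg y) hκ0.le)]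
    exact div_le_div_of_nonneg_right (mx_le_norm y) hκ0.le
  have hS : ∀ x : EuclideanSpace ℝ (Fin n),
      MeasurableSet {y : EuclideanSpace ℝ (Fin n) | |⟪x, y⟫| ≤ η * mx y} := fun x =>
    measurableSet_le (by fun_prop) (mx_cont.measurable.const_mul η)
  have hif : Integrable f (stdGaussian _) := by
    refine integrable_pi_iff.2 fun x => ?_
    rw [hf]
    exact (((hnorm.const_mul ‖x.1‖).mono' (by fun_prop)
      (Filter.Eventually.of_forall fun y => by
        simpa using abs_real_inner_le_norm x.1 y)).abs).div_const κ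
  have hgx : ∀ x : X, Integrable (fun y => g y x) (stdGaussian _) := by
    intro x
    rw [hg]
    exact hih.indicator (hS x.1)
  have hig : Integrable g (stdGaussian _) := integrable_pi_iff.2 hgx
  have hfx : ∀ x : X, Integrable (fun y => f y x) (stdGaussian _) := fun x =>
    integrable_pi_iff.1 hif x
  have hiΦ : Integrable Φ (stdGaussian _) := by
    rw [hΦ]
    exact hif.prodMk (hig.prodMk hih)
  have hmem : ∫ y, Φ y ∂(stdGaussian _) ∈ closure (convexHull ℝ (Set.range Φ)) := by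
    refine (convex_convexHull ℝ _).closure.integral_mem isClosed_closure
      (Filter.Eventually.of_forall fun y => ?_) hiΦ
    exact subset_closure (subset_convexHull ℝ _ ⟨y, rfl⟩)
  obtain ⟨p, hp, hd⟩ := Metric.mem_closure_iff.1 hmem τ hτ
  rw [dist_eq_norm] at hd
  -- the three integrals
  have hI1 : ∀ x : X, (∫ y, Φ y ∂(stdGaussian _)).1 x = ‖x.1‖ := by
    intro x
    rw [fst_integral hiΦ, hΦ]
    simp only
    rw [eval_integral hfx, hf]
    simp only
    rw [integral_div, Helper61.Zono.integral_inner_abs]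
    have : ∫ x, |x| ∂(gaussianReal 0 1) = κ := by rw [hκ]; rfl
    rw [this, mul_div_assoc, div_self hκ0.ne', mul_one]
  have hI2 : ∀ x : X, (∫ y, Φ y ∂(stdGaussian _)).2.1 x = ∫ y, g y x ∂(stdGaussian _) := by
    intro x
    rw [snd_integral hiΦ, fst_integral hiΦ.snd, hΦ]
    simp only
    rw [eval_integral hgx]
  have hI3 : (∫ y, Φ y ∂(stdGaussian _)).2.2 =
      ∫ y : EuclideanSpace ℝ (Fin n), mx y / κ ∂(stdGaussian _) := by
    rw [snd_integral hiΦ, snd_integral hiΦ.snd, hΦ]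
  have hB3 : ∫ y : EuclideanSpace ℝ (Fin n), mx y / κ ∂(stdGaussian _) ≤ 2 * Real.sqrt n := by
    have h1 : ∫ y : EuclideanSpace ℝ (Fin n), mx y / κ ∂(stdGaussian _) ≤
        ∫ y : EuclideanSpace ℝ (Fin n), ‖y‖ / κ ∂(stdGaussian _) :=
      integral_mono hih (hnorm.div_const κ) fun y =>
        div_le_div_of_nonneg_right (mx_le_norm y) hκ0.le
    have h2 : ∫ y : EuclideanSpace ℝ (Fin n), ‖y‖ ∂(stdGaussian _) ≤ Real.sqrt n := by
      have := Helper24.Zono.integral_norm_le (E := EuclideanSpace ℝ (Fin n))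
      rwa [hcard] at this
    refine h1.trans ?_
    rw [integral_div, div_le_iff₀ hκ0]
    have := Real.sqrt_nonneg (n : ℝ)
    nlinarith
  have hB2 : ∀ x : X, 1 / 2 ≤ ‖x.1‖ → ∫ y, g y x ∂(stdGaussian _) ≤ 32 * n * η := by
    intro x hx
    have hx0 : 0 < ‖x.1‖ := by linarith
    obtain ⟨x', hx'⟩ : ∃ x', x' = ‖x.1‖⁻¹ • x.1 := ⟨_, rfl⟩
    have hx1 : ‖x'‖ = 1 := by
      rw [hx', norm_smul, norm_inv, norm_norm, inv_mul_cancel₀ hx0.ne']
    have hsl := slab hn x' hx1 (2 * η) (by linarith)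
    have hms : MeasurableSet {y : EuclideanSpace ℝ (Fin n) | |⟪x', y⟫| ≤ 2 * η * ‖y‖} :=
      measurableSet_le (by fun_prop) (by fun_prop)
    have h1 : ∫ y, g y x ∂(stdGaussian _) ≤
        ∫ y, (Set.indicator {y : EuclideanSpace ℝ (Fin n) | |⟪x', y⟫| ≤ 2 * η * ‖y‖}
          (fun y => ‖y‖) y) / κ ∂(stdGaussian (EuclideanSpace ℝ (Fin n))) := by
      refine integral_mono (hgx x) ((hnorm.indicator hms).div_const κ) fun y => ?_
      rw [hg]
      simp only
      by_cases hy : y ∈ {y : EuclideanSpace ℝ (Fin n) | |⟪x.1, y⟫| ≤ η * mx y}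
      · have hy' : |⟪x.1, y⟫| ≤ η * mx y := hy
        have hy2 : y ∈ {y : EuclideanSpace ℝ (Fin n) | |⟪x', y⟫| ≤ 2 * η * ‖y‖} := by
          change |⟪x', y⟫| ≤ 2 * η * ‖y‖
          rw [hx', real_inner_smul_left, abs_mul, abs_of_pos (inv_pos.2 hx0)]
          have h3 : ‖x.1‖⁻¹ ≤ 2 := by
            rw [inv_le_comm₀ hx0 (by norm_num)]
            linarith
          have h4 := mx_le_norm y
          have h5 := mx_nonneg y
          have h6 := abs_nonneg ⟪x.1, y⟫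
          calc ‖x.1‖⁻¹ * |⟪x.1, y⟫| ≤ 2 * |⟪x.1, y⟫| := mul_le_mul_of_nonneg_right h3 h6
            _ ≤ 2 * (η * mx y) := by linarith
            _ ≤ 2 * η * ‖y‖ := by nlinarith
        rw [Set.indicator_of_mem hy, Set.indicator_of_mem hy2]
        exact div_le_div_of_nonneg_right (mx_le_norm y) hκ0.le
      · rw [Set.indicator_of_notMem hy]
        exact div_nonneg (Set.indicator_nonneg (fun _ _ => norm_nonneg _) _) hκ0.le
    refine h1.trans ?_
    rw [integral_div, div_le_iff₀ hκ0]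
    refine hsl.trans ?_
    have h7 : (0 : ℝ) ≤ n * η := by positivity
    nlinarith
  -- the convex combination
  obtain ⟨ι, hι, w, z, hw0, -, hz, hsum⟩ := mem_convexHull_iff_exists_fintype.1 hp
  choose y hy using hz
  have e := Fintype.equivFin ι
  refine ⟨Fintype.card ι, fun a => w (e.symm a) * (mx (y (e.symm a)) / κ),
    fun a => zz (y (e.symm a)), fun a => mul_nonneg (hw0 _) (div_nonneg (mx_nonneg _) hκ0.le),
    fun a i => zz_le _ i, fun a => zz_eq hn _, ?_, ?_, ?_⟩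
  · rw [Equiv.sum_comp e.symm (fun i => w i * (mx (y i) / κ))]
    have h1 : ∑ i, w i * (mx (y i) / κ) = p.2.2 := by
      rw [← hsum, Prod.snd_sum, Prod.snd_sum]
      refine Finset.sum_congr rfl fun i _ => ?_
      rw [← hy i, hΦ]
      rfl
    have h2' : ‖((∫ y, Φ y ∂(stdGaussian _)) - p).2.2‖ < τ :=
      lt_of_le_of_lt ((norm_snd_le _).trans (norm_snd_le _)) hd
    have h2 : |(∫ y, Φ y ∂(stdGaussian _)).2.2 - p.2.2| < τ := h2'
    rw [hI3] at h2
    have h3 := (abs_lt.1 h2).1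
    rw [h1]
    linarith
  · intro x hx
    have h1 : ∑ a, w (e.symm a) * (mx (y (e.symm a)) / κ) * |⟪x, zz (y (e.symm a))⟫| =
        p.1 ⟨x, hx⟩ := by
      rw [Equiv.sum_comp e.symm (fun i => w i * (mx (y i) / κ) * |⟪x, zz (y i)⟫|),
        ← hsum, Prod.fst_sum, Finset.sum_apply]
      refine Finset.sum_congr rfl fun i _ => ?_
      rw [← hy i, hΦ]
      change _ = w i * f (y i) ⟨x, hx⟩
      rw [hf]
      simp only
      rw [← mx_zz x (y i)]
      ring
    have h2 : ‖((∫ y, Φ y ∂(stdGaussian _)) - p).1 ⟨x, hx⟩‖ < τ :=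
      lt_of_le_of_lt ((norm_le_pi_norm _ _).trans (norm_fst_le _)) hd
    rw [h1, abs_sub_comm, ← hI1 ⟨x, hx⟩]
    exact h2.le
  · intro x hx hx2
    have h1 : ∑ a ∈ Finset.univ.filter (fun a => |⟪x, zz (y (e.symm a))⟫| ≤ η),
        w (e.symm a) * (mx (y (e.symm a)) / κ) ≤ p.2.1 ⟨x, hx⟩ := by
      rw [Finset.sum_filter, Equiv.sum_comp e.symm
        (fun i => if |⟪x, zz (y i)⟫| ≤ η then w i * (mx (y i) / κ) else 0),
        ← hsum, Prod.snd_sum, Prod.fst_sum, Finset.sum_apply]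
      refine Finset.sum_le_sum fun i _ => ?_
      rw [← hy i, hΦ]
      change _ ≤ w i * g (y i) ⟨x, hx⟩
      rw [hg]
      simp only
      split_ifs with h3
      · refine mul_le_mul_of_nonneg_left ?_ (hw0 i)
        rw [Set.indicator_of_mem]
        change |⟪x, y i⟫| ≤ η * mx (y i)
        rw [← mx_zz x (y i), mul_comm]
        exact mul_le_mul_of_nonneg_right h3 (mx_nonneg _)
      · exact mul_nonneg (hw0 i) (Set.indicator_nonneg
          (fun _ _ => div_nonneg (mx_nonneg _) hκ0.le) _)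
    have h2 : ‖((∫ y, Φ y ∂(stdGaussian _)) - p).2.1 ⟨x, hx⟩‖ < τ :=
      lt_of_le_of_lt ((norm_le_pi_norm _ _).trans ((norm_fst_le _).trans (norm_snd_le _))) hd
    have h4 : |(∫ y, Φ y ∂(stdGaussian _)).2.1 ⟨x, hx⟩ - p.2.1 ⟨x, hx⟩| < τ := h2
    have h5 := (abs_lt.1 h4).1
    have h6 := hB2 ⟨x, hx⟩ hx2
    rw [← hI2] at h6
    linarith

end Pool.Agent.Helper47.ZC
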