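import Pool.Agent.Helper47.ZC.Defs

/-!
# `E e^{-r|z|²/2} cos(s⟨u,z⟩)` for a standard Gaussian vector

One coordinate: `E e^{-r g²/2 + i b g} = (1+r)^{-1/2} e^{-b²/(2(1+r))}` (complex Gaussian integral,
e.g. `integral_cexp_quadratic`, or `fourierIntegral_gaussian`-type lemmas, after writing
`gaussianReal 0 1` with its density). Then product over the coordinates:
`stdGaussian (EuclideanSpace ℝ (Fin n))` is the image of `Measure.pi (fun _ => gaussianReal 0 1)`
(see how Mathlib defines / characterises `stdGaussian`), `integral_fintype_prod_eq_prod`, and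
`∑ u_i² = 1`. Take real parts at the end.
-/

open MeasureTheory ProbabilityTheory
open scoped RealInnerProductSpace

namespace Pool.Agent.Helper47.ZC

private lemma gx_one (r b : ℝ) (hr : 0 ≤ r) :
    ∫ x : ℝ, Complex.exp (-(r * x ^ 2 / 2 : ℝ) + (b * x : ℝ) * Complex.I) ∂(gaussianReal 0 1)
      = (((1 + r) ^ (-(1 : ℝ) / 2) * Real.exp (-(b ^ 2 / (2 * (1 + r)))) : ℝ) : ℂ) := by
  have h1r : 0 < 1 + r := by linarith
  rw [integral_gaussianReal_eq_integral_smul one_ne_zero]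
  have h1 : ∀ x : ℝ, gaussianPDFReal 0 1 x •
      Complex.exp (-(r * x ^ 2 / 2 : ℝ) + (b * x : ℝ) * Complex.I)
      = (((√(2 * Real.pi))⁻¹ : ℝ) : ℂ) *
        Complex.exp ((-(((1 + r) / 2 : ℝ) : ℂ)) * (x : ℂ) ^ 2 + ((b : ℂ) * Complex.I) * x + 0) := by
    intro x
    rw [gaussianPDFReal, Complex.real_smul]
    push_cast
    rw [mul_assoc, ← Complex.exp_add]
    congr 1
    · simp
    · congr 1
      simp
      ring
  simp_rw [h1]
  rw [integral_const_mul, integral_cexp_quadratic]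
  · have h2 : (Real.pi : ℂ) / -(-(((1 + r) / 2 : ℝ) : ℂ)) = ((2 * Real.pi / (1 + r) : ℝ) : ℂ) := by
      push_cast
      rw [neg_neg]
      have : (1 + (r : ℂ)) ≠ 0 := by exact_mod_cast h1r.ne'
      field_simp
    have h3 : (((2 * Real.pi / (1 + r) : ℝ) : ℂ)) ^ (1 / 2 : ℂ)
        = ((√(2 * Real.pi) * (1 + r) ^ (-(1 : ℝ) / 2) : ℝ) : ℂ) := by
      have h4 : (1 / 2 : ℂ) = ((1 / 2 : ℝ) : ℂ) := by push_cast; rfl
      rw [h4, ← Complex.ofReal_cpow (by positivity)]
      congr 1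
      rw [Real.div_rpow (by positivity) h1r.le, ← Real.sqrt_eq_rpow, ← Real.sqrt_eq_rpow,
        neg_div, Real.rpow_neg h1r.le, ← Real.sqrt_eq_rpow, div_eq_mul_inv]
    have h5 : (0 : ℂ) - ((b : ℂ) * Complex.I) ^ 2 / (4 * -(((1 + r) / 2 : ℝ) : ℂ))
        = ((-(b ^ 2 / (2 * (1 + r))) : ℝ) : ℂ) := by
      push_cast
      rw [mul_pow, Complex.I_sq]
      have : (1 + (r : ℂ)) ≠ 0 := by exact_mod_cast h1r.ne'
      field_simp
      ring
    rw [h2, h3, h5, ← Complex.ofReal_exp, ← Complex.ofReal_mul, ← Complex.ofReal_mul]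
    congr 1
    have h6 : √(2 * Real.pi) ≠ 0 := by positivity
    field_simp
  · rw [← Complex.ofReal_neg, Complex.ofReal_re]
    linarith

theorem integral_gexp_cos {n : ℕ} (u : EuclideanSpace ℝ (Fin n)) (hu : ‖u‖ = 1) (r s : ℝ)
    (hr : 0 ≤ r) :
    ∫ z, Real.exp (-(r * ‖z‖ ^ 2 / 2)) * Real.cos (s * ⟪u, z⟫)
        ∂(stdGaussian (EuclideanSpace ℝ (Fin n)))
      = (1 + r) ^ (-(n : ℝ) / 2) * Real.exp (-(s ^ 2 / (2 * (1 + r)))) := by
  have h1r : 0 < 1 + r := by linarith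
  have hc : Continuous fun z : EuclideanSpace ℝ (Fin n) =>
      Complex.exp (-(r * ‖z‖ ^ 2 / 2 : ℝ) + (s * ⟪u, z⟫ : ℝ) * Complex.I) := by fun_prop
  have hre : ∀ z : EuclideanSpace ℝ (Fin n),
      Real.exp (-(r * ‖z‖ ^ 2 / 2)) * Real.cos (s * ⟪u, z⟫)
        = RCLike.re (Complex.exp (-(r * ‖z‖ ^ 2 / 2 : ℝ) + (s * ⟪u, z⟫ : ℝ) * Complex.I)) := by
    intro z
    rw [← Complex.ofReal_neg, Complex.exp_add, ← Complex.ofReal_exp]
    change _ = (_ : ℂ).re
    rw [Complex.re_ofReal_mul, Complex.exp_ofReal_mul_I_re]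
  have hint : Integrable (fun z : EuclideanSpace ℝ (Fin n) =>
      Complex.exp (-(r * ‖z‖ ^ 2 / 2 : ℝ) + (s * ⟪u, z⟫ : ℝ) * Complex.I))
      (stdGaussian (EuclideanSpace ℝ (Fin n))) := by
    refine Integrable.mono' (integrable_const (1 : ℝ)) hc.aestronglyMeasurable
      (Filter.Eventually.of_forall fun z => ?_)
    rw [← Complex.ofReal_neg, Complex.exp_add, norm_mul, Complex.norm_exp_ofReal_mul_I, mul_one,
      ← Complex.ofReal_exp, Complex.norm_real, Real.norm_eq_abs, abs_of_pos (Real.exp_pos _)]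
    rw [← Real.exp_zero]
    apply Real.exp_le_exp.mpr
    have : 0 ≤ r * ‖z‖ ^ 2 / 2 := by positivity
    linarith
  simp_rw [hre]
  rw [integral_re hint, ← map_pi_eq_stdGaussian, integral_map]
  · have h2 : ∀ x : Fin n → ℝ,
        Complex.exp (-(r * ‖WithLp.toLp 2 x‖ ^ 2 / 2 : ℝ)
          + (s * ⟪u, WithLp.toLp 2 x⟫ : ℝ) * Complex.I)
        = ∏ i, Complex.exp (-(r * x i ^ 2 / 2 : ℝ) + (s * u i * x i : ℝ) * Complex.I) := by
      intro x
      have e1 : r * ‖WithLp.toLp 2 x‖ ^ 2 / 2 = ∑ i, r * x i ^ 2 / 2 := by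
        rw [EuclideanSpace.real_norm_sq_eq, Finset.mul_sum, Finset.sum_div]
      have e2 : s * ⟪u, WithLp.toLp 2 x⟫ = ∑ i, s * u i * x i := by
        rw [PiLp.inner_apply, Finset.mul_sum]
        refine Finset.sum_congr rfl fun i _ => ?_
        simp
        ring
      rw [← Complex.exp_sum, e1, e2, Complex.ofReal_sum, Complex.ofReal_sum,
        Finset.sum_add_distrib, Finset.sum_neg_distrib, Finset.sum_mul]
    simp_rw [h2]
    rw [integral_fintype_prod_eq_prod (f := fun i (x : ℝ) =>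
      Complex.exp (-(r * x ^ 2 / 2 : ℝ) + (s * u i * x : ℝ) * Complex.I))]
    simp_rw [gx_one r _ hr]
    rw [← Complex.ofReal_prod, RCLike.re_to_complex, Complex.ofReal_re, Finset.prod_mul_distrib, Finset.prod_const, Finset.card_univ,
      Fintype.card_fin, ← Real.exp_sum]
    congr 1
    · rw [← Real.rpow_natCast, ← Real.rpow_mul h1r.le]
      congr 1
      ring
    · congr 1
      rw [Finset.sum_neg_distrib, ← Finset.sum_div]
      congr 2
      have h3 : ∑ i, u i ^ 2 = 1 := by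
        rw [← EuclideanSpace.real_norm_sq_eq, hu, one_pow]
      simp_rw [mul_pow]
      rw [← Finset.mul_sum, h3, mul_one]
  · fun_prop
  · exact hc.aestronglyMeasurable

end Pool.Agent.Helper47.ZC
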