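import Mathlib

/-!
# Choice of the frequency

`lam = L √n N^{1/(n-1)}`, `ν = N^{1/(n-1)} ≥ 1`, `N = ν^{n-1}`. Each of the three error terms is at
most one third of the right-hand side when `L` is large (depending on `C, κ` only); divide by `M²`
resp. `M` and use `M ≥ √n/2 ≥ 1/2`:
* `N lam³ e^{-lam²/2}`: `log` of it is `(n+2) log ν - L² n ν²/2 + 3 log L + (3/2) log n`
  and `(n+2) log ν ≤ 2n * ν²/2`, `log n ≤ n ≤ n ν²`, so it is `≤ -(L²/2 - 3) n ν² + 3 log L`,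
  very negative;
* `N lam⁴ e^{-lam²/4}`: same, `≤ -(L²/4 - 6) n ν² + 4 log L`;
* `N (C n)^{(n+2)/2} lam^{-(n-1)} = C^{(n+2)/2} n^{3/2} L^{-(n-1)} ≤ (4 C²/L)^{n-1} ≤ 4 C²/L`
  since `(n+2)/2 ≤ 2(n-1)` and `n^{3/2} ≤ 4^{n-1}` for `n ≥ 2`.
-/

namespace Pool.Agent.Helper47.ZC

/-- `x ^ 4 exp (-3 x^2 / 16) ≤ 911 / x^2` -/
private theorem exp_aux (x : ℝ) (hx : 0 < x) : x ^ 4 * Real.exp (-(3 * x ^ 2 / 16)) ≤ 911 / x ^ 2 := by
  have h1 := Real.pow_div_factorial_le_exp (3 * x ^ 2 / 16) (by positivity) 3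
  have h2 : (3 * x ^ 2 / 16) ^ 3 / (Nat.factorial 3 : ℝ) = 27 / 24576 * x ^ 6 := by
    norm_num [Nat.factorial]
    ring
  rw [h2] at h1
  have h3 : 0 < 27 / 24576 * x ^ 6 := by positivity
  rw [Real.exp_neg, ← div_eq_mul_inv, div_le_div_iff₀ (Real.exp_pos _) (by positivity)]
  calc x ^ 4 * x ^ 2 = x ^ 6 := by ring
    _ ≤ 911 * (27 / 24576 * x ^ 6) := by nlinarith [pow_pos hx 6]
    _ ≤ 911 * Real.exp (3 * x ^ 2 / 16) := by gcongr

theorem lower_num (C κ : ℝ) (hC : 1 ≤ C) (hκ : 0 < κ) : ∃ L : ℝ, 1 ≤ L ∧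
    ∀ n N : ℕ, 2 ≤ n → 1 ≤ N → ∀ M : ℝ, Real.sqrt n / 2 ≤ M → ∀ lam : ℝ,
      lam = L * Real.sqrt n * (N : ℝ) ^ (1 / ((n : ℝ) - 1)) →
      C * M ^ 2 * Real.exp (-(lam ^ 2 / 2))
        + M * ((C * n) ^ (((n : ℝ) + 2) / 2) / lam ^ (n + 2)
          + C * lam * Real.exp (-(lam ^ 2 / 4)))
      ≤ κ / 2 * (M ^ 2 / (128 * N * lam ^ 3)) := by
  obtain ⟨k, hk⟩ : ∃ k : ℝ, k = κ / 768 := ⟨_, rfl⟩
  have hk0 : 0 < k := by rw [hk]; positivity
  have hC0 : 0 < C := by linarith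
  obtain ⟨L, hL⟩ : ∃ L : ℝ, L = 4 + 2 * C ^ 2 + (4 * C ^ 2 + 2000 * C) / k := ⟨_, rfl⟩
  have hq : 0 ≤ (4 * C ^ 2 + 2000 * C) / k := by positivity
  have hL4 : 4 ≤ L := by rw [hL]; nlinarith [sq_nonneg C]
  have hL0 : 0 < L := by linarith
  have hLC : 2 * C ^ 2 ≤ L := by rw [hL]; linarith
  have hLk : 4 * C ^ 2 + 2000 * C ≤ k * L := by
    have h : k * ((4 * C ^ 2 + 2000 * C) / k) = 4 * C ^ 2 + 2000 * C := by field_simp
    have h2 : 0 ≤ k * (4 + 2 * C ^ 2) := by positivity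
    rw [hL]
    nlinarith
  refine ⟨L, by linarith, ?_⟩
  intro n N hn hN M hM lam hlam
  obtain ⟨m, rfl⟩ : ∃ m, n = m + 1 := ⟨n - 1, by omega⟩
  have hm : 1 ≤ m := by omega
  have hmR : (1 : ℝ) ≤ m := by exact_mod_cast hm
  have hm0 : (0 : ℝ) < m := by linarith
  have hNR : (1 : ℝ) ≤ N := by exact_mod_cast hN
  have hN0 : (0 : ℝ) < N := by linarith
  have hcast : ((m + 1 : ℕ) : ℝ) = m + 1 := by push_cast; ring
  rw [hcast] at hM hlam ⊢
  obtain ⟨s, hs⟩ : ∃ s : ℝ, s = Real.sqrt ((m : ℝ) + 1) := ⟨_, rfl⟩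
  rw [← hs] at hM hlam
  have hs2 : s ^ 2 = m + 1 := by rw [hs]; exact Real.sq_sqrt (by positivity)
  have hs0 : 0 < s := by rw [hs]; exact Real.sqrt_pos.2 (by positivity)
  have hs1 : 1 ≤ s := by
    by_contra h
    push Not at h
    nlinarith
  have hexp : 1 / ((m : ℝ) + 1 - 1) = 1 / m := by rw [add_sub_cancel_right]
  rw [hexp] at hlam
  obtain ⟨ν, hν⟩ : ∃ ν : ℝ, ν = (N : ℝ) ^ (1 / (m : ℝ)) := ⟨_, rfl⟩
  rw [← hν] at hlam
  have hν1 : 1 ≤ ν := by rw [hν]; exact Real.one_le_rpow hNR (by positivity)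
  have hν0 : 0 < ν := by linarith
  have hνm : ν ^ m = N := by
    rw [hν, ← Real.rpow_natCast, ← Real.rpow_mul hN0.le, one_div, inv_mul_cancel₀ hm0.ne',
      Real.rpow_one]
  have hlam0 : 0 < lam := by rw [hlam]; positivity
  have hlamL : L ≤ lam := by
    rw [hlam]
    calc L = L * 1 * 1 := by ring
      _ ≤ L * s * ν := by gcongr
  have hlam1 : 1 ≤ lam := by linarith
  have hlam2 : lam ^ 2 = L ^ 2 * (m + 1) * ν ^ 2 := by rw [hlam, ← hs2]; ring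
  have hNexp : (N : ℝ) ≤ Real.exp (lam ^ 2 / 16) := by
    have h1 : ν ≤ Real.exp (ν - 1) := by
      have := Real.add_one_le_exp (ν - 1)
      linarith
    have h2 : ν ^ m ≤ Real.exp (m * (ν - 1)) := by
      rw [Real.exp_nat_mul]
      exact pow_le_pow_left₀ hν0.le h1 m
    have h3 : (m : ℝ) * (ν - 1) ≤ lam ^ 2 / 16 := by
      have e1 : (16 : ℝ) ≤ L ^ 2 := by nlinarith
      have e2 : ν - 1 ≤ ν ^ 2 := by nlinarith
      have e3 : 16 * ((m + 1) * ν ^ 2) ≤ L ^ 2 * ((m + 1) * ν ^ 2) := by gcongr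
      have e4 : (m : ℝ) * (ν - 1) ≤ m * ν ^ 2 := by gcongr
      have e5 : 0 ≤ ν ^ 2 := by positivity
      rw [hlam2]
      linarith
    calc (N : ℝ) = ν ^ m := hνm.symm
      _ ≤ Real.exp (m * (ν - 1)) := h2
      _ ≤ Real.exp (lam ^ 2 / 16) := Real.exp_le_exp.2 h3
  have hM0 : 1 / 2 ≤ M := by linarith
  have hM0' : 0 < M := by linarith
  -- the main exponential bound
  have hE : C * N * lam ^ 4 * Real.exp (-(lam ^ 2 / 4)) ≤ k / 2 := by
    have h1 := exp_aux lam hlam0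
    have h2 : (N : ℝ) * Real.exp (-(lam ^ 2 / 4)) ≤ Real.exp (-(3 * lam ^ 2 / 16)) := by
      calc (N : ℝ) * Real.exp (-(lam ^ 2 / 4))
          ≤ Real.exp (lam ^ 2 / 16) * Real.exp (-(lam ^ 2 / 4)) := by gcongr
        _ = Real.exp (-(3 * lam ^ 2 / 16)) := by
          rw [← Real.exp_add]
          congr 1
          ring
    have h3 : 911 / lam ^ 2 ≤ 911 / L := by
      apply div_le_div_of_nonneg_left (by norm_num) hL0
      nlinarith
    have h4 : C * (911 / L) ≤ k / 2 := by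
      rw [mul_div_assoc', div_le_iff₀ hL0]
      nlinarith [sq_nonneg C]
    calc C * N * lam ^ 4 * Real.exp (-(lam ^ 2 / 4))
        = C * (lam ^ 4 * (N * Real.exp (-(lam ^ 2 / 4)))) := by ring
      _ ≤ C * (lam ^ 4 * Real.exp (-(3 * lam ^ 2 / 16))) := by gcongr
      _ ≤ C * (911 / lam ^ 2) := by gcongr
      _ ≤ C * (911 / L) := by gcongr
      _ ≤ k / 2 := h4
  have hden : 0 < (N : ℝ) * lam ^ 3 := by positivity
  -- term 1
  have T1 : C * M ^ 2 * Real.exp (-(lam ^ 2 / 2)) ≤ k * (M ^ 2 / (N * lam ^ 3)) := by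
    rw [mul_div_assoc', le_div_iff₀ hden]
    have e1 : Real.exp (-(lam ^ 2 / 2)) ≤ Real.exp (-(lam ^ 2 / 4)) := by
      apply Real.exp_le_exp.2
      nlinarith [sq_nonneg lam]
    have e2 : lam ^ 3 ≤ lam ^ 4 := pow_le_pow_right₀ hlam1 (by norm_num)
    calc C * M ^ 2 * Real.exp (-(lam ^ 2 / 2)) * (N * lam ^ 3)
        = M ^ 2 * (C * N * lam ^ 3 * Real.exp (-(lam ^ 2 / 2))) := by ring
      _ ≤ M ^ 2 * (C * N * lam ^ 4 * Real.exp (-(lam ^ 2 / 4))) := by gcongr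
      _ ≤ M ^ 2 * (k / 2) := by gcongr
      _ ≤ k * M ^ 2 := by
        have : 0 < M ^ 2 * k := by positivity
        linarith
  -- term 3
  have T3 : M * (C * lam * Real.exp (-(lam ^ 2 / 4))) ≤ k * (M ^ 2 / (N * lam ^ 3)) := by
    rw [mul_div_assoc', le_div_iff₀ hden]
    calc M * (C * lam * Real.exp (-(lam ^ 2 / 4))) * (N * lam ^ 3)
        = M * (C * N * lam ^ 4 * Real.exp (-(lam ^ 2 / 4))) := by ring
      _ ≤ M * (k / 2) := by gcongr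
      _ ≤ k * M ^ 2 := by nlinarith [mul_pos hk0 hM0']
  -- term 2
  have T2 : M * ((C * ((m : ℝ) + 1)) ^ (((m : ℝ) + 1 + 2) / 2) / lam ^ (m + 1 + 2)) ≤
      k * (M ^ 2 / (N * lam ^ 3)) := by
    have a1 : (C * ((m : ℝ) + 1)) ^ (((m : ℝ) + 1 + 2) / 2) ≤ C ^ (2 * m) * s ^ (m + 3) := by
      rw [Real.mul_rpow hC0.le (by positivity)]
      have b1 : C ^ (((m : ℝ) + 1 + 2) / 2) ≤ C ^ (2 * m) := by
        rw [← Real.rpow_natCast]
        apply Real.rpow_le_rpow_of_exponent_le hC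
        push_cast
        linarith
      have b2 : ((m : ℝ) + 1) ^ (((m : ℝ) + 1 + 2) / 2) = s ^ (m + 3) := by
        obtain ⟨e, he⟩ : ∃ e : ℝ, e = ((m : ℝ) + 1 + 2) / 2 := ⟨_, rfl⟩
        rw [← he, ← hs2, ← Real.rpow_natCast s 2, ← Real.rpow_mul hs0.le, ← Real.rpow_natCast]
        congr 1
        rw [he]
        push_cast
        ring
      rw [b2]
      gcongr
    have a2 : lam ^ (m + 1 + 2) = lam ^ 3 * (L ^ m * s ^ m * N) := by
      rw [show m + 1 + 2 = 3 + m by ring, pow_add]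
      congr 1
      rw [hlam, mul_pow, mul_pow, hνm]
    have a3 : ((m : ℝ) + 1) ≤ 2 ^ m := by
      have : m + 1 ≤ 2 ^ m := Nat.lt_two_pow_self
      exact_mod_cast this
    have a4 : 2 * (C ^ (2 * m) * ((m : ℝ) + 1)) ≤ k * L ^ m := by
      have c1 : C ^ (2 * m) * ((m : ℝ) + 1) ≤ (2 * C ^ 2) ^ m := by
        rw [mul_pow, ← pow_mul, mul_comm]
        gcongr
      have c2 : 2 * (2 * C ^ 2) ^ m ≤ k * L ^ m := by
        obtain ⟨j, rfl⟩ : ∃ j, m = j + 1 := ⟨m - 1, by omega⟩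
        rw [pow_succ, pow_succ]
        have d1 : (2 * C ^ 2) ^ j ≤ L ^ j := pow_le_pow_left₀ (by positivity) hLC j
        have d2 : 2 * (2 * C ^ 2) ≤ k * L := by nlinarith
        calc 2 * ((2 * C ^ 2) ^ j * (2 * C ^ 2)) = (2 * C ^ 2) ^ j * (2 * (2 * C ^ 2)) := by ring
          _ ≤ L ^ j * (k * L) := by gcongr
          _ = k * (L ^ j * L) := by ring
      linarith
    rw [a2, mul_div_assoc', mul_div_assoc', div_le_div_iff₀ (by positivity) hden]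
    have hM2 : s ≤ 2 * M := by linarith
    calc M * (C * ((m : ℝ) + 1)) ^ (((m : ℝ) + 1 + 2) / 2) * (N * lam ^ 3)
        ≤ M * (C ^ (2 * m) * s ^ (m + 3)) * (N * lam ^ 3) := by gcongr
      _ = M * s ^ m * N * lam ^ 3 * (C ^ (2 * m) * s ^ 2) * s := by ring
      _ ≤ M * s ^ m * N * lam ^ 3 * (C ^ (2 * m) * s ^ 2) * (2 * M) := by gcongr
      _ = M ^ 2 * s ^ m * N * lam ^ 3 * (2 * (C ^ (2 * m) * ((m : ℝ) + 1))) := by
          rw [hs2]; ring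
      _ ≤ M ^ 2 * s ^ m * N * lam ^ 3 * (k * L ^ m) := by gcongr
      _ = k * M ^ 2 * (lam ^ 3 * (L ^ m * s ^ m * N)) := by ring
  have hfin : κ / 2 * (M ^ 2 / (128 * N * lam ^ 3)) = 3 * (k * (M ^ 2 / (N * lam ^ 3))) := by
    rw [hk]
    field_simp
    ring
  rw [hfin, mul_add]
  linarith

end Pool.Agent.Helper47.ZC
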