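import Pool.Agent.Helper47.ZC.Sums
import Pool.Agent.Helper47.ZC.LowerNum

/-!
# The lower bound `N ≥ c n^{-3/2} ε^{-2(n-1)/(n+2)}`
-/

open MeasureTheory ProbabilityTheory
open scoped RealInnerProductSpace
open Pool.Agent.Helper24.Zono (cst wt dir)

namespace Pool.Agent.Helper47.ZC

theorem lower_bound : ∃ c : ℝ, 0 < c ∧ ∀ (n N : ℕ) (x : Fin N → EuclideanSpace ℝ (Fin n)) (ε : ℝ),
    2 ≤ n → 0 < ε → ε ≤ 1 / 2 → Approx ε x →
      c * (n : ℝ) ^ (-(3 / 2) : ℝ) * ε ^ (-(2 * ((n : ℝ) - 1) / ((n : ℝ) + 2))) ≤ N := by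
  obtain ⟨C, hC1, htest⟩ := test_ineq
  have hκ : 0 < cst⁻¹ := inv_pos.2 Pool.Agent.Helper24.Zono.cst_pos
  set κ := cst⁻¹ with hκdef
  obtain ⟨L, hL1, hnum⟩ := lower_num C κ hC1 hκ
  have hL0 : 0 < L := by linarith
  have hc0 : 0 < κ ^ 2 / (2048 * L ^ 3) := by positivity
  refine ⟨min 1 (κ ^ 2 / (2048 * L ^ 3)), lt_min one_pos hc0, ?_⟩
  intro n N x ε hn hε hε2 happ
  set c := min 1 (κ ^ 2 / (2048 * L ^ 3)) with hc
  have hcpos : 0 < c := lt_min one_pos hc0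
  have hc1 : c ≤ 1 := min_le_left _ _
  have hc2 : c ≤ κ ^ 2 / (2048 * L ^ 3) := min_le_right _ _
  have hn2 : (2 : ℝ) ≤ n := by exact_mod_cast hn
  have hsn : 1 ≤ Real.sqrt n := by
    rw [Real.one_le_sqrt]; linarith
  have hsn0 : 0 < Real.sqrt n := by linarith
  -- the mass
  have hMge : (1 - ε) * Real.sqrt n ≤ ∑ j, wt x j :=
    Pool.Agent.Helper24.Zono.W_ge x ε fun y => (happ y).1
  set M := ∑ j, wt x j with hM
  have hM2 : Real.sqrt n / 2 ≤ M := by nlinarith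
  have hMpos : 0 < M := by linarith
  have hN1 : 1 ≤ N := by
    rcases Nat.eq_zero_or_pos N with h0 | h0
    · subst h0
      rw [hM, Finset.univ_eq_empty, Finset.sum_empty] at hMpos
      exact absurd hMpos (lt_irrefl _)
    · exact h0
  have hN1' : (1 : ℝ) ≤ N := by exact_mod_cast hN1
  have hNpos : (0 : ℝ) < N := by linarith
  have hn1 : 0 < (n : ℝ) - 1 := by linarith
  have hn3 : 0 < (n : ℝ) + 2 := by linarith
  set ν := (N : ℝ) ^ (1 / ((n : ℝ) - 1)) with hν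
  have hν1 : 1 ≤ ν := Real.one_le_rpow hN1' (by positivity)
  set lam := L * Real.sqrt n * ν with hlam
  have hlam1 : 1 ≤ lam := by
    have h1 : 1 ≤ L * Real.sqrt n := by nlinarith
    nlinarith
  have hlam0 : 0 < lam := by linarith
  have h1 := Ssq_lower x lam hlam1
  rw [← hM] at h1
  have h2 := htest n N x ε (by omega) hε happ lam hlam1
  rw [← hM] at h2
  have h3 := hnum n N hn hN1 M hM2 lam hlam
  set Q := M ^ 2 / (128 * N * lam ^ 3) with hQ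
  have hQ0 : 0 < Q := by positivity
  set S := Ssq x lam with hS
  have hS0 : 0 < S := lt_of_lt_of_le hQ0 h1
  set r := Real.sqrt S with hr
  have hr0 : 0 < r := Real.sqrt_pos.2 hS0
  have hrr : r ^ 2 = S := Real.sq_sqrt hS0.le
  have h4 : κ / 2 * S ≤ ε * Real.sqrt n * r := by
    have h5 : κ / 2 * Q ≤ κ / 2 * S := mul_le_mul_of_nonneg_left h1 (by positivity)
    have h6 : κ * S - κ / 2 * Q ≤ ε * Real.sqrt n * r := by
      refine le_trans ?_ h2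
      have h7 : C * M ^ 2 * Real.exp (-(lam ^ 2 / 2))
        + M * ((C * n) ^ (((n : ℝ) + 2) / 2) / lam ^ (n + 2)
          + C * lam * Real.exp (-(lam ^ 2 / 4))) ≤ κ / 2 * Q := h3
      linarith
    linarith
  have h5 : κ / 2 * r ≤ ε * Real.sqrt n := by
    rw [← hrr] at h4
    have h6 : κ / 2 * r * r ≤ ε * Real.sqrt n * r := by nlinarith
    exact le_of_mul_le_mul_right h6 hr0
  have hsq : Real.sqrt n ^ 2 = n := Real.sq_sqrt (by linarith)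
  have h6 : κ ^ 2 * S ≤ 4 * ε ^ 2 * n := by
    have h7 : (κ / 2 * r) ^ 2 ≤ (ε * Real.sqrt n) ^ 2 :=
      pow_le_pow_left₀ (by positivity) h5 2
    rw [mul_pow, mul_pow, hsq, hrr] at h7
    nlinarith
  have h7 : κ ^ 2 * Q ≤ 4 * ε ^ 2 * n :=
    le_trans (mul_le_mul_of_nonneg_left h1 (by positivity)) h6
  have hMM : (n : ℝ) / 4 ≤ M ^ 2 := by
    have h8 : (Real.sqrt n / 2) ^ 2 ≤ M ^ 2 := pow_le_pow_left₀ (by positivity) hM2 2
    rw [div_pow, hsq] at h8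
    linarith
  have h8 : κ ^ 2 / (2048 * ε ^ 2) ≤ N * lam ^ 3 := by
    have h9 : κ ^ 2 * (n / 4) ≤ 4 * ε ^ 2 * n * (128 * N * lam ^ 3) := by
      have h10 : κ ^ 2 * M ^ 2 ≤ 4 * ε ^ 2 * n * (128 * N * lam ^ 3) := by
        have h11 : κ ^ 2 * Q = κ ^ 2 * M ^ 2 / (128 * N * lam ^ 3) := by
          rw [hQ, mul_div_assoc]
        rw [h11, div_le_iff₀ (by positivity)] at h7
        exact h7
      exact le_trans (mul_le_mul_of_nonneg_left hMM (by positivity)) h10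
    rw [div_le_iff₀ (by positivity)]
    have hn0 : (0 : ℝ) < n := by linarith
    have h12 : κ ^ 2 * n ≤ (N * lam ^ 3 * (2048 * ε ^ 2)) * n := by nlinarith
    exact le_of_mul_le_mul_right h12 hn0
  -- `N lam³ = L³ n^{3/2} N^{(n+2)/(n-1)}`
  have h9 : (N : ℝ) * lam ^ 3 = L ^ 3 * (n : ℝ) ^ (3 / 2 : ℝ) *
      (N : ℝ) ^ (((n : ℝ) + 2) / ((n : ℝ) - 1)) := by
    have ha : Real.sqrt n ^ 3 = (n : ℝ) ^ (3 / 2 : ℝ) := by
      rw [Real.sqrt_eq_rpow, ← Real.rpow_natCast, ← Real.rpow_mul (by linarith)]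
      norm_num
    have hb : (N : ℝ) * ν ^ 3 = (N : ℝ) ^ (((n : ℝ) + 2) / ((n : ℝ) - 1)) := by
      rw [hν, ← Real.rpow_natCast, ← Real.rpow_mul hNpos.le]
      nth_rewrite 1 [← Real.rpow_one (N : ℝ)]
      rw [← Real.rpow_add hNpos]
      congr 1
      push_cast
      field_simp
      ring
    rw [hlam, mul_pow, mul_pow, ha, ← hb]
    ring
  set A := (N : ℝ) ^ (((n : ℝ) + 2) / ((n : ℝ) - 1)) with hA
  have hA0 : 0 < A := Real.rpow_pos_of_pos hNpos _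
  set B := (n : ℝ) ^ (-(3 / 2) : ℝ) with hB
  have hn0 : (0 : ℝ) < n := by linarith
  have hB0 : 0 < B := Real.rpow_pos_of_pos hn0 _
  have hB1 : B ≤ 1 := Real.rpow_le_one_of_one_le_of_nonpos (by linarith) (by norm_num)
  have hBB : (n : ℝ) ^ (3 / 2 : ℝ) * B = 1 := by
    rw [hB, ← Real.rpow_add hn0]; norm_num
  have h10 : c * B * (ε ^ 2)⁻¹ ≤ A := by
    rw [h9] at h8
    have h11 : κ ^ 2 / (2048 * L ^ 3) * (ε ^ 2)⁻¹ ≤ (n : ℝ) ^ (3 / 2 : ℝ) * A := by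
      have h12 : κ ^ 2 / (2048 * L ^ 3) * (ε ^ 2)⁻¹ = κ ^ 2 / (2048 * ε ^ 2) / L ^ 3 := by
        field_simp
      rw [h12, div_le_iff₀ (by positivity)]
      calc κ ^ 2 / (2048 * ε ^ 2) ≤ L ^ 3 * (n : ℝ) ^ (3 / 2 : ℝ) * A := h8
        _ = (n : ℝ) ^ (3 / 2 : ℝ) * A * L ^ 3 := by ring
    have h13 : c * (ε ^ 2)⁻¹ ≤ (n : ℝ) ^ (3 / 2 : ℝ) * A :=
      le_trans (mul_le_mul_of_nonneg_right hc2 (by positivity)) h11
    calc c * B * (ε ^ 2)⁻¹ = (c * (ε ^ 2)⁻¹) * B := by ring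
      _ ≤ ((n : ℝ) ^ (3 / 2 : ℝ) * A) * B := mul_le_mul_of_nonneg_right h13 hB0.le
      _ = (n : ℝ) ^ (3 / 2 : ℝ) * B * A := by ring
      _ = A := by rw [hBB, one_mul]
  -- the power
  set θ := ((n : ℝ) - 1) / ((n : ℝ) + 2) with hθ
  have hθ0 : 0 ≤ θ := by positivity
  have hθ1 : θ ≤ 1 := by rw [hθ, div_le_one hn3]; linarith
  have hcB0 : 0 < c * B := by positivity
  have hcB1 : c * B ≤ 1 := by nlinarith
  have h11 : (c * B * (ε ^ 2)⁻¹) ^ θ ≤ A ^ θ :=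
    Real.rpow_le_rpow (by positivity) h10 hθ0
  have h12 : A ^ θ = N := by
    rw [hA, ← Real.rpow_mul hNpos.le, hθ]
    have h13 : ((n : ℝ) + 2) / ((n : ℝ) - 1) * (((n : ℝ) - 1) / ((n : ℝ) + 2)) = 1 := by
      field_simp
    rw [h13, Real.rpow_one]
  have h13 : (c * B * (ε ^ 2)⁻¹) ^ θ =
      (c * B) ^ θ * ε ^ (-(2 * ((n : ℝ) - 1) / ((n : ℝ) + 2))) := by
    rw [Real.mul_rpow hcB0.le (by positivity), Real.inv_rpow (by positivity),
      ← Real.rpow_natCast ε 2, ← Real.rpow_mul hε.le, ← Real.rpow_neg hε.le]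
    congr 2
    rw [hθ]
    push_cast
    ring
  have h14 : c * B ≤ (c * B) ^ θ := by
    nth_rewrite 1 [← Real.rpow_one (c * B)]
    exact Real.rpow_le_rpow_of_exponent_ge hcB0 hcB1 hθ1
  calc c * B * ε ^ (-(2 * ((n : ℝ) - 1) / ((n : ℝ) + 2)))
      ≤ (c * B) ^ θ * ε ^ (-(2 * ((n : ℝ) - 1) / ((n : ℝ) + 2))) :=
        mul_le_mul_of_nonneg_right h14 (Real.rpow_nonneg hε.le _)
    _ ≤ N := by rw [← h13, ← h12]; exact h11

end Pool.Agent.Helper47.ZC
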