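import Pool.Agent.Helper47.ZC.Upper1

/-!
# Upper bound, choice of `L`

Let `B = 1081344 n^{7/2} log(64 n²/ε)/ε²` (`≥ 1`), `θ = (n-1)/(n+2) ∈ (0,1)`. Choose `L` least with
`2^{L/θ} > B`; then `L ≥ 1` and `2^{L-1} ≤ B^θ` so `2^L ≤ 2 B^θ`. And
`log(64 n²/ε) ≤ C n log(1/ε)` for `ε ≤ 1/2` (`log (1/ε) ≥ log 2 ≥ 1/2`, `log (64 n²) ≤ 64 n`...),
`B^θ = (C n^{9/2} log(1/ε))^θ ε^{-2θ} ≤ C' n^{9/2} log(1/ε) ε^{-2θ}` (base made `≥ 1`: use
`2 log(1/ε) ≥ 1`). So `5 n² 2^L ≤ C n^{13/2} log(1/ε) ε^{-2θ}`.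
-/

namespace Pool.Agent.Helper47.ZC

theorem upper_bound : ∃ C : ℝ, 0 < C ∧ ∀ (n : ℕ) (ε : ℝ), 2 ≤ n → 0 < ε → ε ≤ 1 / 2 →
    ∃ (N : ℕ) (y : Fin N → EuclideanSpace ℝ (Fin n)), Approx ε y ∧
      (N : ℝ) ≤ C * (n : ℝ) ^ 7 * Real.log (1 / ε)
        * ε ^ (-(2 * ((n : ℝ) - 1) / ((n : ℝ) + 2))) := by
  refine ⟨110 * 1081344, by norm_num, ?_⟩
  intro n ε hn h0 h1
  have hn2 : (2 : ℝ) ≤ (n : ℝ) := by exact_mod_cast hn
  have hn1 : (1 : ℝ) ≤ (n : ℝ) := by linarith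
  have hnp : (0 : ℝ) < (n : ℝ) := by linarith
  -- logarithms
  have hl2 : (0.6931471803 : ℝ) < Real.log 2 := Real.log_two_gt_d9
  have hl2' : Real.log 2 < (0.6931471808 : ℝ) := Real.log_two_lt_d9
  have hell : Real.log 2 ≤ Real.log (1 / ε) := by
    refine Real.log_le_log (by norm_num) ?_
    rw [le_div_iff₀ h0]
    linarith
  set ℓ : ℝ := Real.log (1 / ε) with hℓ
  have hℓ2 : 1 / 2 ≤ ℓ := by linarith
  have hLg : Real.log (64 * (n : ℝ) ^ 2 / ε) = 6 * Real.log 2 + 2 * Real.log n + ℓ := by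
    have e1 : (64 : ℝ) * (n : ℝ) ^ 2 / ε = (2 : ℝ) ^ 6 * (n : ℝ) ^ 2 * (1 / ε) := by
      ring
    have h1e : (0 : ℝ) < 1 / ε := by positivity
    rw [e1, Real.log_mul (by positivity) h1e.ne', Real.log_mul (by positivity) (by positivity),
      Real.log_pow, Real.log_pow]
    push_cast
    ring
  have hlogn : Real.log (n : ℝ) ≤ (n : ℝ) := by
    have := Real.log_le_sub_one_of_pos hnp
    linarith
  have hlogn0 : 0 ≤ Real.log (n : ℝ) := Real.log_nonneg hn1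
  have hLg1 : 1 ≤ Real.log (64 * (n : ℝ) ^ 2 / ε) := by
    rw [hLg]
    linarith
  have hLg2 : Real.log (64 * (n : ℝ) ^ 2 / ε) ≤ 11 * (n : ℝ) * ℓ := by
    rw [hLg]
    have a1 : (n : ℝ) * (1 / 2) ≤ (n : ℝ) * ℓ := mul_le_mul_of_nonneg_left hℓ2 hnp.le
    have a2 : 1 * ℓ ≤ (n : ℝ) * ℓ := mul_le_mul_of_nonneg_right hn1 (by linarith)
    nlinarith
  -- the parameters
  have hn1' : (0 : ℝ) < (n : ℝ) - 1 := by linarith
  have hn2' : (0 : ℝ) < (n : ℝ) + 2 := by linarith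
  set θ : ℝ := ((n : ℝ) - 1) / ((n : ℝ) + 2) with hθ
  have hθ0 : 0 < θ := div_pos hn1' hn2'
  have hθ1 : θ ≤ 1 := by
    rw [hθ, div_le_one hn2']
    linarith
  have hnp72 : (1 : ℝ) ≤ (n : ℝ) ^ (7 / 2 : ℝ) := Real.one_le_rpow hn1 (by norm_num)
  have hnp72' : (n : ℝ) ^ (7 / 2 : ℝ) ≤ (n : ℝ) ^ 4 := by
    rw [← Real.rpow_natCast]
    exact Real.rpow_le_rpow_of_exponent_le hn1 (by norm_num)
  set Lg : ℝ := Real.log (64 * (n : ℝ) ^ 2 / ε) with hLgdef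
  set X : ℝ := 1081344 * (n : ℝ) ^ (7 / 2 : ℝ) * Lg with hX
  have hX1 : 1 ≤ X := by
    rw [hX]
    have : (1 : ℝ) ≤ (n : ℝ) ^ (7 / 2 : ℝ) * Lg := one_le_mul_of_one_le_of_one_le hnp72 hLg1
    nlinarith
  have hε2 : (1 : ℝ) ≤ 1 / ε ^ 2 := by
    rw [le_div_iff₀ (by positivity)]
    nlinarith
  set B : ℝ := X / ε ^ 2 with hB
  have hB1 : 1 ≤ B := by
    rw [hB, div_eq_mul_one_div]
    exact one_le_mul_of_one_le_of_one_le hX1 hε2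
  have hB0 : 0 < B := by linarith
  have hlb : 0 ≤ Real.logb 2 B := Real.logb_nonneg (by norm_num) hB1
  have hBpow : (2 : ℝ) ^ Real.logb 2 B = B :=
    Real.rpow_logb (by norm_num) (by norm_num) hB0
  set L : ℕ := ⌊θ * Real.logb 2 B⌋₊ + 1 with hL
  have hLgt : θ * Real.logb 2 B < (L : ℝ) := by
    rw [hL]
    push_cast
    exact Nat.lt_floor_add_one _
  have hLle : (L : ℝ) ≤ θ * Real.logb 2 B + 1 := by
    rw [hL]
    push_cast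
    have := Nat.floor_le (mul_nonneg hθ0.le hlb)
    linarith
  have key : B < (2 : ℝ) ^ ((L : ℝ) * (((n : ℝ) + 2) / ((n : ℝ) - 1))) := by
    have e1 : Real.logb 2 B < (L : ℝ) * (((n : ℝ) + 2) / ((n : ℝ) - 1)) := by
      have e2 : (((n : ℝ) + 2) / ((n : ℝ) - 1)) = θ⁻¹ := by
        rw [hθ, inv_div]
      rw [e2, ← div_eq_mul_inv, lt_div_iff₀ hθ0]
      linarith
    calc B = (2 : ℝ) ^ Real.logb 2 B := hBpow.symm
      _ < _ := Real.rpow_lt_rpow_of_exponent_lt (by norm_num) e1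
  obtain ⟨N, y, hy, hN⟩ := upper1 n L hn ε h0 h1 key
  refine ⟨N, y, hy, hN.trans ?_⟩
  have h2L : (2 : ℝ) ^ L ≤ 2 * B ^ θ := by
    rw [← Real.rpow_natCast]
    calc (2 : ℝ) ^ (L : ℝ) ≤ (2 : ℝ) ^ (θ * Real.logb 2 B + 1) :=
          Real.rpow_le_rpow_of_exponent_le (by norm_num) hLle
      _ = 2 * B ^ θ := by
          rw [Real.rpow_add (by norm_num), Real.rpow_one, mul_comm θ, Real.rpow_mul (by norm_num),
            hBpow]
          ring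
  have hBθ : B ^ θ = X ^ θ * ε ^ (-(2 * ((n : ℝ) - 1) / ((n : ℝ) + 2))) := by
    rw [hB, Real.div_rpow (by linarith) (by positivity), div_eq_mul_inv]
    congr 1
    rw [← Real.rpow_natCast, ← Real.rpow_mul h0.le, ← Real.rpow_neg h0.le]
    congr 1
    rw [hθ]
    push_cast
    ring
  have hY : X ≤ 11 * 1081344 * (n : ℝ) ^ 5 * ℓ := by
    calc X ≤ 1081344 * (n : ℝ) ^ 4 * (11 * (n : ℝ) * ℓ) := by
          rw [hX]
          refine mul_le_mul ?_ hLg2 (by linarith) (by positivity)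
          exact mul_le_mul_of_nonneg_left hnp72' (by norm_num)
      _ = 11 * 1081344 * (n : ℝ) ^ 5 * ℓ := by ring
  have hXθ : X ^ θ ≤ 11 * 1081344 * (n : ℝ) ^ 5 * ℓ := by
    calc X ^ θ ≤ X ^ (1 : ℝ) := Real.rpow_le_rpow_of_exponent_le hX1 hθ1
      _ = X := Real.rpow_one X
      _ ≤ _ := hY
  have hεp : 0 < ε ^ (-(2 * ((n : ℝ) - 1) / ((n : ℝ) + 2))) := Real.rpow_pos_of_pos h0 _
  calc 5 * (n : ℝ) ^ 2 * 2 ^ L ≤ 5 * (n : ℝ) ^ 2 * (2 * B ^ θ) :=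
        mul_le_mul_of_nonneg_left h2L (by positivity)
    _ = 10 * (n : ℝ) ^ 2 * (X ^ θ * ε ^ (-(2 * ((n : ℝ) - 1) / ((n : ℝ) + 2)))) := by
        rw [hBθ]
        ring
    _ ≤ 10 * (n : ℝ) ^ 2 * ((11 * 1081344 * (n : ℝ) ^ 5 * ℓ)
          * ε ^ (-(2 * ((n : ℝ) - 1) / ((n : ℝ) + 2)))) := by
        refine mul_le_mul_of_nonneg_left ?_ (by positivity)
        exact mul_le_mul_of_nonneg_right hXθ hεp.le
    _ = 110 * 1081344 * (n : ℝ) ^ 7 * ℓ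
          * ε ^ (-(2 * ((n : ℝ) - 1) / ((n : ℝ) + 2))) := by
        ring

end Pool.Agent.Helper47.ZC
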