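import Pool.Agent.Helper47.ZC.Lower
import Pool.Agent.Helper47.ZC.Upper

/-!
# The two-sided bound
-/

namespace Pool.Agent.Helper47.ZC

theorem two_sided : ∃ c C : ℝ, 0 < c ∧ 0 < C ∧ ∀ (n : ℕ) (ε : ℝ), 2 ≤ n → 0 < ε → ε ≤ 1 / 2 →
    (∀ (N : ℕ) (x : Fin N → EuclideanSpace ℝ (Fin n)), Approx ε x →
      c * (n : ℝ) ^ (-(3 / 2) : ℝ) * ε ^ (-(2 * ((n : ℝ) - 1) / ((n : ℝ) + 2))) ≤ N) ∧
    ∃ (N : ℕ) (x : Fin N → EuclideanSpace ℝ (Fin n)), Approx ε x ∧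
      (N : ℝ) ≤ C * (n : ℝ) ^ 7 * Real.log (1 / ε)
        * ε ^ (-(2 * ((n : ℝ) - 1) / ((n : ℝ) + 2))) := by
  obtain ⟨c, hc, h1⟩ := lower_bound
  obtain ⟨C, hC, h2⟩ := upper_bound
  exact ⟨c, C, hc, hC, fun n ε hn h0 he => ⟨fun N x hx => h1 n N x ε hn h0 he hx,
    h2 n ε hn h0 he⟩⟩

end Pool.Agent.Helper47.ZC
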