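import Mathlib

/-!
# A crude net

`τ = δ/n`. `X` = vectors `x` with all coordinates in `τ ℤ ∩ [-1-τ, 1]` and `1/2 ≤ ‖x‖ ≤ 2`; the
number of possible values of a coordinate is `≤ 2/τ + 3 = 2n/δ + 3 ≤ 4n/δ` (`δ ≤ 1/2`). For a unit
vector `y` take `x i = τ ⌊y i/τ⌋`: `|x i - y i| ≤ τ`, `‖x - y‖ ≤ √n τ ≤ δ ≤ 1/2`.
-/

namespace Pool.Agent.Helper47.ZC

theorem net (n : ℕ) (hn : 1 ≤ n) (δ : ℝ) (h0 : 0 < δ) (h1 : δ ≤ 1 / 2) :
    ∃ X : Finset (EuclideanSpace ℝ (Fin n)), X.Nonempty ∧ (X.card : ℝ) ≤ (4 * n / δ) ^ n ∧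
      (∀ x ∈ X, 1 / 2 ≤ ‖x‖ ∧ ‖x‖ ≤ 2) ∧
      ∀ y : EuclideanSpace ℝ (Fin n), ‖y‖ = 1 → ∃ x ∈ X, ‖x - y‖ ≤ δ := by
  classical
  have hn' : (1 : ℝ) ≤ n := by exact_mod_cast hn
  have hnpos : (0 : ℝ) < n := by linarith
  obtain ⟨τ, hτ⟩ : ∃ τ : ℝ, τ = δ / n := ⟨_, rfl⟩
  have hτ0 : 0 < τ := by rw [hτ]; positivity
  have hnτ : n * τ = δ := by rw [hτ]; field_simp
  obtain ⟨S, hS⟩ : ∃ S : Finset ℤ, S = Finset.Icc ⌊-1 / τ⌋ ⌊1 / τ⌋ := ⟨_, rfl⟩
  have hScard : (S.card : ℝ) ≤ 4 * n / δ := by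
    have e1 : (S.card : ℤ) = ⌊1 / τ⌋ + 1 - ⌊-1 / τ⌋ := by
      rw [hS, Int.card_Icc_of_le]
      have : ⌊-1 / τ⌋ ≤ ⌊1 / τ⌋ := by
        apply Int.floor_le_floor
        rw [div_le_div_iff_of_pos_right hτ0]
        norm_num
      linarith
    have e2 : (S.card : ℝ) = (⌊1 / τ⌋ : ℝ) + 1 - (⌊-1 / τ⌋ : ℝ) := by exact_mod_cast e1
    have e3 : (⌊1 / τ⌋ : ℝ) ≤ 1 / τ := Int.floor_le _
    have e4 : -1 / τ - 1 < (⌊-1 / τ⌋ : ℝ) := Int.sub_one_lt_floor _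
    have e5 : 1 / τ = n / δ := by rw [hτ]; field_simp
    have e6 : -1 / τ = -(n / δ) := by rw [← e5]; ring
    have e7 : 1 ≤ n / δ := by rw [le_div_iff₀ h0]; linarith
    have e8 : 4 * (n : ℝ) / δ = 4 * (n / δ) := by ring
    rw [e2, e8]
    rw [e5] at e3
    rw [e6] at e4 ⊢
    rw [e5]
    linarith
  obtain ⟨F, hF⟩ : ∃ F : (Fin n → ℤ) → EuclideanSpace ℝ (Fin n),
      F = fun k => WithLp.toLp 2 fun i => τ * (k i : ℝ) := ⟨_, rfl⟩
  have hFi : ∀ k i, F k i = τ * (k i : ℝ) := fun k i => by rw [hF]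
  obtain ⟨X, hX⟩ : ∃ X : Finset (EuclideanSpace ℝ (Fin n)),
      X = ((Fintype.piFinset fun _ : Fin n => S).image F).filter
        fun x => 1 / 2 ≤ ‖x‖ ∧ ‖x‖ ≤ 2 := ⟨_, rfl⟩
  have happ : ∀ y : EuclideanSpace ℝ (Fin n), ‖y‖ = 1 → ∃ x ∈ X, ‖x - y‖ ≤ δ := by
    intro y hy
    have hyi : ∀ i, |y i| ≤ 1 := by
      intro i
      have := PiLp.norm_apply_le y i
      rw [Real.norm_eq_abs, hy] at this
      exact this
    obtain ⟨k, hk⟩ : ∃ k : Fin n → ℤ, k = fun i => ⌊y i / τ⌋ := ⟨_, rfl⟩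
    have hkS : ∀ i, k i ∈ S := by
      intro i
      rw [hS, Finset.mem_Icc, hk]
      have h2 := abs_le.1 (hyi i)
      constructor
      · apply Int.floor_le_floor
        rw [div_le_div_iff_of_pos_right hτ0]
        exact h2.1
      · apply Int.floor_le_floor
        rw [div_le_div_iff_of_pos_right hτ0]
        exact h2.2
    have hd : ∀ i, |F k i - y i| ≤ τ := by
      intro i
      rw [hFi, hk]
      have e1 : (⌊y i / τ⌋ : ℝ) ≤ y i / τ := Int.floor_le _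
      have e2 : y i / τ < (⌊y i / τ⌋ : ℝ) + 1 := Int.lt_floor_add_one _
      have e3 : y i = τ * (y i / τ) := by field_simp
      rw [abs_le]
      constructor
      · nlinarith
      · nlinarith
    have hdist : ‖F k - y‖ ≤ δ := by
      have e1 : ‖F k - y‖ ^ 2 ≤ δ ^ 2 := by
        rw [EuclideanSpace.norm_sq_eq]
        have e2 : ∀ i ∈ (Finset.univ : Finset (Fin n)), ‖(F k - y) i‖ ^ 2 ≤ τ ^ 2 := by
          intro i _
          rw [Real.norm_eq_abs, PiLp.sub_apply]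
          exact pow_le_pow_left₀ (abs_nonneg _) (hd i) 2
        refine (Finset.sum_le_sum e2).trans ?_
        rw [Finset.sum_const, Finset.card_univ, Fintype.card_fin, nsmul_eq_mul, ← hnτ]
        nlinarith [mul_nonneg (sub_nonneg.2 hn') (mul_nonneg hnpos.le (sq_nonneg τ))]
      exact (pow_le_pow_iff_left₀ (norm_nonneg _) h0.le (by norm_num)).1 e1
    refine ⟨F k, ?_, hdist⟩
    rw [hX, Finset.mem_filter]
    refine ⟨Finset.mem_image_of_mem _ (Fintype.mem_piFinset.2 hkS), ?_, ?_⟩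
    · have := norm_sub_norm_le y (F k)
      rw [norm_sub_rev] at this
      linarith
    · have := norm_sub_norm_le (F k) y
      linarith
  refine ⟨X, ?_, ?_, ?_, happ⟩
  · obtain ⟨x, hx, -⟩ := happ (EuclideanSpace.single ⟨0, hn⟩ 1) (by simp)
    exact ⟨x, hx⟩
  · have e1 : X.card ≤ S.card ^ n := by
      rw [hX]
      refine (Finset.card_filter_le _ _).trans (Finset.card_image_le.trans ?_)
      rw [Fintype.card_piFinset, Finset.prod_const, Finset.card_univ, Fintype.card_fin]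
    have e2 : (X.card : ℝ) ≤ (S.card : ℝ) ^ n := by exact_mod_cast e1
    exact e2.trans (pow_le_pow_left₀ (Nat.cast_nonneg _) hScard n)
  · intro x hx
    rw [hX, Finset.mem_filter] at hx
    exact hx.2

end Pool.Agent.Helper47.ZC
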