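import Pool.Agent.Helper47.ZC.Defs

/-!
# The kernel `phi`
* `|phi| ≤ ∫_lam^{2lam} ds/s² = 1/(2 lam)`;
* continuity in `t` (e.g. `intervalIntegral.continuous_parametric_intervalIntegral_of_continuous`
  after replacing `s²` by a continuous function, or the estimate
  `|phi t - phi t'| ≤ C |t - t'|`, since `|cos(s t) - cos(s t')| ≤ s |t - t'|`);
* for `|t| ≤ 1/(4 lam)`, `s ≤ 2 lam`: `|s t| ≤ 1/2`, `cos (s t) ≥ 1 - 1/8 ≥ 1/2`, so
  `phi ≥ (1/2) (1/(2 lam))`;
* Fubini (`psi` integrable, `cos` bounded, `1/s²` bounded on `[lam, 2 lam]`).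
-/

open MeasureTheory ProbabilityTheory
open scoped RealInnerProductSpace

namespace Pool.Agent.Helper47.ZC

variable {lam : ℝ}

private theorem zphi_pos (hl : 0 < lam) {s : ℝ} (hs : s ∈ Set.uIcc lam (2 * lam)) :
    lam ≤ s ∧ s ≤ 2 * lam := by
  rw [Set.uIcc_of_le (by linarith)] at hs
  exact hs

private theorem zphi_ii (hl : 0 < lam) :
    IntervalIntegrable (fun s : ℝ => 1 / s ^ 2) volume lam (2 * lam) := by
  apply ContinuousOn.intervalIntegrable
  intro s hs
  have h := zphi_pos hl hs
  have hs0 : s ^ 2 ≠ 0 := by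
    have : 0 < s := by linarith [h.1]
    positivity
  exact (continuousAt_const.div (continuousAt_id.pow 2) hs0).continuousWithinAt

theorem integral_inv_sq (hl : 0 < lam) : ∫ s in lam..(2 * lam), 1 / s ^ 2 = 1 / (2 * lam) := by
  have h := intervalIntegral.integral_eq_sub_of_hasDerivAt (a := lam) (b := 2 * lam)
    (f := fun s : ℝ => -s⁻¹) (f' := fun s : ℝ => 1 / s ^ 2) (by
      intro s hs
      have h1 := zphi_pos hl hs
      have hs0 : s ≠ 0 := by
        have : 0 < s := by linarith [h1.1]
        exact this.ne'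
      have h2 := (hasDerivAt_inv hs0).neg
      have h3 : -(-(s ^ 2)⁻¹) = 1 / s ^ 2 := by
        rw [neg_neg, one_div]
      rw [h3] at h2
      exact h2) (zphi_ii hl)
  rw [h]
  have hl0 : lam ≠ 0 := hl.ne'
  field_simp
  norm_num

private theorem zphi_norm (s t : ℝ) : ‖Real.cos (s * t) / s ^ 2‖ ≤ 1 / s ^ 2 := by
  rw [norm_div, Real.norm_eq_abs, Real.norm_eq_abs, abs_of_nonneg (sq_nonneg s)]
  exact div_le_div_of_nonneg_right (Real.abs_cos_le_one _) (sq_nonneg s)

theorem abs_phi_le (hl : 0 < lam) (t : ℝ) : |phi lam t| ≤ 1 / (2 * lam) := by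
  rw [← integral_inv_sq hl]
  unfold phi
  have h := intervalIntegral.norm_integral_le_of_norm_le (μ := volume) (a := lam) (b := 2 * lam)
    (f := fun s => Real.cos (s * t) / s ^ 2) (g := fun s => 1 / s ^ 2) (by linarith)
    (Filter.Eventually.of_forall fun s _ => zphi_norm s t) (zphi_ii hl)
  rwa [Real.norm_eq_abs] at h

theorem continuous_phi (hl : 0 < lam) : Continuous (phi lam) := by
  unfold phi
  refine intervalIntegral.continuous_of_dominated_interval (bound := fun s => 1 / s ^ 2) ?_ ?_
    (zphi_ii hl) ?_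
  · intro t
    exact (((Real.continuous_cos.comp (continuous_id.mul continuous_const)).measurable).div
      (measurable_id.pow_const 2)).aestronglyMeasurable
  · intro t
    exact Filter.Eventually.of_forall fun s _ => zphi_norm s t
  · refine Filter.Eventually.of_forall fun s _ => ?_
    exact (Real.continuous_cos.comp (continuous_const.mul continuous_id)).div_const _

private theorem zphi_cosii (hl : 0 < lam) (t : ℝ) :
    IntervalIntegrable (fun s : ℝ => Real.cos (s * t) / s ^ 2) volume lam (2 * lam) := by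
  apply ContinuousOn.intervalIntegrable
  intro s hs
  have h := zphi_pos hl hs
  have hs0 : s ^ 2 ≠ 0 := by
    have : 0 < s := by linarith [h.1]
    positivity
  refine ContinuousAt.continuousWithinAt (ContinuousAt.div ?_ (continuousAt_id.pow 2) hs0)
  exact (Real.continuous_cos.comp (continuous_id.mul continuous_const)).continuousAt

theorem phi_lower (hl : 0 < lam) (t : ℝ) (ht : |t| ≤ 1 / (4 * lam)) :
    1 / (4 * lam) ≤ phi lam t := by
  have h1 : ∫ s in lam..(2 * lam), (1 / 2) * (1 / s ^ 2) = 1 / (4 * lam) := by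
    rw [intervalIntegral.integral_const_mul, integral_inv_sq hl]
    have hl0 : lam ≠ 0 := hl.ne'
    field_simp
    norm_num
  rw [← h1]
  unfold phi
  apply intervalIntegral.integral_mono_on (by linarith) ((zphi_ii hl).const_mul _)
    (zphi_cosii hl t)
  intro s hs
  have hs0 : 0 < s := by linarith [hs.1]
  have hst : |s * t| ≤ 1 / 2 := by
    rw [abs_mul, abs_of_pos hs0]
    calc s * |t| ≤ (2 * lam) * (1 / (4 * lam)) := by
          apply mul_le_mul hs.2 ht (abs_nonneg t) (by positivity)
      _ = 1 / 2 := by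
          have hl0 : lam ≠ 0 := hl.ne'
          field_simp
          norm_num
  have hcos : 1 / 2 ≤ Real.cos (s * t) := by
    have h2 := Real.one_sub_sq_div_two_le_cos (x := s * t)
    have h3 : (s * t) ^ 2 ≤ (1 / 2) ^ 2 := by
      rw [← sq_abs]
      exact pow_le_pow_left₀ (abs_nonneg _) hst 2
    nlinarith
  rw [← mul_one_div (Real.cos (s * t)) (s ^ 2)]
  exact mul_le_mul_of_nonneg_right hcos (by positivity)

private theorem zphi_int {Ω : Type*} [MeasurableSpace Ω] (μ : Measure Ω) [SFinite μ]
    (hl : 0 < lam) (ψ g : Ω → ℝ) (hψ : Integrable ψ μ) (hg : Measurable g) :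
    Integrable (fun p : Ω × ℝ => ψ p.1 * (Real.cos (p.2 * g p.1) / p.2 ^ 2))
      (μ.prod (volume.restrict (Set.Ioc lam (2 * lam)))) := by
  have h1 : Integrable (fun s : ℝ => 1 / s ^ 2) (volume.restrict (Set.Ioc lam (2 * lam))) := by
    have h := (intervalIntegrable_iff_integrableOn_Ioc_of_le (by linarith)).mp (zphi_ii hl)
    exact h
  have h2 := hψ.mul_prod h1
  refine h2.mono ?_ ?_
  · refine AEStronglyMeasurable.mul ?_ ?_
    · exact hψ.aestronglyMeasurable.comp_fst
    · have hm : Measurable (fun p : Ω × ℝ => Real.cos (p.2 * g p.1) / p.2 ^ 2) :=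
        (Real.measurable_cos.comp (measurable_snd.mul (hg.comp measurable_fst))).div
          (measurable_snd.pow_const 2)
      exact hm.aestronglyMeasurable
  · refine Filter.Eventually.of_forall fun p => ?_
    rw [norm_mul, norm_mul]
    refine mul_le_mul_of_nonneg_left ?_ (norm_nonneg _)
    have h3 := zphi_norm p.2 (g p.1)
    refine h3.trans ?_
    rw [Real.norm_eq_abs]
    exact le_abs_self _

/-- Fubini for `phi`. -/
theorem integral_mul_phi {Ω : Type*} [MeasurableSpace Ω] (μ : Measure Ω) [SFinite μ]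
    (hl : 0 < lam) (ψ g : Ω → ℝ) (hψ : Integrable ψ μ) (hg : Measurable g) :
    ∫ z, ψ z * phi lam (g z) ∂μ =
      ∫ s in lam..(2 * lam), (∫ z, ψ z * Real.cos (s * g z) ∂μ) / s ^ 2 := by
  have hle : lam ≤ 2 * lam := by linarith
  have hint := zphi_int μ hl ψ g hψ hg
  rw [intervalIntegral.integral_of_le hle]
  have h1 : ∀ z, ψ z * phi lam (g z) =
      ∫ s in Set.Ioc lam (2 * lam), ψ z * (Real.cos (s * g z) / s ^ 2) := by
    intro z
    unfold phi
    rw [intervalIntegral.integral_of_le hle, integral_const_mul]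
  simp_rw [h1]
  rw [integral_integral_swap hint]
  refine integral_congr_ae (Filter.Eventually.of_forall fun s => ?_)
  show ∫ z, ψ z * (Real.cos (s * g z) / s ^ 2) ∂μ = (∫ z, ψ z * Real.cos (s * g z) ∂μ) / s ^ 2
  rw [← integral_div]
  refine integral_congr_ae (Filter.Eventually.of_forall fun z => ?_)
  show ψ z * (Real.cos (s * g z) / s ^ 2) = ψ z * Real.cos (s * g z) / s ^ 2
  rw [mul_div_assoc]

/-- The inner integral in `integral_mul_phi` is continuous in `s`, hence interval integrable. -/
theorem intervalIntegrable_mul_phi {Ω : Type*} [MeasurableSpace Ω] (μ : Measure Ω) [SFinite μ]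
    (hl : 0 < lam) (ψ g : Ω → ℝ) (hψ : Integrable ψ μ) (hg : Measurable g) :
    IntervalIntegrable (fun s => (∫ z, ψ z * Real.cos (s * g z) ∂μ) / s ^ 2) volume
      lam (2 * lam) := by
  have hle : lam ≤ 2 * lam := by linarith
  have hint := zphi_int μ hl ψ g hψ hg
  rw [intervalIntegrable_iff_integrableOn_Ioc_of_le hle]
  have h2 := hint.integral_prod_right
  refine h2.congr (Filter.Eventually.of_forall fun s => ?_)
  show ∫ z, ψ z * (Real.cos (s * g z) / s ^ 2) ∂μ = (∫ z, ψ z * Real.cos (s * g z) ∂μ) / s ^ 2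
  rw [← integral_div]
  refine integral_congr_ae (Filter.Eventually.of_forall fun z => ?_)
  show ψ z * (Real.cos (s * g z) / s ^ 2) = ψ z * Real.cos (s * g z) / s ^ 2
  rw [mul_div_assoc]

end Pool.Agent.Helper47.ZC
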