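import Pool.Agent.Helper47.ZC.Defs

/-!
# A one-dimensional integral estimate

`J(x) = ∫_0^∞ ((1+r)^{-n/2} e^{-x/(1+r)} - e^{-x}) r^{-3/2} dr`, `n ≥ 1`, `x ≥ 1/2`. Claim:
`J(x) ≤ (C n)^{(n+2)/2} x^{-(n+1)/2} + C x e^{-x/2}` with an absolute constant `C`.

Proof. On `(0,1]`: `(1+r)^{-n/2} ≤ 1` and `e^{-x/(1+r)} - e^{-x} ≤ (x - x/(1+r)) e^{-x/(1+r)}
≤ x r e^{-x/2}`, so this part is `≤ x e^{-x/2} ∫_0^1 r^{-1/2} dr = 2 x e^{-x/2}`.
On `(1,∞)`: drop `-e^{-x}`, `r^{-3/2} ≤ 2^{3/2} (1+r)^{-3/2}`, so this part is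
`≤ 3 ∫_1^∞ (1+r)^{-(n+3)/2} e^{-x/(1+r)} dr`. Put `p = (n+2)/2`; `e^{-y} ≤ p^p y^{-p}` for `y > 0`
(`y^p e^{-y}` has maximum `(p/e)^p`). For `1 + r ≤ 1 + x` use it: integrand
`≤ p^p x^{-p} (1+r)^{-1/2}`, integral over `1 + r ≤ 1 + x` is `≤ 2 p^p x^{-p} (1+x)^{1/2}
≤ 4 p^p x^{-(n+1)/2}` (as `1 + x ≤ 3 x`). For `1 + r ≥ 1 + x` drop the exponential:
`∫ (1+r)^{-(n+3)/2} ≤ (2/(n+1)) x^{-(n+1)/2} ≤ x^{-(n+1)/2}`.
(Or: substitution `w = 1/(1+r)` and `Γ((n+1)/2) x^{-(n+1)/2}`.)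
Finally `3 (4 p^p + 1) ≤ (C n)^p` since `p ≤ 3 n / 2` and `p ≥ 1`.
`integrableOn_tail` : the integrand is `≤ C r^{-1/2}` on `(0,1]` in absolute value (also the lower
bound `(1+r)^{-n/2} e^{-x/(1+r)} - e^{-x} ≥ ((1+r)^{-n/2} - 1) e^{-x/(1+r)}≥ - n r`), `≤ r^{-3/2}` on `(1,∞)`.
-/

open MeasureTheory

namespace Pool.Agent.Helper47.ZC

/-- The integrand. -/
private noncomputable def FF (n : ℕ) (x r : ℝ) : ℝ :=
  ((1 + r) ^ (-(n : ℝ) / 2) * Real.exp (-(x / (1 + r))) - Real.exp (-x)) * r ^ (-(3 / 2) : ℝ)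

private lemma pow_le_one' (n : ℕ) (r : ℝ) (hr : 0 ≤ r) : (1 + r) ^ (-(n : ℝ) / 2) ≤ 1 := by
  apply Real.rpow_le_one_of_one_le_of_nonpos (by linarith)
  have : (0 : ℝ) ≤ n := Nat.cast_nonneg n
  linarith

private lemma exp_diff (a b : ℝ) : Real.exp (-a) - Real.exp (-b) ≤ (b - a) * Real.exp (-a) := by
  have h : Real.exp (-b) = Real.exp (-a) * Real.exp (-(b - a)) := by
    rw [← Real.exp_add]; ring_nf
  have h1 : -(b - a) + 1 ≤ Real.exp (-(b - a)) := Real.add_one_le_exp _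
  have h2 : 0 < Real.exp (-a) := Real.exp_pos _
  rw [h]
  nlinarith [mul_le_mul_of_nonneg_left h1 h2.le]

private lemma diff_le (x r : ℝ) (hx : 0 < x) (hr : 0 < r) :
    Real.exp (-(x / (1 + r))) - Real.exp (-x) ≤ x * r * Real.exp (-(x / (1 + r))) := by
  refine (exp_diff (x / (1 + r)) x).trans ?_
  apply mul_le_mul_of_nonneg_right _ (Real.exp_pos _).le
  have h1 : x - x / (1 + r) = x * r / (1 + r) := by field_simp; ring
  rw [h1]
  apply div_le_self (by positivity) (by linarith)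

private lemma bern (n : ℕ) (r : ℝ) (hr : 0 < r) : 1 - n * r ≤ (1 + r) ^ (-(n : ℝ) / 2) := by
  have h0 : (0 : ℝ) < 1 + r := by linarith
  rw [Real.rpow_def_of_pos h0]
  have h1 : Real.log (1 + r) ≤ r := by
    have := Real.log_le_sub_one_of_pos h0
    linarith
  have h2 := Real.add_one_le_exp (Real.log (1 + r) * (-(n : ℝ) / 2))
  have h3 : (0 : ℝ) ≤ n := Nat.cast_nonneg n
  have h4 : (0 : ℝ) ≤ Real.log (1 + r) := Real.log_nonneg (by linarith)
  nlinarith [mul_le_mul_of_nonneg_left h1 h3, mul_nonneg h3 hr.le]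

private lemma rpow_split (r : ℝ) (hr : 0 < r) : r * r ^ (-(3 / 2) : ℝ) = r ^ (-(1 / 2) : ℝ) := by
  have : r * r ^ (-(3 / 2) : ℝ) = r ^ (1 : ℝ) * r ^ (-(3 / 2) : ℝ) := by rw [Real.rpow_one]
  rw [this, ← Real.rpow_add hr]; norm_num

private lemma FF_le_small (n : ℕ) (x r : ℝ) (hx : 0 < x) (hr : 0 < r) (hr1 : r ≤ 1) :
    FF n x r ≤ x * Real.exp (-(x / 2)) * r ^ (-(1 / 2) : ℝ) := by
  unfold FF
  rw [← rpow_split r hr]
  have h1 : 0 ≤ r ^ (-(3 / 2) : ℝ) := (Real.rpow_pos_of_pos hr _).le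
  have h2 : Real.exp (-(x / (1 + r))) ≤ Real.exp (-(x / 2)) := by
    apply Real.exp_le_exp.mpr
    have : x / 2 ≤ x / (1 + r) := by
      apply div_le_div_of_nonneg_left hx.le (by linarith) (by linarith)
    linarith
  have h3 : (1 + r) ^ (-(n : ℝ) / 2) * Real.exp (-(x / (1 + r))) ≤ Real.exp (-(x / (1 + r))) := by
    have := mul_le_mul_of_nonneg_right (pow_le_one' n r hr.le) (Real.exp_pos (-(x / (1 + r)))).le
    linarith
  have h4 := diff_le x r hx hr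
  have h5 : x * r * Real.exp (-(x / (1 + r))) ≤ x * r * Real.exp (-(x / 2)) :=
    mul_le_mul_of_nonneg_left h2 (by positivity)
  have h6 : (1 + r) ^ (-(n : ℝ) / 2) * Real.exp (-(x / (1 + r))) - Real.exp (-x)
      ≤ x * r * Real.exp (-(x / 2)) := by linarith
  calc _ ≤ x * r * Real.exp (-(x / 2)) * r ^ (-(3 / 2) : ℝ) :=
        mul_le_mul_of_nonneg_right h6 h1
    _ = _ := by ring

private lemma FF_ge_small (n : ℕ) (x r : ℝ) (hx : 0 < x) (hr : 0 < r) :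
    -(n * r ^ (-(1 / 2) : ℝ)) ≤ FF n x r := by
  unfold FF
  rw [← rpow_split r hr]
  have h1 : 0 ≤ r ^ (-(3 / 2) : ℝ) := (Real.rpow_pos_of_pos hr _).le
  have h2 := bern n r hr
  have h3 : Real.exp (-x) ≤ Real.exp (-(x / (1 + r))) := by
    apply Real.exp_le_exp.mpr
    have : x / (1 + r) ≤ x := div_le_self hx.le (by linarith)
    linarith
  have h4 : Real.exp (-(x / (1 + r))) ≤ 1 := by
    rw [Real.exp_le_one_iff]
    have : 0 ≤ x / (1 + r) := by positivity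
    linarith
  have h4' : 0 < Real.exp (-(x / (1 + r))) := Real.exp_pos _
  have h5 : -(n * r) ≤ (1 + r) ^ (-(n : ℝ) / 2) * Real.exp (-(x / (1 + r))) - Real.exp (-x) := by
    have h6 : (1 - n * r) * Real.exp (-(x / (1 + r)))
        ≤ (1 + r) ^ (-(n : ℝ) / 2) * Real.exp (-(x / (1 + r))) :=
      mul_le_mul_of_nonneg_right h2 h4'.le
    have h7 : 0 ≤ (n : ℝ) * r := by positivity
    nlinarith [mul_le_mul_of_nonneg_left h4 h7]
  have := mul_le_mul_of_nonneg_right h5 h1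
  calc -(n * (r * r ^ (-(3 / 2) : ℝ))) = -(n * r) * r ^ (-(3 / 2) : ℝ) := by ring
    _ ≤ _ := this

private lemma FF_abs_large (n : ℕ) (x r : ℝ) (hx : 0 < x) (hr : 0 < r) :
    |FF n x r| ≤ r ^ (-(3 / 2) : ℝ) := by
  unfold FF
  have h1 : 0 ≤ r ^ (-(3 / 2) : ℝ) := (Real.rpow_pos_of_pos hr _).le
  rw [abs_mul, abs_of_nonneg h1]
  have h3 : (1 + r) ^ (-(n : ℝ) / 2) ≤ 1 := pow_le_one' n r hr.le
  have h3' : 0 ≤ (1 + r) ^ (-(n : ℝ) / 2) := (Real.rpow_pos_of_pos (by linarith) _).le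
  have h4 : Real.exp (-(x / (1 + r))) ≤ 1 := by
    rw [Real.exp_le_one_iff]
    have : 0 ≤ x / (1 + r) := by positivity
    linarith
  have h4' : 0 < Real.exp (-(x / (1 + r))) := Real.exp_pos _
  have h5 : Real.exp (-x) ≤ 1 := by
    rw [Real.exp_le_one_iff]; linarith
  have h5' : 0 < Real.exp (-x) := Real.exp_pos _
  have h6 : |(1 + r) ^ (-(n : ℝ) / 2) * Real.exp (-(x / (1 + r))) - Real.exp (-x)| ≤ 1 := by
    rw [abs_le]
    constructor
    · have := mul_nonneg h3' h4'.le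
      linarith
    · have : (1 + r) ^ (-(n : ℝ) / 2) * Real.exp (-(x / (1 + r))) ≤ 1 := mul_le_one₀ h3 h4'.le h4
      linarith
  calc _ ≤ 1 * r ^ (-(3 / 2) : ℝ) := mul_le_mul_of_nonneg_right h6 h1
    _ = _ := one_mul _

private lemma FF_cont (n : ℕ) (x : ℝ) : ContinuousOn (FF n x) (Set.Ioi 0) := by
  unfold FF
  apply ContinuousOn.mul
  · apply ContinuousOn.sub
    · apply ContinuousOn.mul
      · apply ContinuousOn.rpow_const (by fun_prop)
        intro r hr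
        left
        have : (0 : ℝ) < r := hr
        have h : (0 : ℝ) < 1 + r := by linarith
        exact h.ne'
      · apply Real.continuous_exp.comp_continuousOn
        apply ContinuousOn.neg
        apply ContinuousOn.div continuousOn_const (by fun_prop)
        intro r hr
        have : (0 : ℝ) < r := hr
        have h : (0 : ℝ) < 1 + r := by linarith
        exact h.ne'
    · exact continuousOn_const
  · apply ContinuousOn.rpow_const continuousOn_id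
    intro r hr
    left
    exact (show (0 : ℝ) < r from hr).ne'

private lemma int_half (a : ℝ) (ha : 0 ≤ a) :
    IntegrableOn (fun r : ℝ => r ^ (-(1 / 2) : ℝ)) (Set.Ioc 0 a) ∧
      ∫ r in Set.Ioc 0 a, r ^ (-(1 / 2) : ℝ) = 2 * a ^ (1 / 2 : ℝ) := by
  constructor
  · have h := intervalIntegral.intervalIntegrable_rpow' (a := 0) (b := a) (r := (-(1 / 2) : ℝ)) (by norm_num)
    exact (intervalIntegrable_iff_integrableOn_Ioc_of_le ha).mp h
  · rw [← intervalIntegral.integral_of_le ha, integral_rpow (Or.inl (by norm_num))]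
    rw [Real.zero_rpow (by norm_num)]
    norm_num
    ring

private lemma FF_int_small (n : ℕ) (x : ℝ) (hx : 0 < x) : IntegrableOn (FF n x) (Set.Ioc 0 1) := by
  have h := ((int_half 1 zero_le_one).1).const_mul (x + n)
  refine Integrable.mono' h ?_ ?_
  · exact ((FF_cont n x).mono Set.Ioc_subset_Ioi_self).aestronglyMeasurable measurableSet_Ioc
  · filter_upwards [ae_restrict_mem measurableSet_Ioc] with r hr
    obtain ⟨hr0, hr1⟩ := hr
    rw [Real.norm_eq_abs, abs_le]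
    have h0 : 0 ≤ r ^ (-(1 / 2) : ℝ) := (Real.rpow_pos_of_pos hr0 _).le
    have hn : (0 : ℝ) ≤ n := Nat.cast_nonneg n
    constructor
    · have := FF_ge_small n x r hx hr0
      have h2 : 0 ≤ x * r ^ (-(1 / 2) : ℝ) := mul_nonneg hx.le h0
      nlinarith
    · have := FF_le_small n x r hx hr0 hr1
      have h2 : Real.exp (-(x / 2)) ≤ 1 := by
        rw [Real.exp_le_one_iff]; linarith
      have h3 : 0 ≤ x * r ^ (-(1 / 2) : ℝ) := mul_nonneg hx.le h0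
      have h4 : 0 ≤ n * r ^ (-(1 / 2) : ℝ) := mul_nonneg hn h0
      nlinarith [mul_le_mul_of_nonneg_left h2 h3]

private lemma FF_int_large (n : ℕ) (x : ℝ) (hx : 0 < x) : IntegrableOn (FF n x) (Set.Ioi 1) := by
  have h := integrableOn_Ioi_rpow_of_lt (a := (-(3 / 2) : ℝ)) (by norm_num) (zero_lt_one (α := ℝ))
  refine Integrable.mono' h ?_ ?_
  · exact ((FF_cont n x).mono (Set.Ioi_subset_Ioi zero_le_one)).aestronglyMeasurable measurableSet_Ioi
  · filter_upwards [ae_restrict_mem measurableSet_Ioi] with r hr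
    have hr1 : (1 : ℝ) < r := hr
    exact FF_abs_large n x r hx (by linarith)

theorem integrableOn_tail (n : ℕ) (x : ℝ) (hx : 0 < x) :
    IntegrableOn (fun r : ℝ => ((1 + r) ^ (-(n : ℝ) / 2) * Real.exp (-(x / (1 + r)))
        - Real.exp (-x)) * r ^ (-(3 / 2) : ℝ)) (Set.Ioi 0) := by
  have h : IntegrableOn (FF n x) (Set.Ioc 0 1 ∪ Set.Ioi 1) :=
    (FF_int_small n x hx).union (FF_int_large n x hx)
  rw [Set.Ioc_union_Ioi_eq_Ioi zero_le_one] at h
  exact h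

/-- `y ^ p * exp (-y) ≤ p ^ p`. -/
private lemma exp_le_pow (p y : ℝ) (hp : 0 < p) (hy : 0 < y) :
    Real.exp (-y) ≤ p ^ p * y ^ (-p) := by
  have h1 : y / p ≤ Real.exp (y / p) := by
    have := Real.add_one_le_exp (y / p)
    linarith
  have h2 : (y / p) ^ p ≤ Real.exp (y / p) ^ p :=
    Real.rpow_le_rpow (by positivity) h1 hp.le
  rw [← Real.exp_mul, div_mul_cancel₀ y hp.ne', Real.div_rpow hy.le hp.le] at h2
  rw [Real.rpow_neg hy.le, Real.exp_neg]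
  have h3 : 0 < p ^ p := Real.rpow_pos_of_pos hp _
  have h4 : 0 < y ^ p := Real.rpow_pos_of_pos hy _
  have h5 : 0 < Real.exp y := Real.exp_pos y
  rw [div_le_iff₀ h3] at h2
  rw [← div_eq_mul_inv, inv_eq_one_div, div_le_div_iff₀ h5 h4]
  linarith

/-- The majorant on `(1, ∞)`. -/
private noncomputable def HH (n : ℕ) (x r : ℝ) : ℝ :=
  if r ≤ x then (((n : ℝ) + 2) / 2) ^ (((n : ℝ) + 2) / 2) * x ^ (-(((n : ℝ) + 2) / 2))
      * r ^ (-(1 / 2) : ℝ)
  else r ^ (-(((n : ℝ) + 3) / 2))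

private lemma FF_le_large (n : ℕ) (x r : ℝ) (hx : 0 < x) (hr : 1 < r) :
    FF n x r ≤ 3 * HH n x r := by
  have hr0 : 0 < r := by linarith
  have h1r : 0 < 1 + r := by linarith
  have hn : (0 : ℝ) ≤ n := Nat.cast_nonneg n
  -- first reduce
  have key : FF n x r ≤ 3 * ((1 + r) ^ (-(((n : ℝ) + 3) / 2)) * Real.exp (-(x / (1 + r)))) := by
    unfold FF
    have h3 : r ^ (-(3 / 2) : ℝ) ≤ 3 * (1 + r) ^ (-(3 / 2) : ℝ) := by
      rw [Real.rpow_neg hr0.le, Real.rpow_neg h1r.le]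
      have ha : (1 + r) ^ (3 / 2 : ℝ) ≤ (2 * r) ^ (3 / 2 : ℝ) :=
        Real.rpow_le_rpow h1r.le (by linarith) (by norm_num)
      rw [Real.mul_rpow (by norm_num) hr0.le] at ha
      have hb : (2 : ℝ) ^ (3 / 2 : ℝ) ≤ 3 := by
        have h9 : (2 : ℝ) ^ (3 / 2 : ℝ) = (8 : ℝ) ^ (1 / 2 : ℝ) := by
          rw [show (8 : ℝ) = (2 : ℝ) ^ (3 : ℝ) by norm_num, ← Real.rpow_mul (by norm_num)]
          norm_num
        rw [h9, ← Real.sqrt_eq_rpow]
        rw [Real.sqrt_le_left (by norm_num)]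
        norm_num
      have hc : 0 < r ^ (3 / 2 : ℝ) := Real.rpow_pos_of_pos hr0 _
      have hd : 0 < (1 + r) ^ (3 / 2 : ℝ) := Real.rpow_pos_of_pos h1r _
      rw [← div_eq_mul_inv, inv_eq_one_div, div_le_div_iff₀ hc hd]
      nlinarith [mul_le_mul_of_nonneg_right hb hc.le]
    have h4 : 0 ≤ r ^ (-(3 / 2) : ℝ) := (Real.rpow_pos_of_pos hr0 _).le
    have h5 : 0 ≤ (1 + r) ^ (-(n : ℝ) / 2) * Real.exp (-(x / (1 + r))) :=
      mul_nonneg (Real.rpow_pos_of_pos h1r _).le (Real.exp_pos _).le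
    have h6 : (1 + r) ^ (-(n : ℝ) / 2) * Real.exp (-(x / (1 + r))) - Real.exp (-x)
        ≤ (1 + r) ^ (-(n : ℝ) / 2) * Real.exp (-(x / (1 + r))) := by
      have := Real.exp_pos (-x)
      linarith
    have h7 : (1 + r) ^ (-(((n : ℝ) + 3) / 2)) = (1 + r) ^ (-(n : ℝ) / 2) * (1 + r) ^ (-(3 / 2) : ℝ) := by
      rw [← Real.rpow_add h1r]
      congr 1
      ring
    calc _ ≤ (1 + r) ^ (-(n : ℝ) / 2) * Real.exp (-(x / (1 + r))) * r ^ (-(3 / 2) : ℝ) :=
          mul_le_mul_of_nonneg_right h6 h4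
      _ ≤ (1 + r) ^ (-(n : ℝ) / 2) * Real.exp (-(x / (1 + r))) * (3 * (1 + r) ^ (-(3 / 2) : ℝ)) :=
          mul_le_mul_of_nonneg_left h3 h5
      _ = _ := by rw [h7]; ring
  refine key.trans (mul_le_mul_of_nonneg_left ?_ (by norm_num))
  unfold HH
  split_ifs with h
  · set p : ℝ := ((n : ℝ) + 2) / 2 with hp
    have hp0 : 0 < p := by rw [hp]; linarith
    have h1 := exp_le_pow p (x / (1 + r)) hp0 (by positivity)
    have h2 : (x / (1 + r)) ^ (-p) = x ^ (-p) * (1 + r) ^ p := by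
      rw [Real.div_rpow hx.le h1r.le, Real.rpow_neg h1r.le, div_inv_eq_mul]
    have h3 : 0 < (1 + r) ^ (-(((n : ℝ) + 3) / 2)) := Real.rpow_pos_of_pos h1r _
    have h4 : (1 + r) ^ (-(((n : ℝ) + 3) / 2)) * (1 + r) ^ p = (1 + r) ^ (-(1 / 2) : ℝ) := by
      rw [← Real.rpow_add h1r]
      congr 1
      rw [hp]; ring
    have h5 : (1 + r) ^ (-(1 / 2) : ℝ) ≤ r ^ (-(1 / 2) : ℝ) :=
      Real.rpow_le_rpow_of_nonpos hr0 (by linarith) (by norm_num)
    have h6 : 0 ≤ p ^ p * x ^ (-p) :=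
      mul_nonneg (Real.rpow_pos_of_pos hp0 _).le (Real.rpow_pos_of_pos hx _).le
    calc (1 + r) ^ (-(((n : ℝ) + 3) / 2)) * Real.exp (-(x / (1 + r)))
        ≤ (1 + r) ^ (-(((n : ℝ) + 3) / 2)) * (p ^ p * (x / (1 + r)) ^ (-p)) :=
          mul_le_mul_of_nonneg_left h1 h3.le
      _ = p ^ p * x ^ (-p) * ((1 + r) ^ (-(((n : ℝ) + 3) / 2)) * (1 + r) ^ p) := by
          rw [h2]; ring
      _ = p ^ p * x ^ (-p) * (1 + r) ^ (-(1 / 2) : ℝ) := by rw [h4]
      _ ≤ p ^ p * x ^ (-p) * r ^ (-(1 / 2) : ℝ) := mul_le_mul_of_nonneg_left h5 h6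
  · have h4 : Real.exp (-(x / (1 + r))) ≤ 1 := by
      rw [Real.exp_le_one_iff]
      have : 0 ≤ x / (1 + r) := by positivity
      linarith
    have h3 : 0 < (1 + r) ^ (-(((n : ℝ) + 3) / 2)) := Real.rpow_pos_of_pos h1r _
    have h5 : (1 + r) ^ (-(((n : ℝ) + 3) / 2)) ≤ r ^ (-(((n : ℝ) + 3) / 2)) :=
      Real.rpow_le_rpow_of_nonpos hr0 (by linarith) (by linarith)
    nlinarith [mul_le_mul_of_nonneg_left h4 h3.le]

private lemma HH_nonneg (n : ℕ) (x r : ℝ) (hx : 0 < x) (hr : 0 < r) : 0 ≤ HH n x r := by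
  unfold HH
  have hn : (0 : ℝ) ≤ n := Nat.cast_nonneg n
  split_ifs
  · have h1 : 0 < (((n : ℝ) + 2) / 2) ^ (((n : ℝ) + 2) / 2) :=
      Real.rpow_pos_of_pos (by linarith) _
    have h2 : 0 < x ^ (-(((n : ℝ) + 2) / 2)) := Real.rpow_pos_of_pos hx _
    have h3 : 0 < r ^ (-(1 / 2) : ℝ) := Real.rpow_pos_of_pos hr _
    positivity
  · exact (Real.rpow_pos_of_pos hr _).le

private lemma HH_int (n : ℕ) (x : ℝ) (hx : 0 < x) :
    IntegrableOn (HH n x) (Set.Ioi 0) ∧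
      ∫ r in Set.Ioi 0, HH n x r = (((n : ℝ) + 2) / 2) ^ (((n : ℝ) + 2) / 2)
        * x ^ (-(((n : ℝ) + 2) / 2)) * (2 * x ^ (1 / 2 : ℝ))
        + 2 / ((n : ℝ) + 1) * x ^ (-(((n : ℝ) + 1) / 2)) := by
  have hn : (0 : ℝ) ≤ n := Nat.cast_nonneg n
  have h1 := (int_half x hx.le).1.const_mul
    ((((n : ℝ) + 2) / 2) ^ (((n : ℝ) + 2) / 2) * x ^ (-(((n : ℝ) + 2) / 2)))
  have h2 := integrableOn_Ioi_rpow_of_lt (a := (-(((n : ℝ) + 3) / 2))) (by linarith) hx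
  have e1 : Set.EqOn (fun r : ℝ => (((n : ℝ) + 2) / 2) ^ (((n : ℝ) + 2) / 2)
      * x ^ (-(((n : ℝ) + 2) / 2)) * r ^ (-(1 / 2) : ℝ)) (HH n x) (Set.Ioc 0 x) := by
    intro r hr
    simp only [HH, if_pos hr.2]
  have e2 : Set.EqOn (fun r : ℝ => r ^ (-(((n : ℝ) + 3) / 2))) (HH n x) (Set.Ioi x) := by
    intro r hr
    have : ¬ r ≤ x := not_le.mpr hr
    simp only [HH, if_neg this]
  have i1 : IntegrableOn (HH n x) (Set.Ioc 0 x) := (integrableOn_congr_fun e1 measurableSet_Ioc).mp h1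
  have i2 : IntegrableOn (HH n x) (Set.Ioi x) := (integrableOn_congr_fun e2 measurableSet_Ioi).mp h2
  constructor
  · have := i1.union i2
    rwa [Set.Ioc_union_Ioi_eq_Ioi hx.le] at this
  · rw [← Set.Ioc_union_Ioi_eq_Ioi hx.le, setIntegral_union (Set.Ioc_disjoint_Ioi le_rfl)
      measurableSet_Ioi i1 i2]
    rw [← setIntegral_congr_fun measurableSet_Ioc e1, ← setIntegral_congr_fun measurableSet_Ioi e2]
    rw [integral_const_mul, (int_half x hx.le).2, integral_Ioi_rpow_of_lt (by linarith) hx]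
    congr 1
    have h5 : -(((n : ℝ) + 3) / 2) + 1 = -(((n : ℝ) + 1) / 2) := by ring
    rw [h5]
    have h6 : ((n : ℝ) + 1) ≠ 0 := by positivity
    field_simp

theorem tail_bound : ∃ C : ℝ, 1 ≤ C ∧ ∀ n : ℕ, 1 ≤ n → ∀ x : ℝ, 1 / 2 ≤ x →
    ∫ r in Set.Ioi (0 : ℝ), ((1 + r) ^ (-(n : ℝ) / 2) * Real.exp (-(x / (1 + r)))
        - Real.exp (-x)) * r ^ (-(3 / 2) : ℝ)
      ≤ (C * n) ^ (((n : ℝ) + 2) / 2) * x ^ (-(((n : ℝ) + 1) / 2)) + C * x * Real.exp (-(x / 2)) := by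
  refine ⟨14, by norm_num, ?_⟩
  intro n hn x hx
  have hx0 : 0 < x := by linarith
  have hn1 : (1 : ℝ) ≤ n := by exact_mod_cast hn
  change ∫ r in Set.Ioi (0 : ℝ), FF n x r ≤ _
  have hs := FF_int_small n x hx0
  have hl := FF_int_large n x hx0
  rw [← Set.Ioc_union_Ioi_eq_Ioi (zero_le_one (α := ℝ)),
    setIntegral_union (Set.Ioc_disjoint_Ioi le_rfl) measurableSet_Ioi hs hl]
  have b1 : ∫ r in Set.Ioc 0 1, FF n x r ≤ 2 * (x * Real.exp (-(x / 2))) := by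
    have h1 : ∫ r in Set.Ioc 0 1, FF n x r
        ≤ ∫ r in Set.Ioc 0 1, x * Real.exp (-(x / 2)) * r ^ (-(1 / 2) : ℝ) := by
      apply setIntegral_mono_on hs ((int_half 1 zero_le_one).1.const_mul _) measurableSet_Ioc
      intro r hr
      exact FF_le_small n x r hx0 hr.1 hr.2
    rw [integral_const_mul, (int_half 1 zero_le_one).2] at h1
    rw [Real.one_rpow] at h1
    linarith
  obtain ⟨iH, vH⟩ := HH_int n x hx0
  have b2 : ∫ r in Set.Ioi 1, FF n x r ≤ 3 * ∫ r in Set.Ioi 0, HH n x r := by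
    have h1 : ∫ r in Set.Ioi 1, FF n x r ≤ ∫ r in Set.Ioi 1, 3 * HH n x r := by
      apply setIntegral_mono_on hl ((iH.mono_set (Set.Ioi_subset_Ioi zero_le_one)).const_mul 3)
        measurableSet_Ioi
      intro r hr
      exact FF_le_large n x r hx0 hr
    have h2 : ∫ r in Set.Ioi 1, 3 * HH n x r ≤ ∫ r in Set.Ioi 0, 3 * HH n x r := by
      apply setIntegral_mono_set (iH.const_mul 3)
      · filter_upwards [ae_restrict_mem measurableSet_Ioi] with r hr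
        exact mul_nonneg (by norm_num) (HH_nonneg n x r hx0 hr)
      · exact (Set.Ioi_subset_Ioi zero_le_one).eventuallyLE
    rw [integral_const_mul] at h2
    rw [integral_const_mul] at h1 h2
    linarith
  rw [vH] at b2
  set p : ℝ := ((n : ℝ) + 2) / 2 with hp
  have hp1 : 1 ≤ p := by rw [hp]; linarith
  have e1 : p ^ p * x ^ (-p) * (2 * x ^ (1 / 2 : ℝ)) = 2 * p ^ p * x ^ (-(((n : ℝ) + 1) / 2)) := by
    have : x ^ (-(((n : ℝ) + 1) / 2)) = x ^ (-p) * x ^ (1 / 2 : ℝ) := by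
      rw [← Real.rpow_add hx0]
      congr 1
      rw [hp]; ring
    rw [this]; ring
  have hX : 0 < x ^ (-(((n : ℝ) + 1) / 2)) := Real.rpow_pos_of_pos hx0 _
  have h2n : 2 / ((n : ℝ) + 1) ≤ 1 := by
    rw [div_le_one (by linarith)]; linarith
  have hpp : 1 ≤ p ^ p := Real.one_le_rpow hp1 (by linarith)
  have h3 : 9 * p ^ p ≤ (14 * (n : ℝ)) ^ p := by
    have h4 : (9 : ℝ) ≤ 9 ^ p := by
      have := Real.rpow_le_rpow_of_exponent_le (x := (9 : ℝ)) (by norm_num) hp1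
      rwa [Real.rpow_one] at this
    have h5 : p ^ p ≤ (14 / 9 * (n : ℝ)) ^ p := by
      apply Real.rpow_le_rpow (by linarith) _ (by linarith)
      rw [hp]; linarith
    calc 9 * p ^ p ≤ 9 ^ p * (14 / 9 * (n : ℝ)) ^ p :=
          mul_le_mul h4 h5 (by linarith) (by positivity)
      _ = (14 * (n : ℝ)) ^ p := by
          rw [← Real.mul_rpow (by norm_num) (by positivity)]
          congr 1
          ring
  rw [e1] at b2
  have h6 : 3 * (2 * p ^ p * x ^ (-(((n : ℝ) + 1) / 2)) + 2 / ((n : ℝ) + 1) * x ^ (-(((n : ℝ) + 1) / 2)))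
      ≤ (14 * (n : ℝ)) ^ p * x ^ (-(((n : ℝ) + 1) / 2)) := by
    have h7 : 3 * (2 * p ^ p + 2 / ((n : ℝ) + 1)) ≤ (14 * (n : ℝ)) ^ p := by linarith
    have := mul_le_mul_of_nonneg_right h7 hX.le
    linarith
  have h8 : 0 ≤ x * Real.exp (-(x / 2)) := by positivity
  linarith

end Pool.Agent.Helper47.ZC
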