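import Pool.Agent.Helper47.ZC.Rep1
import Pool.Agent.Helper47.ZC.GExp
import Pool.Agent.Helper47.ZC.Tail
import Pool.Agent.Helper47.ZC.Cos
import Pool.Agent.Helper47.ZC.Phi

/-!
# The norm has almost no frequency `≥ lam`

`‖z‖ = C1⁻¹ ∫_0^∞ (1 - e^{-r‖z‖²/2}) r^{-3/2} dr` (`integral_rep`), so by Fubini (absolute value of
the integrand is `≤ (1 - e^{-r‖z‖²/2}) r^{-3/2}`, whose integral is `C1 E‖z‖`),
`integral_gexp_cos` and `integral_cos_inner`:
`-E‖z‖ cos(s⟨u,z⟩) = C1⁻¹ ∫_0^∞ ((1+r)^{-n/2} e^{-x/(1+r)} - e^{-x}) r^{-3/2} dr`, `x = s²/2 ≥ 1/2`.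
Apply `tail_bound`: `x^{-(n+1)/2} = 2^{(n+1)/2} s^{-(n+1)}`, constants into `C`
(`2^{(n+1)/2} ≤ 2^{(n+2)/2}`, `C1⁻¹ ≤ (1 + C1⁻¹)^{(n+2)/2}`).
Then `norm_phi`: integrate over `s ∈ [lam, 2lam]` against `ds/s²` (`integral_mul_phi`),
`∫ ds/s² = 1/(2lam) ≤ 1/lam`, `s^{-(n+1)} ≤ lam^{-(n+1)}`, `s² e^{-s²/4} ≤ 4 lam² e^{-lam²/4}`.
-/

open MeasureTheory ProbabilityTheory
open scoped RealInnerProductSpace

namespace Pool.Agent.Helper47.ZC

private lemma swap {n : ℕ} (u : EuclideanSpace ℝ (Fin n)) (hu : ‖u‖ = 1) (s : ℝ) :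
    C1 * -∫ z, ‖z‖ * Real.cos (s * ⟪u, z⟫) ∂(stdGaussian (EuclideanSpace ℝ (Fin n)))
      = ∫ r in Set.Ioi (0 : ℝ), ((1 + r) ^ (-(n : ℝ) / 2) * Real.exp (-(s ^ 2 / 2 / (1 + r)))
        - Real.exp (-(s ^ 2 / 2))) * r ^ (-(3 / 2) : ℝ) := by
  set F : EuclideanSpace ℝ (Fin n) → ℝ → ℝ := fun z r =>
    (1 - Real.exp (-(r * ‖z‖ ^ 2 / 2))) * r ^ (-(3 / 2) : ℝ) * Real.cos (s * ⟪u, z⟫) with hF
  have hmeas : Measurable (Function.uncurry F) := by
    have h1 : Measurable (fun p : EuclideanSpace ℝ (Fin n) × ℝ => Real.exp (-(p.2 * ‖p.1‖ ^ 2 / 2))) := by fun_prop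
    have h2 : Measurable (fun p : EuclideanSpace ℝ (Fin n) × ℝ => p.2 ^ (-(3 / 2) : ℝ)) :=
      measurable_snd.pow_const _
    have h3 : Measurable (fun p : EuclideanSpace ℝ (Fin n) × ℝ => Real.cos (s * ⟪u, p.1⟫)) := by
      refine Continuous.measurable ?_
      exact Real.continuous_cos.comp (continuous_const.mul (continuous_const.inner continuous_fst))
    exact ((measurable_const.sub h1).mul h2).mul h3
  have hI1 : ∀ z : EuclideanSpace ℝ (Fin n), ∫ r in Set.Ioi (0 : ℝ), F z r = C1 * ‖z‖ * Real.cos (s * ⟪u, z⟫) := by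
    intro z
    rw [hF]
    simp only
    rw [integral_mul_const, integral_rep, abs_norm]
  have hI2 : ∀ z : EuclideanSpace ℝ (Fin n), ∫ r in Set.Ioi (0 : ℝ), ‖F z r‖ = C1 * ‖z‖ * |Real.cos (s * ⟪u, z⟫)| := by
    intro z
    have h : ∀ r ∈ Set.Ioi (0 : ℝ), ‖F z r‖
        = (1 - Real.exp (-(r * ‖z‖ ^ 2 / 2))) * r ^ (-(3 / 2) : ℝ) * |Real.cos (s * ⟪u, z⟫)| := by
      intro r hr
      have h1 : 0 ≤ 1 - Real.exp (-(r * ‖z‖ ^ 2 / 2)) := by
        rw [sub_nonneg, Real.exp_le_one_iff]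
        have : 0 ≤ r * ‖z‖ ^ 2 / 2 := by
          have := (Set.mem_Ioi.mp hr).le
          positivity
        linarith
      have h2 : 0 ≤ r ^ (-(3 / 2) : ℝ) := Real.rpow_nonneg (Set.mem_Ioi.mp hr).le _
      rw [hF]
      simp only [norm_mul, Real.norm_eq_abs]
      rw [abs_of_nonneg h1, abs_of_nonneg h2]
    rw [setIntegral_congr_fun measurableSet_Ioi h, integral_mul_const, integral_rep, abs_norm]
  have hnorm : Integrable (fun z : EuclideanSpace ℝ (Fin n) => ‖z‖) (stdGaussian (EuclideanSpace ℝ (Fin n))) :=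
    (IsGaussian.integrable_id (μ := stdGaussian (EuclideanSpace ℝ (Fin n)))).norm
  have hcont : Continuous (fun z : EuclideanSpace ℝ (Fin n) => Real.cos (s * ⟪u, z⟫)) :=
    Real.continuous_cos.comp (continuous_const.mul (continuous_const.inner continuous_id))
  have hint : Integrable (Function.uncurry F)
      ((stdGaussian (EuclideanSpace ℝ (Fin n))).prod (volume.restrict (Set.Ioi (0 : ℝ)))) := by
    rw [integrable_prod_iff hmeas.aestronglyMeasurable]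
    refine ⟨Filter.Eventually.of_forall (fun z => ?_), ?_⟩
    · exact (integrableOn_rep ‖z‖).mul_const (Real.cos (s * ⟪u, z⟫))
    · refine (hnorm.const_mul C1).mono' ?_ (Filter.Eventually.of_forall (fun z => ?_))
      · exact (hmeas.norm.stronglyMeasurable.integral_prod_right (ν := volume.restrict (Set.Ioi (0 : ℝ)))).aestronglyMeasurable
      · have h := hI2 z
        show ‖∫ r in Set.Ioi (0 : ℝ), ‖F z r‖‖ ≤ C1 * ‖z‖
        rw [h, Real.norm_eq_abs, abs_mul, abs_abs,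
          abs_of_nonneg (mul_nonneg C1_pos.le (norm_nonneg z))]
        exact mul_le_of_le_one_right (mul_nonneg C1_pos.le (norm_nonneg z)) (Real.abs_cos_le_one _)
  have hswap := integral_integral_swap hint
  have hL : ∫ z, ∫ r in Set.Ioi (0 : ℝ), F z r ∂(volume) ∂(stdGaussian (EuclideanSpace ℝ (Fin n)))
      = C1 * ∫ z, ‖z‖ * Real.cos (s * ⟪u, z⟫) ∂(stdGaussian (EuclideanSpace ℝ (Fin n))) := by
    rw [← integral_const_mul]
    refine integral_congr_ae (Filter.Eventually.of_forall (fun z => ?_))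
    show ∫ r in Set.Ioi (0 : ℝ), F z r = _
    rw [hI1 z]
    ring
  have hcosi : Integrable (fun z : EuclideanSpace ℝ (Fin n) => Real.cos (s * ⟪u, z⟫)) (stdGaussian (EuclideanSpace ℝ (Fin n))) := by
    refine (integrable_const (1 : ℝ)).mono' hcont.aestronglyMeasurable
      (Filter.Eventually.of_forall (fun z => ?_))
    rw [Real.norm_eq_abs]
    exact Real.abs_cos_le_one _
  have hR : ∀ r ∈ Set.Ioi (0 : ℝ), ∫ z, F z r ∂(stdGaussian (EuclideanSpace ℝ (Fin n)))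
      = -(((1 + r) ^ (-(n : ℝ) / 2) * Real.exp (-(s ^ 2 / 2 / (1 + r)))
        - Real.exp (-(s ^ 2 / 2))) * r ^ (-(3 / 2) : ℝ)) := by
    intro r hr
    have hr0 : 0 ≤ r := (Set.mem_Ioi.mp hr).le
    have hgi : Integrable (fun z : EuclideanSpace ℝ (Fin n) => Real.exp (-(r * ‖z‖ ^ 2 / 2)) * Real.cos (s * ⟪u, z⟫))
        (stdGaussian (EuclideanSpace ℝ (Fin n))) := by
      refine (integrable_const (1 : ℝ)).mono' ?_ (Filter.Eventually.of_forall (fun z => ?_))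
      · have hc2 : Continuous (fun z : EuclideanSpace ℝ (Fin n) => Real.exp (-(r * ‖z‖ ^ 2 / 2))) := by fun_prop
        exact (hc2.mul hcont).aestronglyMeasurable
      · rw [Real.norm_eq_abs, abs_mul, abs_of_nonneg (Real.exp_pos _).le]
        have h1 : Real.exp (-(r * ‖z‖ ^ 2 / 2)) ≤ 1 := by
          rw [Real.exp_le_one_iff]
          have : 0 ≤ r * ‖z‖ ^ 2 / 2 := by positivity
          linarith
        exact mul_le_one₀ h1 (abs_nonneg _) (Real.abs_cos_le_one _)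
    have h1 : ∀ z : EuclideanSpace ℝ (Fin n), F z r = r ^ (-(3 / 2) : ℝ) * (Real.cos (s * ⟪u, z⟫)
        - Real.exp (-(r * ‖z‖ ^ 2 / 2)) * Real.cos (s * ⟪u, z⟫)) := by
      intro z
      rw [hF]
      ring
    rw [integral_congr_ae (Filter.Eventually.of_forall h1), integral_const_mul,
      integral_sub hcosi hgi, integral_gexp_cos u hu r s hr0, integral_cos_inner s u hu]
    have e1 : -s ^ 2 / 2 = -(s ^ 2 / 2) := by ring
    have e2 : s ^ 2 / (2 * (1 + r)) = s ^ 2 / 2 / (1 + r) := by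
      rw [div_div]
    rw [e1, e2]
    ring
  rw [hL] at hswap
  rw [mul_neg, hswap, setIntegral_congr_fun measurableSet_Ioi hR, integral_neg, neg_neg]

theorem norm_cos : ∃ C : ℝ, 1 ≤ C ∧ ∀ n : ℕ, 1 ≤ n → ∀ u : EuclideanSpace ℝ (Fin n), ‖u‖ = 1 →
    ∀ s : ℝ, 1 ≤ s →
      -∫ z, ‖z‖ * Real.cos (s * ⟪u, z⟫) ∂(stdGaussian (EuclideanSpace ℝ (Fin n)))
        ≤ (C * n) ^ (((n : ℝ) + 2) / 2) / s ^ (n + 1) + C * s ^ 2 * Real.exp (-(s ^ 2 / 4)) := by
  obtain ⟨C, hC1, hC⟩ := tail_bound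
  have hc1 : 0 < C1 := C1_pos
  have hci : 0 < C1⁻¹ := inv_pos.mpr hc1
  have hC0 : 0 < C := lt_of_lt_of_le one_pos hC1
  refine ⟨2 * (1 + C1⁻¹) * C, ?_, ?_⟩
  · nlinarith
  intro n hn u hu s hs
  have hs0 : 0 < s := lt_of_lt_of_le one_pos hs
  have hx : (1 : ℝ) / 2 ≤ s ^ 2 / 2 := by nlinarith
  have h1 := swap u hu s
  have h2 := hC n hn (s ^ 2 / 2) hx
  have hnR : (1 : ℝ) ≤ n := by exact_mod_cast hn
  have h3 : -∫ z, ‖z‖ * Real.cos (s * ⟪u, z⟫) ∂(stdGaussian (EuclideanSpace ℝ (Fin n)))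
      = C1⁻¹ * ∫ r in Set.Ioi (0 : ℝ), ((1 + r) ^ (-(n : ℝ) / 2) *
        Real.exp (-(s ^ 2 / 2 / (1 + r))) - Real.exp (-(s ^ 2 / 2))) * r ^ (-(3 / 2) : ℝ) := by
    rw [← h1, ← mul_assoc, inv_mul_cancel₀ hc1.ne', one_mul]
  rw [h3]
  have h4 := mul_le_mul_of_nonneg_left h2 hci.le
  refine h4.trans ?_
  rw [mul_add]
  have hp : (1 : ℝ) ≤ ((n : ℝ) + 2) / 2 := by linarith
  refine add_le_add ?_ ?_
  · have e1 : (s ^ 2 / 2) ^ (-(((n : ℝ) + 1) / 2)) = 2 ^ (((n : ℝ) + 1) / 2) / s ^ (n + 1) := by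
      rw [Real.rpow_neg (by positivity), Real.div_rpow (by positivity) (by norm_num),
        inv_div]
      congr 1
      rw [← Real.rpow_natCast s 2, ← Real.rpow_mul hs0.le, ← Real.rpow_natCast s (n + 1)]
      congr 1
      push_cast
      ring
    rw [e1]
    have e2 : (2 * (1 + C1⁻¹) * C * n) ^ (((n : ℝ) + 2) / 2)
        = 2 ^ (((n : ℝ) + 2) / 2) * (1 + C1⁻¹) ^ (((n : ℝ) + 2) / 2)
          * (C * n) ^ (((n : ℝ) + 2) / 2) := by
      have e3 : 2 * (1 + C1⁻¹) * C * n = 2 * (1 + C1⁻¹) * (C * n) := by ring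
      rw [e3, Real.mul_rpow (by positivity) (by positivity),
        Real.mul_rpow (by positivity) (by positivity)]
    rw [e2]
    have h5 : (2 : ℝ) ^ (((n : ℝ) + 1) / 2) ≤ 2 ^ (((n : ℝ) + 2) / 2) :=
      Real.rpow_le_rpow_of_exponent_le (by norm_num) (by linarith)
    have h6 : C1⁻¹ ≤ (1 + C1⁻¹) ^ (((n : ℝ) + 2) / 2) := by
      calc C1⁻¹ ≤ 1 + C1⁻¹ := by linarith
        _ = (1 + C1⁻¹) ^ (1 : ℝ) := (Real.rpow_one _).symm
        _ ≤ (1 + C1⁻¹) ^ (((n : ℝ) + 2) / 2) :=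
          Real.rpow_le_rpow_of_exponent_le (by linarith) hp
    have h7 : 0 < s ^ (n + 1) := by positivity
    have h8 : 0 ≤ (C * n) ^ (((n : ℝ) + 2) / 2) := by positivity
    have h9 : C1⁻¹ * ((2 : ℝ) ^ (((n : ℝ) + 1) / 2))
        ≤ (1 + C1⁻¹) ^ (((n : ℝ) + 2) / 2) * 2 ^ (((n : ℝ) + 2) / 2) :=
      mul_le_mul h6 h5 (by positivity) (by positivity)
    calc C1⁻¹ * ((C * n) ^ (((n : ℝ) + 2) / 2) * (2 ^ (((n : ℝ) + 1) / 2) / s ^ (n + 1)))
        = (C1⁻¹ * (2 : ℝ) ^ (((n : ℝ) + 1) / 2)) * (C * n) ^ (((n : ℝ) + 2) / 2) / s ^ (n + 1) := by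
          ring
      _ ≤ ((1 + C1⁻¹) ^ (((n : ℝ) + 2) / 2) * 2 ^ (((n : ℝ) + 2) / 2))
            * (C * n) ^ (((n : ℝ) + 2) / 2) / s ^ (n + 1) := by
          refine div_le_div_of_nonneg_right ?_ h7.le
          exact mul_le_mul_of_nonneg_right h9 h8
      _ = _ := by ring
  · have e1 : s ^ 2 / 2 / 2 = s ^ 2 / 4 := by ring
    rw [e1]
    have h5 : 0 ≤ s ^ 2 * Real.exp (-(s ^ 2 / 4)) := by positivity
    have h6 : C1⁻¹ * (C * (1 / 2)) ≤ 2 * (1 + C1⁻¹) * C := by nlinarith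
    calc C1⁻¹ * (C * (s ^ 2 / 2) * Real.exp (-(s ^ 2 / 4)))
        = (C1⁻¹ * (C * (1 / 2))) * (s ^ 2 * Real.exp (-(s ^ 2 / 4))) := by ring
      _ ≤ (2 * (1 + C1⁻¹) * C) * (s ^ 2 * Real.exp (-(s ^ 2 / 4))) :=
          mul_le_mul_of_nonneg_right h6 h5
      _ = _ := by ring

theorem norm_phi : ∃ C : ℝ, 1 ≤ C ∧ ∀ n : ℕ, 1 ≤ n → ∀ u : EuclideanSpace ℝ (Fin n), ‖u‖ = 1 →
    ∀ lam : ℝ, 1 ≤ lam →
      -∫ z, ‖z‖ * phi lam ⟪u, z⟫ ∂(stdGaussian (EuclideanSpace ℝ (Fin n)))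
        ≤ (C * n) ^ (((n : ℝ) + 2) / 2) / lam ^ (n + 2) + C * lam * Real.exp (-(lam ^ 2 / 4)) := by
  obtain ⟨C, hC1, hC⟩ := norm_cos
  have hC0 : 0 < C := lt_of_lt_of_le one_pos hC1
  refine ⟨2 * C, by linarith, ?_⟩
  intro n hn u hu lam hlam
  have hl0 : 0 < lam := lt_of_lt_of_le one_pos hlam
  have hnorm : Integrable (fun z : EuclideanSpace ℝ (Fin n) => ‖z‖)
      (stdGaussian (EuclideanSpace ℝ (Fin n))) :=
    (IsGaussian.integrable_id (μ := stdGaussian (EuclideanSpace ℝ (Fin n)))).norm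
  have hg : Measurable (fun z : EuclideanSpace ℝ (Fin n) => ⟪u, z⟫) := by fun_prop
  have h1 := integral_mul_phi (stdGaussian (EuclideanSpace ℝ (Fin n))) hl0
    (fun z => ‖z‖) (fun z => ⟪u, z⟫) hnorm hg
  have h2 := intervalIntegrable_mul_phi (stdGaussian (EuclideanSpace ℝ (Fin n))) hl0
    (fun z => ‖z‖) (fun z => ⟪u, z⟫) hnorm hg
  rw [h1, ← intervalIntegral.integral_neg]
  set A : ℝ := (C * n) ^ (((n : ℝ) + 2) / 2) / lam ^ (n + 1)
    + C * (4 * lam ^ 2) * Real.exp (-(lam ^ 2 / 4)) with hA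
  have h3 : ∫ s in lam..(2 * lam), -((∫ z, ‖z‖ * Real.cos (s * ⟪u, z⟫)
      ∂(stdGaussian (EuclideanSpace ℝ (Fin n)))) / s ^ 2)
      ≤ ∫ s in lam..(2 * lam), A * (1 / s ^ 2) := by
    refine intervalIntegral.integral_mono_on (by linarith) h2.neg ?_ ?_
    · refine ContinuousOn.intervalIntegrable ?_
      rw [Set.uIcc_of_le (by linarith)]
      intro s hs
      have hs0 : s ≠ 0 := (lt_of_lt_of_le hl0 hs.1).ne'
      refine ContinuousAt.continuousWithinAt ?_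
      have : ContinuousAt (fun s : ℝ => 1 / s ^ 2) s :=
        continuousAt_const.div (continuousAt_id.pow 2) (pow_ne_zero 2 hs0)
      exact continuousAt_const.mul this
    · intro s hs
      have hs1 : 1 ≤ s := hlam.trans hs.1
      have hs0 : 0 < s := lt_of_lt_of_le one_pos hs1
      have h4 := hC n hn u hu s hs1
      have h5 : (C * n) ^ (((n : ℝ) + 2) / 2) / s ^ (n + 1) + C * s ^ 2 * Real.exp (-(s ^ 2 / 4))
          ≤ A := by
        rw [hA]
        refine add_le_add ?_ ?_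
        · refine div_le_div_of_nonneg_left (by positivity) (by positivity) ?_
          exact pow_le_pow_left₀ hl0.le hs.1 _
        · have h6 : s ^ 2 ≤ 4 * lam ^ 2 := by nlinarith [hs.2]
          have h7 : Real.exp (-(s ^ 2 / 4)) ≤ Real.exp (-(lam ^ 2 / 4)) := by
            refine Real.exp_le_exp.mpr ?_
            nlinarith [hs.1]
          exact mul_le_mul (mul_le_mul_of_nonneg_left h6 hC0.le) h7 (Real.exp_pos _).le
            (by positivity)
      have h8 := h4.trans h5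
      rw [← neg_div, mul_one_div]
      exact div_le_div_of_nonneg_right h8 (by positivity)
  refine h3.trans ?_
  rw [intervalIntegral.integral_const_mul, integral_inv_sq hl0, hA, add_mul]
  refine add_le_add ?_ ?_
  · have h4 : (C * n) ^ (((n : ℝ) + 2) / 2) ≤ (2 * C * n) ^ (((n : ℝ) + 2) / 2) := by
      refine Real.rpow_le_rpow (by positivity) ?_ (by positivity)
      have : 0 ≤ C * n := by positivity
      nlinarith
    calc (C * n) ^ (((n : ℝ) + 2) / 2) / lam ^ (n + 1) * (1 / (2 * lam))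
        = (C * n) ^ (((n : ℝ) + 2) / 2) / lam ^ (n + 2) / 2 := by
          rw [pow_succ lam (n + 1)]
          field_simp
      _ ≤ (C * n) ^ (((n : ℝ) + 2) / 2) / lam ^ (n + 2) := by
          refine half_le_self ?_
          positivity
      _ ≤ _ := div_le_div_of_nonneg_right h4 (by positivity)
  · have e : C * (4 * lam ^ 2) * Real.exp (-(lam ^ 2 / 4)) * (1 / (2 * lam))
        = 2 * C * lam * Real.exp (-(lam ^ 2 / 4)) := by
      field_simp
      ring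
    rw [e]

end Pool.Agent.Helper47.ZC
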