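import Pool.Agent.Helper47.ZC.Pair0
import Pool.Agent.Helper47.ZC.Phi

/-!
# Pairing of `|⟨u,·⟩|` with `phi lam ⟨v,·⟩`

Integrate `pair0` over `b ∈ [lam, 2lam]` against `db/b²`.
`-∫ |⟨u,z⟩| phi lam ⟨v,z⟩ = ∫_lam^{2lam} (-∫ |⟨u,z⟩| cos (b⟨v,z⟩)) db/b²` (`integral_mul_phi`);
`∫ phi lam ⟨u,z⟩ phi lam ⟨v,z⟩ = ∫_lam^{2lam} (∫ phi lam ⟨u,z⟩ cos(b ⟨v,z⟩)) db/b²
 = ∫_b ∫_a (E cos(a⟨u,z⟩) cos(b⟨v,z⟩)) da/a² db/b²` (twice `integral_mul_phi`) and
`integral_cos_mul_cos`. The error is `(cst⁻¹+1) ∫_lam^{2lam} e^{-b²/2} db/b² ≤ (cst⁻¹+1) e^{-lam²/2}`.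
-/

open MeasureTheory ProbabilityTheory
open scoped RealInnerProductSpace
open Pool.Agent.Helper24.Zono (cst)

namespace Pool.Agent.Helper47.ZC

variable {E : Type*} [NormedAddCommGroup E] [InnerProductSpace ℝ E] [FiniteDimensional ℝ E]
  [MeasurableSpace E] [BorelSpace E]

omit [FiniteDimensional ℝ E] [MeasurableSpace E] [BorelSpace E] in
private theorem cont_inner (u : E) : Continuous (fun z : E => ⟪u, z⟫) := by fun_prop

private theorem int_phi (lam : ℝ) (hl : 0 < lam) (u : E) :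
    Integrable (fun z : E => phi lam ⟪u, z⟫) (stdGaussian E) := by
  refine Integrable.mono' (integrable_const (1 / (2 * lam))) ?_ ?_
  · exact ((continuous_phi hl).comp (cont_inner u)).aestronglyMeasurable
  · refine Filter.Eventually.of_forall fun z => ?_
    rw [Real.norm_eq_abs]
    exact abs_phi_le hl _

private theorem int_cos (b : ℝ) (v : E) :
    Integrable (fun z : E => Real.cos (b * ⟪v, z⟫)) (stdGaussian E) := by
  refine Integrable.mono' (integrable_const (1 : ℝ)) ?_ ?_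
  · exact (Real.continuous_cos.comp (continuous_const.mul (cont_inner v))).aestronglyMeasurable
  · refine Filter.Eventually.of_forall fun z => ?_
    rw [Real.norm_eq_abs]
    exact Real.abs_cos_le_one _

private theorem int_abs (u : E) : Integrable (fun z : E => |⟪u, z⟫|) (stdGaussian E) := by
  have h := Pool.Agent.Helper24.Zono.integrable_abs_inner u (0 : E)
  simpa using h

/-- the inner integral -/
private theorem inner_phi (lam : ℝ) (hl : 0 < lam) (b : ℝ) (u v : E) (hu : ‖u‖ = 1)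
    (hv : ‖v‖ = 1) :
    ∫ z, phi lam ⟪u, z⟫ * Real.cos (b * ⟪v, z⟫) ∂(stdGaussian E) =
      ∫ a in lam..(2 * lam),
        Real.exp (-(a ^ 2 + b ^ 2) / 2) * Real.cosh (a * b * ⟪u, v⟫) / a ^ 2 := by
  have h := integral_mul_phi (stdGaussian E) hl (fun z => Real.cos (b * ⟪v, z⟫))
    (fun z => ⟪u, z⟫) (int_cos b v) (cont_inner u).measurable
  have e1 : ∫ z, phi lam ⟪u, z⟫ * Real.cos (b * ⟪v, z⟫) ∂(stdGaussian E) =
      ∫ z, Real.cos (b * ⟪v, z⟫) * phi lam ⟪u, z⟫ ∂(stdGaussian E) := by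
    refine integral_congr_ae (Filter.Eventually.of_forall fun z => ?_)
    exact mul_comm _ _
  rw [e1, h]
  refine intervalIntegral.integral_congr fun a _ => ?_
  have e2 : ∫ z, Real.cos (b * ⟪v, z⟫) * Real.cos (a * ⟪u, z⟫) ∂(stdGaussian E) =
      Real.exp (-(a ^ 2 + b ^ 2) / 2) * Real.cosh (a * b * ⟪u, v⟫) := by
    rw [← integral_cos_mul_cos a b u v hu hv]
    refine integral_congr_ae (Filter.Eventually.of_forall fun z => ?_)
    exact mul_comm _ _
  show (∫ z, Real.cos (b * ⟪v, z⟫) * Real.cos (a * ⟪u, z⟫) ∂(stdGaussian E)) / a ^ 2 = _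
  rw [e2]

/-- the double integral formula -/
theorem integral_phi_phi (lam : ℝ) (hl : 0 < lam) (u v : E) (hu : ‖u‖ = 1) (hv : ‖v‖ = 1) :
    ∫ z, phi lam ⟪u, z⟫ * phi lam ⟪v, z⟫ ∂(stdGaussian E) =
      ∫ b in lam..(2 * lam), (∫ a in lam..(2 * lam),
        Real.exp (-(a ^ 2 + b ^ 2) / 2) * Real.cosh (a * b * ⟪u, v⟫) / a ^ 2) / b ^ 2 := by
  rw [integral_mul_phi (stdGaussian E) hl (fun z => phi lam ⟪u, z⟫) (fun z => ⟪v, z⟫)
    (int_phi lam hl u) (cont_inner v).measurable]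
  refine intervalIntegral.integral_congr fun b _ => ?_
  show (∫ z, phi lam ⟪u, z⟫ * Real.cos (b * ⟪v, z⟫) ∂(stdGaussian E)) / b ^ 2 = _
  rw [inner_phi lam hl b u v hu hv]

theorem phi_phi_nonneg (lam : ℝ) (hl : 0 < lam) (u v : E) (hu : ‖u‖ = 1) (hv : ‖v‖ = 1) :
    0 ≤ ∫ z, phi lam ⟪u, z⟫ * phi lam ⟪v, z⟫ ∂(stdGaussian E) := by
  rw [integral_phi_phi lam hl u v hu hv]
  refine intervalIntegral.integral_nonneg (by linarith) fun b _ => ?_
  refine div_nonneg ?_ (sq_nonneg b)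
  refine intervalIntegral.integral_nonneg (by linarith) fun a _ => ?_
  exact div_nonneg (mul_nonneg (Real.exp_pos _).le (Real.cosh_pos _).le) (sq_nonneg a)

theorem pair_lower (lam : ℝ) (hl : 1 ≤ lam) (u v : E) (hu : ‖u‖ = 1) (hv : ‖v‖ = 1) :
    cst⁻¹ * (∫ z, phi lam ⟪u, z⟫ * phi lam ⟪v, z⟫ ∂(stdGaussian E))
      - (cst⁻¹ + 1) * Real.exp (-lam ^ 2 / 2)
      ≤ -∫ z, |⟪u, z⟫| * phi lam ⟪v, z⟫ ∂(stdGaussian E) := by
  have hl0 : 0 < lam := by linarith
  have hle : lam ≤ 2 * lam := by linarith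
  have hc : 0 < cst := Pool.Agent.Helper24.Zono.cst_pos
  have hc1 : 0 ≤ cst⁻¹ + 1 := by positivity
  have iA := intervalIntegrable_mul_phi (stdGaussian E) hl0 (fun z => |⟪u, z⟫|)
    (fun z => ⟪v, z⟫) (int_abs u) (cont_inner v).measurable
  have iP := intervalIntegrable_mul_phi (stdGaussian E) hl0 (fun z => phi lam ⟪u, z⟫)
    (fun z => ⟪v, z⟫) (int_phi lam hl0 u) (cont_inner v).measurable
  have iE : IntervalIntegrable (fun b : ℝ => Real.exp (-b ^ 2 / 2) / b ^ 2) volume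
      lam (2 * lam) := by
    refine ContinuousOn.intervalIntegrable ?_
    rw [Set.uIcc_of_le hle]
    refine ContinuousOn.div (by fun_prop) (by fun_prop) ?_
    intro b hb
    have : 0 < b := lt_of_lt_of_le hl0 hb.1
    positivity
  rw [integral_mul_phi (stdGaussian E) hl0 (fun z => |⟪u, z⟫|) (fun z => ⟪v, z⟫)
    (int_abs u) (cont_inner v).measurable,
    integral_mul_phi (stdGaussian E) hl0 (fun z => phi lam ⟪u, z⟫) (fun z => ⟪v, z⟫)
    (int_phi lam hl0 u) (cont_inner v).measurable]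
  -- the error term
  have hE : ∫ b in lam..(2 * lam), Real.exp (-b ^ 2 / 2) / b ^ 2 ≤ Real.exp (-lam ^ 2 / 2) := by
    have i1 : IntervalIntegrable (fun b : ℝ => Real.exp (-lam ^ 2 / 2) * (1 / b ^ 2)) volume
        lam (2 * lam) := by
      refine ContinuousOn.intervalIntegrable ?_
      rw [Set.uIcc_of_le hle]
      refine ContinuousOn.mul (by fun_prop) (ContinuousOn.div (by fun_prop) (by fun_prop) ?_)
      intro b hb
      have : 0 < b := lt_of_lt_of_le hl0 hb.1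
      positivity
    have h1 : ∫ b in lam..(2 * lam), Real.exp (-b ^ 2 / 2) / b ^ 2 ≤
        ∫ b in lam..(2 * lam), Real.exp (-lam ^ 2 / 2) * (1 / b ^ 2) := by
      refine intervalIntegral.integral_mono_on hle iE i1 fun b hb => ?_
      have hb0 : 0 < b := lt_of_lt_of_le hl0 hb.1
      have hbb : lam ^ 2 ≤ b ^ 2 := pow_le_pow_left₀ hl0.le hb.1 2
      have h2 : Real.exp (-b ^ 2 / 2) ≤ Real.exp (-lam ^ 2 / 2) :=
        Real.exp_le_exp.mpr (by linarith)
      rw [div_eq_mul_one_div]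
      exact mul_le_mul_of_nonneg_right h2 (by positivity)
    rw [intervalIntegral.integral_const_mul, integral_inv_sq hl0] at h1
    refine h1.trans ?_
    have h3 : 1 / (2 * lam) ≤ 1 := by
      rw [div_le_one (by linarith)]
      linarith
    have h4 := mul_le_mul_of_nonneg_left h3 (Real.exp_pos (-lam ^ 2 / 2)).le
    linarith
  -- the pointwise inequality
  have hpt : ∀ b : ℝ, cst⁻¹ * ((∫ z, phi lam ⟪u, z⟫ * Real.cos (b * ⟪v, z⟫)
        ∂(stdGaussian E)) / b ^ 2) - (cst⁻¹ + 1) * (Real.exp (-b ^ 2 / 2) / b ^ 2) ≤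
      -((∫ z, |⟪u, z⟫| * Real.cos (b * ⟪v, z⟫) ∂(stdGaussian E)) / b ^ 2) := by
    intro b
    have h := pair0 lam b hl u v hu hv
    rw [← inner_phi lam hl0 b u v hu hv] at h
    have h2 := div_le_div_of_nonneg_right h (sq_nonneg b)
    calc _ = (cst⁻¹ * (∫ z, phi lam ⟪u, z⟫ * Real.cos (b * ⟪v, z⟫) ∂(stdGaussian E))
          - (cst⁻¹ + 1) * Real.exp (-b ^ 2 / 2)) / b ^ 2 := by ring
      _ ≤ _ := h2
      _ = _ := by ring
  have hm : ∫ b in lam..(2 * lam), (cst⁻¹ * ((∫ z, phi lam ⟪u, z⟫ * Real.cos (b * ⟪v, z⟫)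
        ∂(stdGaussian E)) / b ^ 2) - (cst⁻¹ + 1) * (Real.exp (-b ^ 2 / 2) / b ^ 2)) ≤
      ∫ b in lam..(2 * lam),
        -((∫ z, |⟪u, z⟫| * Real.cos (b * ⟪v, z⟫) ∂(stdGaussian E)) / b ^ 2) :=
    intervalIntegral.integral_mono_on hle ((iP.const_mul _).sub (iE.const_mul _)) iA.neg
      fun b _ => hpt b
  rw [intervalIntegral.integral_sub (iP.const_mul _) (iE.const_mul _),
    intervalIntegral.integral_const_mul, intervalIntegral.integral_const_mul,
    intervalIntegral.integral_neg] at hm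
  have h5 := mul_le_mul_of_nonneg_left hE hc1
  linarith

end Pool.Agent.Helper47.ZC
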