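import Pool.Agent.Helper47.ZC.Cos

/-!
# Lower bound for `-E |⟨u,z⟩| cos (b ⟨v,z⟩)`

Proof. By `ker_integral` (Helper24/Zono/Psi), `|s| = cst⁻¹ ∫_ℝ (1 - cos (ω s))/ω² dω`, and by
Fubini (integrability on the product exactly as in `Helper24.Zono.integral_abs_inner_add`, the
extra factor `cos (b ⟨v,z⟩)` is bounded by 1)
  `-E |⟨u,z⟩| cos (b⟨v,z⟩) = cst⁻¹ ∫_ℝ (E cos(ω⟨u,z⟩)cos(b⟨v,z⟩) - E cos(b⟨v,z⟩)) / ω² dω`
  `= cst⁻¹ ∫_ℝ (e^{-(ω²+b²)/2} cosh(ω b ρ) - e^{-b²/2}) / ω² dω`      (module `Cos`).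
For every `ω`: `e^{-(ω²+b²)/2} cosh(..) - e^{-b²/2}`
  `= e^{-(ω²+b²)/2} (cosh(..) - 1) + (e^{-(ω²+b²)/2} - e^{-b²/2})`
  `≥ 1_{[lam,2lam]}(ω) e^{-(ω²+b²)/2} cosh(..) - 1_{[lam,2lam]}(ω) e^{-b²/2}
       - e^{-b²/2} (1 - e^{-ω²/2})`.
`cst⁻¹ ∫_ℝ (1 - e^{-ω²/2})/ω² dω = Psi 0` and `Psi 0 = ∫ |⟨u,z⟩| dγ ≤ 1`
(`integral_abs_inner_add` with `y = 0`; `E|g| ≤ 1`, e.g. `Helper61.Zono.kap_le_one`), and
`∫_lam^{2lam} ds/s² = 1/(2lam) ≤ 1`.
-/

open MeasureTheory ProbabilityTheory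
open scoped RealInnerProductSpace
open Pool.Agent.Helper24.Zono (cst Psi)

namespace Pool.Agent.Helper47.ZC

variable {E : Type*} [NormedAddCommGroup E] [InnerProductSpace ℝ E] [FiniteDimensional ℝ E]
  [MeasurableSpace E] [BorelSpace E]

private lemma psi0_le (u : E) (hu : ‖u‖ = 1) : Psi 0 ≤ 1 := by
  have h1 := Pool.Agent.Helper24.Zono.integral_abs_inner_add u hu (0 : E)
  rw [inner_zero_right] at h1
  rw [← h1]
  have hm : MemLp (fun g : E => ⟪u, g⟫) 2 (stdGaussian E) :=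
    (IsGaussian.memLp_two_id (μ := stdGaussian E)).const_inner u
  have e2 : ∫ g : E, ⟪u, g⟫ ^ 2 ∂(stdGaussian E) = 1 := by
    have h3 := variance_dual_stdGaussian (innerSL ℝ u)
    have h4 := integral_strongDual_stdGaussian (innerSL ℝ u)
    have h5 : ⇑(innerSL ℝ u) = fun g : E => ⟪u, g⟫ := rfl
    rw [innerSL_apply_norm, hu, h5, variance_eq_sub hm] at h3
    rw [h5] at h4
    rw [h4] at h3
    simpa using h3
  have hq : Integrable (fun g : E => (1 + ⟪u, g⟫ ^ 2) / 2) (stdGaussian E) :=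
    ((integrable_const (1 : ℝ)).add hm.integrable_sq).div_const 2
  calc ∫ g, |⟪u, g + 0⟫| ∂(stdGaussian E) ≤ ∫ g, (1 + ⟪u, g⟫ ^ 2) / 2 ∂(stdGaussian E) := by
        refine integral_mono (Pool.Agent.Helper24.Zono.integrable_abs_inner u 0) hq fun g => ?_
        simp only [add_zero]
        have h6 := sq_abs (⟪u, g⟫ : ℝ)
        nlinarith [sq_nonneg (|(⟪u, g⟫ : ℝ)| - 1)]
    _ = 1 := by
        rw [integral_div, integral_add (integrable_const _) hm.integrable_sq, e2]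
        simp

/-- The integrand of the Fourier formula. -/
private noncomputable def Gf (b ρ ω : ℝ) : ℝ :=
  (Real.exp (-(ω ^ 2 + b ^ 2) / 2) * Real.cosh (ω * b * ρ) - Real.exp (-b ^ 2 / 2)) / ω ^ 2

private lemma four (b : ℝ) (u v : E) (hu : ‖u‖ = 1) (hv : ‖v‖ = 1) :
    Integrable (fun ω : ℝ => Gf b ⟪u, v⟫ ω) ∧
    -∫ z, |⟪u, z⟫| * Real.cos (b * ⟪v, z⟫) ∂(stdGaussian E) =
      cst⁻¹ * ∫ ω : ℝ, Gf b ⟪u, v⟫ ω := by
  have hc := Pool.Agent.Helper24.Zono.cst_pos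
  have hint : Integrable (fun q : E × ℝ =>
      (1 - Real.cos (q.2 * ⟪u, q.1⟫)) / q.2 ^ 2 * Real.cos (b * ⟪v, q.1⟫))
      ((stdGaussian E).prod volume) := by
    have hm : Measurable (fun q : E × ℝ =>
        (1 - Real.cos (q.2 * ⟪u, q.1⟫)) / q.2 ^ 2 * Real.cos (b * ⟪v, q.1⟫)) := by
      fun_prop
    have hm0 : Measurable (fun q : E × ℝ => (1 - Real.cos (q.2 * ⟪u, q.1⟫)) / q.2 ^ 2) := by
      fun_prop
    have hint0 : Integrable (fun q : E × ℝ => (1 - Real.cos (q.2 * ⟪u, q.1⟫)) / q.2 ^ 2)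
        ((stdGaussian E).prod volume) := by
      rw [integrable_prod_iff hm0.aestronglyMeasurable]
      constructor
      · refine Filter.Eventually.of_forall fun g => ?_
        have h2 := Pool.Agent.Helper24.Zono.ker_integrable ⟪u, g⟫
        exact h2
      · have : (fun g : E => ∫ ω : ℝ, ‖(1 - Real.cos (ω * ⟪u, g⟫)) / ω ^ 2‖) =
            fun g => |⟪u, g⟫| * cst := by
          funext g
          rw [← Pool.Agent.Helper24.Zono.ker_integral]
          refine integral_congr_ae (Filter.Eventually.of_forall fun ω => ?_)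
          exact Real.norm_of_nonneg (Pool.Agent.Helper24.Zono.ker_nonneg _ ω)
        have h3 : Integrable (fun g : E => ∫ ω : ℝ, ‖(1 - Real.cos (ω * ⟪u, g⟫)) / ω ^ 2‖)
            (stdGaussian E) := by
          rw [this]
          have h4 := Pool.Agent.Helper24.Zono.integrable_abs_inner u (0 : E)
          simp only [add_zero] at h4
          exact h4.mul_const _
        exact h3
    refine hint0.mono hm.aestronglyMeasurable (Filter.Eventually.of_forall fun q => ?_)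
    rw [norm_mul]
    have h5 : ‖Real.cos (b * ⟪v, q.1⟫)‖ ≤ 1 := by
      rw [Real.norm_eq_abs]
      exact Real.abs_cos_le_one _
    exact mul_le_of_le_one_right (norm_nonneg _) h5
  have hin : ∀ ω : ℝ, ∫ z, (1 - Real.cos (ω * ⟪u, z⟫)) / ω ^ 2 * Real.cos (b * ⟪v, z⟫)
      ∂(stdGaussian E) = -Gf b ⟪u, v⟫ ω := by
    intro ω
    have h1 : (fun z : E => (1 - Real.cos (ω * ⟪u, z⟫)) / ω ^ 2 * Real.cos (b * ⟪v, z⟫)) =
        fun z : E => (Real.cos (b * ⟪v, z⟫) -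
          Real.cos (ω * ⟪u, z⟫) * Real.cos (b * ⟪v, z⟫)) / ω ^ 2 := by
      funext z
      ring
    have hb : Integrable (fun z : E => Real.cos (b * ⟪v, z⟫)) (stdGaussian E) := by
      refine Integrable.mono' (integrable_const (1 : ℝ))
        (Measurable.aestronglyMeasurable (by fun_prop)) (Filter.Eventually.of_forall fun g => ?_)
      exact Real.abs_cos_le_one _
    rw [h1, integral_div, integral_sub hb (integrable_cos_mul_cos ω b u v),
      integral_cos_inner b v hv, integral_cos_mul_cos ω b u v hu hv]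
    unfold Gf
    ring
  constructor
  · have h2 := hint.integral_prod_right
    have h3 : (fun ω : ℝ => ∫ z, (1 - Real.cos (ω * ⟪u, z⟫)) / ω ^ 2 * Real.cos (b * ⟪v, z⟫)
      ∂(stdGaussian E)) = fun ω => -Gf b ⟪u, v⟫ ω := funext hin
    have h4 : Integrable (fun ω : ℝ => -Gf b ⟪u, v⟫ ω) := by
      rw [← h3]
      exact h2
    have h5 := h4.neg
    refine h5.congr (Filter.Eventually.of_forall fun ω => ?_)
    simp
  · have h1 : ∫ z, |⟪u, z⟫| * Real.cos (b * ⟪v, z⟫) ∂(stdGaussian E) = cst⁻¹ *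
        ∫ z, (∫ ω : ℝ, (1 - Real.cos (ω * ⟪u, z⟫)) / ω ^ 2 * Real.cos (b * ⟪v, z⟫))
          ∂(stdGaussian E) := by
      rw [← integral_const_mul]
      refine integral_congr_ae (Filter.Eventually.of_forall fun z => ?_)
      simp only
      rw [integral_mul_const, Pool.Agent.Helper24.Zono.ker_integral]
      field_simp
    rw [h1, integral_integral_swap hint]
    simp_rw [hin]
    rw [integral_neg]
    ring

theorem pair0 (lam b : ℝ) (hl : 1 ≤ lam) (u v : E) (hu : ‖u‖ = 1) (hv : ‖v‖ = 1) :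
    cst⁻¹ * (∫ a in lam..(2 * lam),
        Real.exp (-(a ^ 2 + b ^ 2) / 2) * Real.cosh (a * b * ⟪u, v⟫) / a ^ 2)
      - (cst⁻¹ + 1) * Real.exp (-b ^ 2 / 2)
      ≤ -∫ z, |⟪u, z⟫| * Real.cos (b * ⟪v, z⟫) ∂(stdGaussian E) := by
  have hc := Pool.Agent.Helper24.Zono.cst_pos
  obtain ⟨hGi, hG⟩ := four b u v hu hv
  rw [hG]
  set ρ : ℝ := ⟪u, v⟫ with hρ
  have hl0 : 0 < lam := by linarith
  have hle : lam ≤ 2 * lam := by linarith
  set S : Set ℝ := Set.Ioc lam (2 * lam) with hS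
  -- continuity on the interval
  have hne : ∀ x ∈ Set.Icc lam (2 * lam), x ^ 2 ≠ 0 := fun x hx =>
    pow_ne_zero 2 (by linarith [hx.1] : (0 : ℝ) < x).ne'
  have hP1 : ContinuousOn (fun a : ℝ => Real.exp (-(a ^ 2 + b ^ 2) / 2) *
      Real.cosh (a * b * ρ) / a ^ 2) (Set.Icc lam (2 * lam)) := by
    refine ContinuousOn.div ?_ ?_ hne
    · exact (by fun_prop : Continuous fun a : ℝ => Real.exp (-(a ^ 2 + b ^ 2) / 2) *
        Real.cosh (a * b * ρ)).continuousOn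
    · fun_prop
  have hP2 : ContinuousOn (fun a : ℝ => (1 : ℝ) / a ^ 2) (Set.Icc lam (2 * lam)) := by
    refine ContinuousOn.div ?_ ?_ hne
    · fun_prop
    · fun_prop
  have hI1 : IntegrableOn (fun a : ℝ => Real.exp (-(a ^ 2 + b ^ 2) / 2) *
      Real.cosh (a * b * ρ) / a ^ 2) S :=
    (hP1.integrableOn_Icc).mono_set Set.Ioc_subset_Icc_self
  have hI2 : IntegrableOn (fun a : ℝ => (1 : ℝ) / a ^ 2) S :=
    (hP2.integrableOn_Icc).mono_set Set.Ioc_subset_Icc_self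
  have hI3 := Pool.Agent.Helper24.Zono.integrable_Psi 0
  have hA1 : Integrable (S.indicator fun a : ℝ => Real.exp (-(a ^ 2 + b ^ 2) / 2) *
      Real.cosh (a * b * ρ) / a ^ 2) := (integrable_indicator_iff measurableSet_Ioc).2 hI1
  have hA2 : Integrable (S.indicator fun a : ℝ => (1 : ℝ) / a ^ 2) :=
    (integrable_indicator_iff measurableSet_Ioc).2 hI2
  set e0 : ℝ := Real.exp (-b ^ 2 / 2) with he0
  have he0p : 0 < e0 := Real.exp_pos _
  have hmono : ∫ ω : ℝ, ((S.indicator (fun a : ℝ => Real.exp (-(a ^ 2 + b ^ 2) / 2) *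
      Real.cosh (a * b * ρ) / a ^ 2) ω - e0 * S.indicator (fun a : ℝ => (1 : ℝ) / a ^ 2) ω) -
      e0 * ((1 - Real.exp (-ω ^ 2 / 2) * Real.cos (ω * 0)) / ω ^ 2)) ≤
      ∫ ω : ℝ, Gf b ρ ω := by
    refine integral_mono ((hA1.sub (hA2.const_mul e0)).sub (hI3.const_mul e0)) hGi fun ω => ?_
    simp only [mul_zero, Real.cos_zero, mul_one]
    have hsp : Real.exp (-(ω ^ 2 + b ^ 2) / 2) = e0 * Real.exp (-ω ^ 2 / 2) := by
      rw [he0, ← Real.exp_add]
      congr 1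
      ring
    have hx1 : Real.exp (-ω ^ 2 / 2) ≤ 1 := Real.exp_le_one_iff.2 (by nlinarith [sq_nonneg ω])
    have hx0 : 0 < Real.exp (-ω ^ 2 / 2) := Real.exp_pos _
    have hch : 1 ≤ Real.cosh (ω * b * ρ) := Real.one_le_cosh _
    have hw : 0 ≤ ω ^ 2 := sq_nonneg ω
    unfold Gf
    by_cases hω : ω ∈ S
    · rw [Set.indicator_of_mem hω, Set.indicator_of_mem hω]
      have h7 : 0 ≤ e0 * ((1 - Real.exp (-ω ^ 2 / 2)) / ω ^ 2) :=
        mul_nonneg he0p.le (div_nonneg (by linarith) hw)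
      have h8 : (Real.exp (-(ω ^ 2 + b ^ 2) / 2) * Real.cosh (ω * b * ρ) - e0) / ω ^ 2 =
          Real.exp (-(ω ^ 2 + b ^ 2) / 2) * Real.cosh (ω * b * ρ) / ω ^ 2 - e0 * (1 / ω ^ 2) := by
        ring
      rw [← he0, h8]
      linarith
    · rw [Set.indicator_of_notMem hω, Set.indicator_of_notMem hω]
      rw [← he0, mul_zero, sub_zero, zero_sub, ← mul_div_assoc, ← neg_div]
      refine div_le_div_of_nonneg_right ?_ hw
      rw [hsp]
      have h9 : e0 * Real.exp (-ω ^ 2 / 2) * 1 ≤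
          e0 * Real.exp (-ω ^ 2 / 2) * Real.cosh (ω * b * ρ) :=
        mul_le_mul_of_nonneg_left hch (mul_pos he0p hx0).le
      nlinarith
  have hA12 : Integrable (fun ω : ℝ => S.indicator (fun a : ℝ =>
      Real.exp (-(a ^ 2 + b ^ 2) / 2) * Real.cosh (a * b * ρ) / a ^ 2) ω -
      e0 * S.indicator (fun a : ℝ => (1 : ℝ) / a ^ 2) ω) := hA1.sub (hA2.const_mul e0)
  rw [integral_sub hA12 (hI3.const_mul e0),
    integral_sub hA1 (hA2.const_mul e0), integral_const_mul, integral_const_mul,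
    integral_indicator measurableSet_Ioc, integral_indicator measurableSet_Ioc] at hmono
  have hpsi := psi0_le u hu
  unfold Psi at hpsi
  have hinv : ∫ a in S, (1 : ℝ) / a ^ 2 ≤ 1 := by
    have h10 : ∫ a in S, (1 : ℝ) / a ^ 2 ≤ ∫ a in S, (1 : ℝ) / lam ^ 2 := by
      refine setIntegral_mono_on hI2 (integrable_const _) measurableSet_Ioc fun x hx => ?_
      have h11 : lam < x := hx.1
      exact one_div_le_one_div_of_le (by positivity) (by nlinarith)
    have h12 : ∫ a in S, (1 : ℝ) / lam ^ 2 = 1 / lam := by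
      rw [setIntegral_const, hS, Real.volume_real_Ioc_of_le hle]
      simp only [smul_eq_mul]
      field_simp
      ring
    rw [h12] at h10
    refine h10.trans ?_
    rw [div_le_one hl0]
    exact hl
  have hint1 : ∫ a in lam..(2 * lam), Real.exp (-(a ^ 2 + b ^ 2) / 2) *
      Real.cosh (a * b * ρ) / a ^ 2 = ∫ a in S, Real.exp (-(a ^ 2 + b ^ 2) / 2) *
      Real.cosh (a * b * ρ) / a ^ 2 := intervalIntegral.integral_of_le hle
  rw [hint1]
  have hci : 0 < cst⁻¹ := inv_pos.2 hc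
  set X : ℝ := ∫ a in S, Real.exp (-(a ^ 2 + b ^ 2) / 2) * Real.cosh (a * b * ρ) / a ^ 2
    with hX
  set Y : ℝ := ∫ a in S, (1 : ℝ) / a ^ 2 with hY
  set Z : ℝ := ∫ ω : ℝ, (1 - Real.exp (-ω ^ 2 / 2) * Real.cos (ω * 0)) / ω ^ 2 with hZ
  have h13 : cst⁻¹ * (X - e0 * Y - e0 * Z) ≤ cst⁻¹ * ∫ ω : ℝ, Gf b ρ ω :=
    mul_le_mul_of_nonneg_left hmono hci.le
  have h14 : cst⁻¹ * (e0 * Y) ≤ cst⁻¹ * (e0 * 1) :=
    mul_le_mul_of_nonneg_left (mul_le_mul_of_nonneg_left hinv he0p.le) hci.le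
  have h15 : e0 * (cst⁻¹ * Z) ≤ e0 * 1 := mul_le_mul_of_nonneg_left hpsi he0p.le
  calc cst⁻¹ * X - (cst⁻¹ + 1) * e0 ≤ cst⁻¹ * (X - e0 * Y - e0 * Z) := by
        nlinarith
    _ ≤ _ := h13


end Pool.Agent.Helper47.ZC
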