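import Pool.Agent.Helper47.ZC.Phi

/-!
# Lower bound for `E phi(g)²`
`phi ≥ 1/(4 lam)` on `|t| ≤ 1/(4 lam)` (`phi_lower`), and a standard normal variable is there with
probability `≥ (1/(2 lam)) e^{-1/32}/√(2π) ≥ 1/(8 lam)` (density of `gaussianReal 0 1` bounded
below by `1/4` on `[-1/4,1/4]`). So `E phi² ≥ 1/(16 lam²) * 1/(8 lam)`.
Reduce to dimension one with `Helper61.Zono.integral_inner`.
-/

open MeasureTheory ProbabilityTheory
open scoped RealInnerProductSpace

namespace Pool.Agent.Helper47.ZC

variable {E : Type*} [NormedAddCommGroup E] [InnerProductSpace ℝ E] [FiniteDimensional ℝ E]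
  [MeasurableSpace E] [BorelSpace E]

private lemma pdf_lower (x : ℝ) (hx : |x| ≤ 1 / 4) : 1 / 4 ≤ gaussianPDFReal 0 1 x := by
  have hx2 : x ^ 2 ≤ 1 / 16 := by
    rw [← sq_abs]
    nlinarith [abs_nonneg x]
  rw [gaussianPDFReal]
  simp only [NNReal.coe_one, mul_one, sub_zero]
  have h1 : Real.sqrt (2 * Real.pi) ≤ 2.6 := by
    rw [show (2.6 : ℝ) = Real.sqrt (2.6 ^ 2) from (Real.sqrt_sq (by norm_num)).symm]
    apply Real.sqrt_le_sqrt
    have := Real.pi_lt_d2
    norm_num at this ⊢
    linarith
  have h2 : (0 : ℝ) < Real.sqrt (2 * Real.pi) := Real.sqrt_pos.2 (by positivity)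
  have h3 : (1 / 2.6 : ℝ) ≤ (Real.sqrt (2 * Real.pi))⁻¹ := by
    rw [← one_div]
    exact one_div_le_one_div_of_le h2 h1
  have h4 : (31 / 32 : ℝ) ≤ Real.exp (-x ^ 2 / 2) := by
    have := Real.add_one_le_exp (-x ^ 2 / 2)
    linarith
  calc (1 / 4 : ℝ) ≤ (1 / 2.6) * (31 / 32) := by norm_num
    _ ≤ _ := mul_le_mul h3 h4 (by norm_num) (by positivity)

theorem phi_sq_lower (lam : ℝ) (hl : 1 ≤ lam) (u : E) (hu : ‖u‖ = 1) :
    1 / (128 * lam ^ 3) ≤ ∫ z, phi lam ⟪u, z⟫ * phi lam ⟪u, z⟫ ∂(stdGaussian E) := by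
  have hl0 : 0 < lam := by linarith
  have hc := continuous_phi (lam := lam) hl0
  have h1 := Pool.Agent.Helper61.Zono.integral_inner u (fun t => phi lam t * phi lam t)
    (hc.mul hc).measurable
  rw [h1, hu]
  simp only [one_mul]
  have hint : Integrable (fun x => phi lam x * phi lam x) (gaussianReal 0 1) := by
    refine Integrable.of_bound (hc.mul hc).aestronglyMeasurable ((1 / (2 * lam)) * (1 / (2 * lam)))
      (Filter.Eventually.of_forall fun x => ?_)
    rw [Real.norm_eq_abs, abs_mul]
    exact mul_le_mul (abs_phi_le hl0 x) (abs_phi_le hl0 x) (abs_nonneg _) (by positivity)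
  set S : Set ℝ := Set.Icc (-(1 / (4 * lam))) (1 / (4 * lam)) with hS
  have hSm : MeasurableSet S := measurableSet_Icc
  -- mass of `S`
  have hmass : 1 / (8 * lam) ≤ (gaussianReal 0 1).real S := by
    have h2 : (gaussianReal 0 1).real S = ∫ x in S, gaussianPDFReal 0 1 x := by
      rw [measureReal_def, gaussianReal_apply_eq_integral 0 one_ne_zero S,
        ENNReal.toReal_ofReal]
      exact setIntegral_nonneg hSm fun x _ => gaussianPDFReal_nonneg 0 1 x
    rw [h2]
    have h3 : ∫ x in S, (1 / 4 : ℝ) = 1 / (8 * lam) := by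
      rw [setIntegral_const, hS, measureReal_def, Real.volume_Icc, ENNReal.toReal_ofReal]
      · rw [smul_eq_mul]
        field_simp
        ring
      · have : 0 < 1 / (4 * lam) := by positivity
        linarith
    rw [← h3]
    apply setIntegral_mono_on
    · exact integrableOn_const (by rw [hS]; simp [Real.volume_Icc])
    · exact (integrable_gaussianPDFReal 0 1).integrableOn
    · exact hSm
    · intro x hx
      apply pdf_lower
      rw [hS, Set.mem_Icc, ← abs_le] at hx
      refine hx.trans ?_
      apply one_div_le_one_div_of_le (by norm_num)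
      linarith
  calc 1 / (128 * lam ^ 3) = (1 / (8 * lam)) * ((1 / (4 * lam)) * (1 / (4 * lam))) := by
        field_simp
        ring
    _ ≤ (gaussianReal 0 1).real S * ((1 / (4 * lam)) * (1 / (4 * lam))) :=
        mul_le_mul_of_nonneg_right hmass (by positivity)
    _ = ∫ x in S, ((1 / (4 * lam)) * (1 / (4 * lam))) ∂(gaussianReal 0 1) := by
        rw [setIntegral_const, smul_eq_mul]
    _ ≤ ∫ x in S, phi lam x * phi lam x ∂(gaussianReal 0 1) := by
        apply setIntegral_mono_on
        · exact integrableOn_const (by finiteness)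
        · exact hint.integrableOn
        · exact hSm
        · intro x hx
          rw [hS, Set.mem_Icc, ← abs_le] at hx
          have h5 := phi_lower hl0 x hx
          have h6 : 0 ≤ 1 / (4 * lam) := by positivity
          exact mul_le_mul h5 h5 h6 (h6.trans h5)
    _ ≤ ∫ x, phi lam x * phi lam x ∂(gaussianReal 0 1) :=
        setIntegral_le_integral hint (Filter.Eventually.of_forall fun x => mul_self_nonneg _)

end Pool.Agent.Helper47.ZC
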