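import Pool.Agent.Helper47.ZC.Carath

/-!
# Random replacement inside one cell

A cell: a weighting `w ≥ 0` on a finite family `z a` of vectors such that for some linear functional
`ℓ`, `ℓ (z a) = 1` on the support. Apply `carath` to get the random weightings `v i`.
For a vector `x` put `f_i(x) = ∑ a, v i a * |⟨x, z a⟩|`. Then `∑ p_i f_i(x) = ∑ w a |⟨x, z a⟩|`,
`∑ a, v i a = ∑ a, w a` (apply `ℓ`), and:
* if `⟨x, z a⟩` has a constant sign on the support of `w`, then `f_i(x) = |⟨x, ∑ w a z a⟩|` does not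
  depend on `i`, so `f_i(x) = ∑ w a |⟨x, z a⟩|`;
* otherwise (`⟨x,z a⟩ < 0 < ⟨x, z a'⟩` for some `a, a'` in the support) and if
  `|⟨x, z a - z a'⟩| ≤ η` for all `a, a'` in the support, then `|⟨x, z a⟩| ≤ η` on the support, so
  `0 ≤ f_i(x) ≤ η ∑ w a` and the same for the mean.
The bound: `β(x) = (∑ w a) η` if `|⟨x, z a⟩| ≤ η` for all `a` in the support, and `0` otherwise
(in the remaining case the sign is constant).
-/

open scoped RealInnerProductSpace

namespace Pool.Agent.Helper47.ZC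

private lemma sum_abs_of_sign {n : ℕ} {A : Type*} [Fintype A]
    (z : A → EuclideanSpace ℝ (Fin n)) (u : A → ℝ) (s : ℝ) (x : EuclideanSpace ℝ (Fin n))
    (h : ∀ a, u a ≠ 0 → |⟪x, z a⟫| = s * ⟪x, z a⟫) :
    ∑ a, u a * |⟪x, z a⟫| = s * ⟪x, ∑ a, u a • z a⟫ := by
  rw [inner_sum, Finset.mul_sum]
  refine Finset.sum_congr rfl fun a _ => ?_
  rw [inner_smul_right]
  by_cases hu : u a = 0
  · simp [hu]
  · rw [h a hu]; ring

theorem piece {n : ℕ} {A : Type*} [Fintype A] [DecidableEq A]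
    (z : A → EuclideanSpace ℝ (Fin n)) (ℓ : EuclideanSpace ℝ (Fin n) →ₗ[ℝ] ℝ)
    (w : A → ℝ) (hw : ∀ a, 0 ≤ w a) (hℓ : ∀ a, w a ≠ 0 → ℓ (z a) = 1) :
    ∃ (k : ℕ) (p : Fin k → ℝ) (v : Fin k → A → ℝ),
      (∀ i, 0 ≤ p i) ∧ ∑ i, p i = 1 ∧ (∀ i a, 0 ≤ v i a) ∧ (∀ i, ∑ a, v i a = ∑ a, w a) ∧
      (∀ i, (Finset.univ.filter fun a => v i a ≠ 0).card ≤ n) ∧
      (∀ x, ∑ i, p i * (∑ a, v i a * |⟪x, z a⟫|) = ∑ a, w a * |⟪x, z a⟫|) ∧
      (∀ (x : EuclideanSpace ℝ (Fin n)) (η : ℝ), 0 ≤ η →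
        (∀ a a', w a ≠ 0 → w a' ≠ 0 → |⟪x, z a - z a'⟫| ≤ η) →
        ∀ i, abs ((∑ a, v i a * |⟪x, z a⟫|) - ∑ a, w a * |⟪x, z a⟫|) ≤
          Set.indicator {y : EuclideanSpace ℝ (Fin n) | ∀ a, w a ≠ 0 → |⟪y, z a⟫| ≤ η}
            (fun _ => (∑ a, w a) * η) x) := by
  obtain ⟨k, p, v, hp, hp1, hv, hv0, hvz, hvw, hcard⟩ := carath z ℓ w hw hℓ
  have hsupp : ∀ i a, v i a ≠ 0 → w a ≠ 0 := fun i a h h0 => h (hv0 i a h0)
  have hsum : ∀ i, ∑ a, v i a = ∑ a, w a := by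
    intro i
    have h1 := congrArg ℓ (hvz i)
    simp only [map_sum, map_smul, smul_eq_mul] at h1
    have h2 : ∑ a, v i a * ℓ (z a) = ∑ a, v i a := by
      refine Finset.sum_congr rfl fun a _ => ?_
      by_cases h : v i a = 0
      · simp [h]
      · rw [hℓ a (hsupp i a h), mul_one]
    have h3 : ∑ a, w a * ℓ (z a) = ∑ a, w a := by
      refine Finset.sum_congr rfl fun a _ => ?_
      by_cases h : w a = 0
      · simp [h]
      · rw [hℓ a h, mul_one]
    rw [← h2, ← h3, h1]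
  refine ⟨k, p, v, hp, hp1, hv, hsum, ?_, ?_, ?_⟩
  · intro i
    have h := hcard i
    rwa [finrank_euclideanSpace_fin] at h
  · intro x
    simp only [Finset.mul_sum]
    rw [Finset.sum_comm]
    refine Finset.sum_congr rfl fun a _ => ?_
    rw [← hvw a, Finset.sum_mul]
    refine Finset.sum_congr rfl fun i _ => ?_
    ring
  · intro x η hη hdiff i
    by_cases hx : ∀ a, w a ≠ 0 → |⟪x, z a⟫| ≤ η
    · rw [Set.indicator_of_mem (show x ∈ {y : EuclideanSpace ℝ (Fin n) |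
        ∀ a, w a ≠ 0 → |⟪y, z a⟫| ≤ η} from hx)]
      have hf0 : 0 ≤ ∑ a, v i a * |⟪x, z a⟫| :=
        Finset.sum_nonneg fun a _ => mul_nonneg (hv i a) (abs_nonneg _)
      have hm0 : 0 ≤ ∑ a, w a * |⟪x, z a⟫| :=
        Finset.sum_nonneg fun a _ => mul_nonneg (hw a) (abs_nonneg _)
      have hf1 : ∑ a, v i a * |⟪x, z a⟫| ≤ (∑ a, w a) * η := by
        rw [← hsum i, Finset.sum_mul]
        refine Finset.sum_le_sum fun a _ => ?_
        by_cases h : v i a = 0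
        · simp [h]
        · exact mul_le_mul_of_nonneg_left (hx a (hsupp i a h)) (hv i a)
      have hm1 : ∑ a, w a * |⟪x, z a⟫| ≤ (∑ a, w a) * η := by
        rw [Finset.sum_mul]
        refine Finset.sum_le_sum fun a _ => ?_
        by_cases h : w a = 0
        · simp [h]
        · exact mul_le_mul_of_nonneg_left (hx a h) (hw a)
      rw [abs_le]
      constructor <;> linarith
    · rw [Set.indicator_of_notMem (show x ∉ {y : EuclideanSpace ℝ (Fin n) |
        ∀ a, w a ≠ 0 → |⟪y, z a⟫| ≤ η} from hx)]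
      push Not at hx
      obtain ⟨a₀, ha₀, hlt⟩ := hx
      have hclose : ∀ a, w a ≠ 0 → |⟪x, z a⟫ - ⟪x, z a₀⟫| ≤ η := by
        intro a ha
        have h := hdiff a a₀ ha ha₀
        rwa [inner_sub_right] at h
      obtain ⟨s, hs⟩ : ∃ s : ℝ, ∀ a, w a ≠ 0 → |⟪x, z a⟫| = s * ⟪x, z a⟫ := by
        rcases le_or_gt 0 ⟪x, z a₀⟫ with h0 | h0
        · refine ⟨1, fun a ha => ?_⟩
          have h1 := abs_le.1 (hclose a ha)
          rw [abs_of_nonneg h0] at hlt
          rw [abs_of_nonneg (by linarith), one_mul]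
        · refine ⟨-1, fun a ha => ?_⟩
          have h1 := abs_le.1 (hclose a ha)
          rw [abs_of_neg h0] at hlt
          rw [abs_of_nonpos (by linarith)]
          ring
      rw [sum_abs_of_sign z (v i) s x fun a ha => hs a (hsupp i a ha),
        sum_abs_of_sign z w s x hs, hvz i, sub_self, abs_zero]

end Pool.Agent.Helper47.ZC
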