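import Pool.Agent.Helper47.ZC.Defs

/-!
# `|t| = C1⁻¹ ∫_0^∞ (1 - e^{-r t²/2}) r^{-3/2} dr`
Integrability: near `0` the integrand is `≤ (t²/2) r^{-1/2}`, at infinity `≤ r^{-3/2}`.
The formula: substitution `r ↦ r/t²` (`MeasureTheory.integral_comp_mul_left_Ioi`).
-/

open MeasureTheory

namespace Pool.Agent.Helper47.ZC

theorem integrableOn_rep (t : ℝ) :
    IntegrableOn (fun r : ℝ => (1 - Real.exp (-(r * t ^ 2 / 2))) * r ^ (-(3 / 2) : ℝ))
      (Set.Ioi 0) := by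
  have hmeas : Measurable
      (fun r : ℝ => (1 - Real.exp (-(r * t ^ 2 / 2))) * r ^ (-(3 / 2) : ℝ)) := by
    fun_prop
  have hsplit : Set.Ioi (0 : ℝ) = Set.Ioc 0 1 ∪ Set.Ioi 1 :=
    (Set.Ioc_union_Ioi_eq_Ioi zero_le_one).symm
  rw [hsplit]
  refine IntegrableOn.union ?_ ?_
  · have hi : IntegrableOn (fun r : ℝ => (t ^ 2 / 2) * r ^ (-(1 / 2) : ℝ)) (Set.Ioc 0 1) := by
      have h := (intervalIntegral.intervalIntegrable_rpow' (a := 0) (b := 1)
        (r := (-(1 / 2) : ℝ)) (by norm_num)).const_mul (t ^ 2 / 2)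
      rwa [intervalIntegrable_iff_integrableOn_Ioc_of_le zero_le_one] at h
    refine Integrable.mono' hi hmeas.aestronglyMeasurable ?_
    refine (ae_restrict_iff' measurableSet_Ioc).mpr (Filter.Eventually.of_forall ?_)
    intro r hr
    have hr0 : 0 < r := hr.1
    have h1 : 0 ≤ 1 - Real.exp (-(r * t ^ 2 / 2)) := by
      have : Real.exp (-(r * t ^ 2 / 2)) ≤ 1 := by
        rw [Real.exp_le_one_iff]
        have : 0 ≤ r * t ^ 2 / 2 := by positivity
        linarith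
      linarith
    have h2 : 1 - Real.exp (-(r * t ^ 2 / 2)) ≤ r * t ^ 2 / 2 := by
      have := Real.add_one_le_exp (-(r * t ^ 2 / 2))
      linarith
    have h3 : 0 ≤ r ^ (-(3 / 2) : ℝ) := Real.rpow_nonneg hr0.le _
    rw [Real.norm_of_nonneg (mul_nonneg h1 h3)]
    have h4 : r * r ^ (-(3 / 2) : ℝ) = r ^ (-(1 / 2) : ℝ) := by
      nth_rewrite 1 [← Real.rpow_one r]
      rw [← Real.rpow_add hr0]
      norm_num
    calc (1 - Real.exp (-(r * t ^ 2 / 2))) * r ^ (-(3 / 2) : ℝ)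
        ≤ (r * t ^ 2 / 2) * r ^ (-(3 / 2) : ℝ) := mul_le_mul_of_nonneg_right h2 h3
      _ = (t ^ 2 / 2) * (r * r ^ (-(3 / 2) : ℝ)) := by ring
      _ = (t ^ 2 / 2) * r ^ (-(1 / 2) : ℝ) := by rw [h4]
  · have hi : IntegrableOn (fun r : ℝ => r ^ (-(3 / 2) : ℝ)) (Set.Ioi 1) :=
      integrableOn_Ioi_rpow_of_lt (by norm_num) one_pos
    refine Integrable.mono' hi hmeas.aestronglyMeasurable ?_
    refine (ae_restrict_iff' measurableSet_Ioi).mpr (Filter.Eventually.of_forall ?_)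
    intro r hr
    have hr0 : 0 < r := lt_trans one_pos hr
    have h1 : 0 ≤ 1 - Real.exp (-(r * t ^ 2 / 2)) := by
      have : Real.exp (-(r * t ^ 2 / 2)) ≤ 1 := by
        rw [Real.exp_le_one_iff]
        have : 0 ≤ r * t ^ 2 / 2 := by positivity
        linarith
      linarith
    have h2 : 1 - Real.exp (-(r * t ^ 2 / 2)) ≤ 1 := by
      have := Real.exp_pos (-(r * t ^ 2 / 2))
      linarith
    have h3 : 0 ≤ r ^ (-(3 / 2) : ℝ) := Real.rpow_nonneg hr0.le _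
    rw [Real.norm_of_nonneg (mul_nonneg h1 h3)]
    calc (1 - Real.exp (-(r * t ^ 2 / 2))) * r ^ (-(3 / 2) : ℝ)
        ≤ 1 * r ^ (-(3 / 2) : ℝ) := mul_le_mul_of_nonneg_right h2 h3
      _ = r ^ (-(3 / 2) : ℝ) := one_mul _

private theorem integrableOn_C1 :
    IntegrableOn (fun r : ℝ => (1 - Real.exp (-(r / 2))) * r ^ (-(3 / 2) : ℝ)) (Set.Ioi 0) := by
  have h := integrableOn_rep 1
  refine h.congr_fun (fun r _ => ?_) measurableSet_Ioi
  simp

theorem C1_pos : 0 < C1 := by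
  unfold C1
  have hpos : ∀ r ∈ Set.Ioi (0 : ℝ), 0 < (1 - Real.exp (-(r / 2))) * r ^ (-(3 / 2) : ℝ) := by
    intro r hr
    have hr0 : 0 < r := hr
    have h1 : Real.exp (-(r / 2)) < 1 := by
      rw [Real.exp_lt_one_iff]
      linarith
    have h3 : 0 < r ^ (-(3 / 2) : ℝ) := Real.rpow_pos_of_pos hr0 _
    exact mul_pos (by linarith) h3
  rw [setIntegral_pos_iff_support_of_nonneg_ae _ integrableOn_C1]
  · have hsub : Set.Ioi (0 : ℝ) ⊆ Function.support
        (fun r : ℝ => (1 - Real.exp (-(r / 2))) * r ^ (-(3 / 2) : ℝ)) ∩ Set.Ioi 0 :=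
      fun r hr => ⟨(hpos r hr).ne', hr⟩
    refine lt_of_lt_of_le ?_ (measure_mono hsub)
    rw [Real.volume_Ioi]
    exact ENNReal.zero_lt_top
  · refine (ae_restrict_iff' measurableSet_Ioi).mpr (Filter.Eventually.of_forall ?_)
    intro r hr
    exact (hpos r hr).le

theorem integral_rep (t : ℝ) :
    ∫ r in Set.Ioi (0 : ℝ), (1 - Real.exp (-(r * t ^ 2 / 2))) * r ^ (-(3 / 2) : ℝ)
      = C1 * |t| := by
  by_cases ht : t = 0
  · subst ht
    simp
  · have hb : 0 < t ^ 2 := by positivity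
    have hat : 0 < |t| := abs_pos.mpr ht
    have h := integral_comp_mul_left_Ioi
      (fun r : ℝ => (1 - Real.exp (-(r / 2))) * r ^ (-(3 / 2) : ℝ)) 0 hb
    rw [mul_zero] at h
    have hc : (t ^ 2) ^ (-(3 / 2) : ℝ) = (|t| ^ 3)⁻¹ := by
      rw [← sq_abs, Real.rpow_neg (by positivity), ← Real.rpow_natCast |t| 2,
        ← Real.rpow_mul hat.le, ← Real.rpow_natCast |t| 3]
      norm_num
    have e : ∫ x in Set.Ioi (0 : ℝ), (1 - Real.exp (-(t ^ 2 * x / 2))) *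
        (t ^ 2 * x) ^ (-(3 / 2) : ℝ) = (|t| ^ 3)⁻¹ *
        ∫ r in Set.Ioi (0 : ℝ), (1 - Real.exp (-(r * t ^ 2 / 2))) * r ^ (-(3 / 2) : ℝ) := by
      rw [← integral_const_mul]
      refine setIntegral_congr_fun measurableSet_Ioi (fun x hx => ?_)
      have hx0 : 0 < x := hx
      rw [Real.mul_rpow hb.le hx0.le, hc, mul_comm (t ^ 2) x]
      ring
    rw [e] at h
    have h2 : ∫ r in Set.Ioi (0 : ℝ), (1 - Real.exp (-(r * t ^ 2 / 2))) * r ^ (-(3 / 2) : ℝ) =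
        |t| ^ 3 * ((t ^ 2)⁻¹ • C1) := by
      unfold C1
      rw [← h, ← mul_assoc, mul_inv_cancel₀ (by positivity), one_mul]
    rw [h2, smul_eq_mul, ← sq_abs]
    field_simp

end Pool.Agent.Helper47.ZC
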