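import Pool.Agent.Helper47.ZC.Piece
import Pool.Agent.Helper47.ZC.Derand

/-!
# Selection of few vectors

Data: finite weighting `w` on points `z a` (`a : Fin k`), a cell map `κ : Fin k → Fin K`; in every
cell some coordinate `i` has constant value `z a i = ± 1`; cells are `η`-thin for all `x ∈ X`;
`m > 0`. Cell masses `W_c = ∑_{κ a = c} w a`; `k_c = ⌈W_c/m⌉₊ + ...` pieces: take
`k_c = ⌊W_c/m⌋₊ + 1`, so `W_c/k_c ≤ m` and `∑_c k_c ≤ K + W/m`. For every piece
`q = (c, j)`, `j : Fin k_c`, apply `piece` to the weighting `w a / k_c` on the cell `c` (zero outside)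
with `ℓ y = σ * y i` (`σ = z a i = ±1`); if the cell is empty the weighting is `0`, any `ℓ` will do.
`derand` with `ξ q x i = f_i(x) - mean`, `b q x = indicator ... (W_c/k_c) η`:
`∑_q (b q x)² ≤ ∑_{c crossing} k_c (W_c/k_c)² η² ≤ m η² ∑_{c crossing} W_c ≤ m η² σ`, where all
points (of nonzero weight) of a crossing cell are in the slab `|⟨x,z a⟩| ≤ η`.
Output: all vectors `v^{(q)}_a z a` with `v^{(q)}_a ≠ 0`; at most `n` for every piece, so at most
`n (K + W/m)`; `‖v z a‖ ≤ √n v` since `|z a i| ≤ 1`, and `∑ v = ∑ w`.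
-/

open scoped RealInnerProductSpace

namespace Pool.Agent.Helper47.ZC

private theorem sum_cells {k K : ℕ} (κ : Fin k → Fin K) (kc : Fin K → ℕ) (hkc : ∀ c, 0 < kc c)
    (w g : Fin k → ℝ) :
    ∑ q : (Σ c : Fin K, Fin (kc c)), ∑ a, (if κ a = q.1 then w a / kc q.1 else 0) * g a
      = ∑ a, w a * g a := by
  classical
  rw [Fintype.sum_sigma]
  have h : ∀ c, ∑ _j : Fin (kc c), ∑ a, (if κ a = c then w a / kc c else 0) * g a
      = ∑ a, if κ a = c then w a * g a else 0 := by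
    intro c
    rw [Finset.sum_const, Finset.card_univ, Fintype.card_fin, nsmul_eq_mul, Finset.mul_sum]
    refine Finset.sum_congr rfl fun a _ => ?_
    have h0 : (kc c : ℝ) ≠ 0 := by exact_mod_cast (hkc c).ne'
    split_ifs
    · field_simp
    · simp
  rw [Finset.sum_congr rfl (fun c _ => h c), Finset.sum_comm]
  refine Finset.sum_congr rfl fun a _ => ?_
  rw [Finset.sum_ite_eq]
  simp

private theorem norm_le_sqrt {n : ℕ} (z : EuclideanSpace ℝ (Fin n)) (hz : ∀ i, |z i| ≤ 1) :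
    ‖z‖ ≤ Real.sqrt n := by
  rw [EuclideanSpace.norm_eq]
  apply Real.sqrt_le_sqrt
  calc ∑ i, ‖z i‖ ^ 2 ≤ ∑ _i : Fin n, (1 : ℝ) := by
        refine Finset.sum_le_sum fun i _ => ?_
        rw [Real.norm_eq_abs]
        exact pow_le_one₀ (abs_nonneg _) (hz i)
    _ = n := by simp

theorem select {n k K : ℕ} (X : Finset (EuclideanSpace ℝ (Fin n)))
    (w : Fin k → ℝ) (z : Fin k → EuclideanSpace ℝ (Fin n)) (κ : Fin k → Fin K)
    (hw : ∀ a, 0 ≤ w a) (hz : ∀ a i, |z a i| ≤ 1)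
    (hface : ∀ a, ∃ i, |z a i| = 1 ∧ ∀ a', κ a' = κ a → z a' i = z a i)
    (η σ m t : ℝ) (hη : 0 < η) (hσ : 0 < σ) (hm : 0 < m) (ht : 0 < t)
    (hthin : ∀ x ∈ X, ∀ a a', κ a = κ a' → |⟪x, z a - z a'⟫| ≤ η)
    (hslab : ∀ x ∈ X, ∑ a ∈ Finset.univ.filter (fun a => |⟪x, z a⟫| ≤ η), w a ≤ σ)
    (hlog : 2 * (m * η ^ 2 * σ) * Real.log (2 * X.card) < t ^ 2) :
    ∃ (N : ℕ) (y : Fin N → EuclideanSpace ℝ (Fin n)),
      (N : ℝ) ≤ n * (K + (∑ a, w a) / m) ∧
      (∀ x ∈ X, abs ((∑ j, |⟪x, y j⟫|) - ∑ a, w a * |⟪x, z a⟫|) ≤ t) ∧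
      ∑ j, ‖y j‖ ≤ Real.sqrt n * ∑ a, w a := by
  classical
  -- cell masses and numbers of pieces
  obtain ⟨W, hW⟩ : ∃ W : Fin K → ℝ, ∀ c, W c = ∑ a, if κ a = c then w a else 0 := ⟨_, fun _ => rfl⟩
  have hW0 : ∀ c, 0 ≤ W c := by
    intro c
    rw [hW]
    refine Finset.sum_nonneg fun a _ => ?_
    split_ifs
    · exact hw a
    · exact le_rfl
  have hWsum : ∑ c, W c = ∑ a, w a := by
    simp_rw [hW]
    rw [Finset.sum_comm]
    refine Finset.sum_congr rfl fun a _ => ?_
    rw [Finset.sum_ite_eq]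
    simp
  obtain ⟨kc, hkc⟩ : ∃ kc : Fin K → ℕ, ∀ c, kc c = ⌊W c / m⌋₊ + 1 := ⟨_, fun _ => rfl⟩
  have hkc0 : ∀ c, 0 < kc c := by
    intro c
    rw [hkc]
    exact Nat.succ_pos _
  have hkcR : ∀ c, (0 : ℝ) < kc c := fun c => by exact_mod_cast hkc0 c
  have hkcm : ∀ c, W c ≤ m * kc c := by
    intro c
    have h1 : W c / m < (⌊W c / m⌋₊ : ℝ) + 1 := Nat.lt_floor_add_one _
    have h2 : (kc c : ℝ) = (⌊W c / m⌋₊ : ℝ) + 1 := by rw [hkc]; push_cast; ring
    rw [← h2, div_lt_iff₀ hm] at h1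
    linarith
  have hkcsum : ∑ c, (kc c : ℝ) ≤ K + (∑ a, w a) / m := by
    calc ∑ c, (kc c : ℝ) ≤ ∑ c, (W c / m + 1) := by
          refine Finset.sum_le_sum fun c _ => ?_
          have h1 : (⌊W c / m⌋₊ : ℝ) ≤ W c / m := Nat.floor_le (div_nonneg (hW0 c) hm.le)
          rw [hkc]
          push_cast
          linarith
      _ = K + (∑ a, w a) / m := by
          rw [Finset.sum_add_distrib, ← Finset.sum_div, hWsum]
          simp
          ring
  obtain ⟨wc, hwc⟩ : ∃ wc : Fin K → Fin k → ℝ,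
      ∀ c a, wc c a = if κ a = c then w a / kc c else 0 := ⟨_, fun _ _ => rfl⟩
  have hwc0 : ∀ c a, 0 ≤ wc c a := by
    intro c a
    rw [hwc]
    split_ifs
    · exact div_nonneg (hw a) (hkcR c).le
    · exact le_rfl
  have hwcκ : ∀ c a, wc c a ≠ 0 → κ a = c := by
    intro c a h
    by_contra hne
    exact h (by rw [hwc, if_neg hne])
  have hwcsum : ∀ c, ∑ a, wc c a = W c / kc c := by
    intro c
    rw [hW, Finset.sum_div]
    refine Finset.sum_congr rfl fun a _ => ?_
    rw [hwc]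
    split_ifs
    · rfl
    · simp
  -- the pieces
  have hkey : ∀ c : Fin K, ∃ ℓ : EuclideanSpace ℝ (Fin n) →ₗ[ℝ] ℝ,
      ∀ a, wc c a ≠ 0 → ℓ (z a) = 1 := by
    intro c
    by_cases hc : ∃ a0, κ a0 = c
    · obtain ⟨a0, ha0⟩ := hc
      obtain ⟨i, hi1, hi2⟩ := hface a0
      refine ⟨z a0 i • (EuclideanSpace.proj i : EuclideanSpace ℝ (Fin n) →L[ℝ] ℝ).toLinearMap,
        fun a ha => ?_⟩
      have h1 : z a i = z a0 i := hi2 a ((hwcκ c a ha).trans ha0.symm)
      have h2 : z a0 i * z a0 i = 1 := by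
        rw [← abs_mul_abs_self, hi1, one_mul]
      simp [h1, h2]
    · refine ⟨0, fun a ha => ?_⟩
      exact absurd ⟨a, hwcκ c a ha⟩ hc
  choose ℓ hℓ using hkey
  have hpiece := fun c : Fin K => piece z (ℓ c) (wc c) (hwc0 c) (hℓ c)
  choose kk p v h1 h2 h3 h4 h5 h6 h7 using hpiece
  -- derandomisation
  obtain ⟨ω, hω⟩ := derand (Q := Σ c : Fin K, Fin (kc c)) (X := EuclideanSpace ℝ (Fin n)) X
    (fun q => kk q.1) (fun q => p q.1) (fun q => h1 q.1) (fun q => h2 q.1)
    (fun q x i => (∑ a, v q.1 i a * |⟪x, z a⟫|) - ∑ a, wc q.1 a * |⟪x, z a⟫|)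
    (by
      intro q x _
      have e1 : ∀ i, p q.1 i * ((∑ a, v q.1 i a * |⟪x, z a⟫|) - ∑ a, wc q.1 a * |⟪x, z a⟫|)
          = p q.1 i * (∑ a, v q.1 i a * |⟪x, z a⟫|)
            - p q.1 i * ∑ a, wc q.1 a * |⟪x, z a⟫| := fun i => mul_sub _ _ _
      simp only [e1]
      rw [Finset.sum_sub_distrib, h6, ← Finset.sum_mul, h2, one_mul, sub_self])
    (fun q x => Set.indicator {y : EuclideanSpace ℝ (Fin n) | ∀ a, wc q.1 a ≠ 0 → |⟪y, z a⟫| ≤ η}
            (fun _ => (∑ a, wc q.1 a) * η) x)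
    (by
      intro q x hx i
      refine h7 q.1 x η hη.le ?_ i
      intro a a' ha ha'
      exact hthin x hx a a' ((hwcκ _ a ha).trans (hwcκ _ a' ha').symm))
    (m * η ^ 2 * σ) t (by positivity)
    (by
      intro x hx
      rw [Fintype.sum_sigma]
      have hc : ∀ c : Fin K, ∑ _j : Fin (kc c),
          (Set.indicator {y : EuclideanSpace ℝ (Fin n) | ∀ a, wc c a ≠ 0 → |⟪y, z a⟫| ≤ η}
            (fun _ => (∑ a, wc c a) * η) x) ^ 2
          ≤ m * η ^ 2 * ∑ a, if κ a = c then (if |⟪x, z a⟫| ≤ η then w a else 0) else 0 := by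
        intro c
        rw [Finset.sum_const, Finset.card_univ, Fintype.card_fin, nsmul_eq_mul, hwcsum]
        by_cases hcr : ∀ a, wc c a ≠ 0 → |⟪x, z a⟫| ≤ η
        · rw [Set.indicator_of_mem (by exact hcr)]
          have e1 : (∑ a, if κ a = c then (if |⟪x, z a⟫| ≤ η then w a else 0) else 0) = W c := by
            rw [hW]
            refine Finset.sum_congr rfl fun a _ => ?_
            by_cases hκ : κ a = c
            · rw [if_pos hκ, if_pos hκ]
              by_cases hwa : w a = 0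
              · rw [hwa]; simp
              · rw [if_pos]
                apply hcr a
                rw [hwc, if_pos hκ]
                exact div_ne_zero hwa (hkcR c).ne'
            · rw [if_neg hκ, if_neg hκ]
          rw [e1]
          have hk := hkcR c
          have e2 : (kc c : ℝ) * (W c / kc c * η) ^ 2 = W c * (W c / kc c) * η ^ 2 := by
            field_simp
          rw [e2]
          have e3 : W c / kc c ≤ m := by
            rw [div_le_iff₀ hk]
            exact hkcm c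
          calc W c * (W c / kc c) * η ^ 2 ≤ W c * m * η ^ 2 := by
                gcongr
                exact hW0 c
            _ = m * η ^ 2 * W c := by ring
        · rw [Set.indicator_of_notMem (by exact hcr)]
          have : 0 ≤ ∑ a, if κ a = c then (if |⟪x, z a⟫| ≤ η then w a else 0) else 0 := by
            refine Finset.sum_nonneg fun a _ => ?_
            split_ifs
            · exact hw a
            · exact le_rfl
            · exact le_rfl
          have h0 : 0 ≤ m * η ^ 2 * ∑ a, if κ a = c then (if |⟪x, z a⟫| ≤ η then w a else 0) else 0 :=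
            mul_nonneg (by positivity) this
          simpa using h0
      refine (Finset.sum_le_sum fun c _ => hc c).trans ?_
      rw [← Finset.mul_sum, Finset.sum_comm]
      refine mul_le_mul_of_nonneg_left ?_ (by positivity)
      refine le_trans (le_of_eq ?_) (hslab x hx)
      rw [Finset.sum_filter]
      refine Finset.sum_congr rfl fun a _ => ?_
      rw [Finset.sum_ite_eq]
      simp)
    ht hlog
  -- the output
  obtain ⟨T, hT⟩ : ∃ T : Finset ((Σ c : Fin K, Fin (kc c)) × Fin k),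
      T = Finset.univ.filter (fun r => v r.1.1 (ω r.1) r.2 ≠ 0) := ⟨_, rfl⟩
  have hsumT : ∀ g : ((Σ c : Fin K, Fin (kc c)) × Fin k) → ℝ,
      (∀ r, v r.1.1 (ω r.1) r.2 = 0 → g r = 0) →
      ∑ j : Fin T.card, g (T.equivFin.symm j : _) = ∑ q, ∑ a, g (q, a) := by
    intro g hg
    rw [Equiv.sum_comp T.equivFin.symm (fun r : T => g r), Finset.sum_coe_sort T g, hT,
      Finset.sum_filter, Fintype.sum_prod_type]
    refine Finset.sum_congr rfl fun q _ => Finset.sum_congr rfl fun a _ => ?_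
    by_cases h : v q.1 (ω q) a = 0
    · rw [if_neg (by simpa using h), hg (q, a) h]
    · rw [if_pos h]
  refine ⟨T.card, fun j => (v (T.equivFin.symm j).1.1.1 (ω (T.equivFin.symm j).1.1)
    (T.equivFin.symm j).1.2) • z (T.equivFin.symm j).1.2, ?_, ?_, ?_⟩
  · have hcard : T.card ≤ n * ∑ c, kc c := by
      rw [hT, Finset.card_filter, Fintype.sum_prod_type]
      calc ∑ q : (Σ c : Fin K, Fin (kc c)), ∑ a, (if v q.1 (ω q) a ≠ 0 then 1 else 0)
          ≤ ∑ _q : (Σ c : Fin K, Fin (kc c)), n := by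
            refine Finset.sum_le_sum fun q _ => ?_
            rw [← Finset.card_filter]
            exact h5 q.1 (ω q)
        _ = n * ∑ c, kc c := by
            rw [Finset.sum_const, Finset.card_univ, Fintype.card_sigma]
            simp [mul_comm]
    calc (T.card : ℝ) ≤ ((n * ∑ c, kc c : ℕ) : ℝ) := by exact_mod_cast hcard
      _ = n * ∑ c, (kc c : ℝ) := by push_cast; ring
      _ ≤ n * (K + (∑ a, w a) / m) := mul_le_mul_of_nonneg_left hkcsum (Nat.cast_nonneg _)
  · intro x hx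
    have e1 : ∑ j : Fin T.card, |⟪x, (v (T.equivFin.symm j).1.1.1 (ω (T.equivFin.symm j).1.1)
        (T.equivFin.symm j).1.2) • z (T.equivFin.symm j).1.2⟫|
        = ∑ q : (Σ c : Fin K, Fin (kc c)), ∑ a, v q.1 (ω q) a * |⟪x, z a⟫| := by
      have := hsumT (fun r => |⟪x, (v r.1.1 (ω r.1) r.2) • z r.2⟫|) (by
        intro r hr
        simp [hr])
      rw [this]
      refine Finset.sum_congr rfl fun q _ => Finset.sum_congr rfl fun a _ => ?_
      rw [inner_smul_right, abs_mul, abs_of_nonneg (h3 _ _ _)]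
    have e2 : ∑ a, w a * |⟪x, z a⟫|
        = ∑ q : (Σ c : Fin K, Fin (kc c)), ∑ a, wc q.1 a * |⟪x, z a⟫| := by
      rw [← sum_cells κ kc hkc0 w (fun a => |⟪x, z a⟫|)]
      simp_rw [hwc]
    rw [e1, e2, ← Finset.sum_sub_distrib]
    exact hω x hx
  · have e1 : ∑ j : Fin T.card, ‖(v (T.equivFin.symm j).1.1.1 (ω (T.equivFin.symm j).1.1)
        (T.equivFin.symm j).1.2) • z (T.equivFin.symm j).1.2‖
        = ∑ q : (Σ c : Fin K, Fin (kc c)), ∑ a, v q.1 (ω q) a * ‖z a‖ := by
      have := hsumT (fun r => ‖(v r.1.1 (ω r.1) r.2) • z r.2‖) (by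
        intro r hr
        simp [hr])
      rw [this]
      refine Finset.sum_congr rfl fun q _ => Finset.sum_congr rfl fun a _ => ?_
      rw [norm_smul, Real.norm_eq_abs, abs_of_nonneg (h3 _ _ _)]
    rw [e1]
    calc ∑ q : (Σ c : Fin K, Fin (kc c)), ∑ a, v q.1 (ω q) a * ‖z a‖
        ≤ ∑ q : (Σ c : Fin K, Fin (kc c)), ∑ a, v q.1 (ω q) a * Real.sqrt n := by
          refine Finset.sum_le_sum fun q _ => Finset.sum_le_sum fun a _ => ?_
          exact mul_le_mul_of_nonneg_left (norm_le_sqrt _ (hz a)) (h3 _ _ _)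
      _ = ∑ q : (Σ c : Fin K, Fin (kc c)), ∑ a, wc q.1 a * Real.sqrt n := by
          refine Finset.sum_congr rfl fun q _ => ?_
          rw [← Finset.sum_mul, h4, Finset.sum_mul]
      _ = ∑ a, w a * Real.sqrt n := by
          rw [← sum_cells κ kc hkc0 w (fun _ => Real.sqrt n)]
          simp_rw [hwc]
      _ = Real.sqrt n * ∑ a, w a := by rw [← Finset.sum_mul, mul_comm]

end Pool.Agent.Helper47.ZC
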