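import Pool.Agent.Helper47.ZC.Defs

/-!
# Gaussian mass of a thin slab (a cone around a hyperplane)

`E ‖y‖ 1(|⟨x,y⟩| ≤ η ‖y‖) ≤ 8 n η` for a unit vector `x`.

If `η ≥ 1/2`: the left side is `≤ E‖y‖ ≤ √n ≤ 8 n η` (`Helper24.Zono.integral_norm_le`).
If `η < 1/2`: resampling. For `y` standard Gaussian and `g` an independent standard normal variable,
`y - ⟨x,y⟩ x + g x` is standard Gaussian (equality of measures by characteristic functions,
`Measure.ext_of_charFun`, `charFun_stdGaussian`; `|ξ|² = |ξ - ⟨x,ξ⟩x|² + ⟨x,ξ⟩²`). So the left side is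
`E_y E_g ‖y' + g x‖ 1(|g| ≤ η ‖y' + g x‖)`, `y' = y - ⟨x,y⟩x`. On the event
`|g| ≤ η (‖y'‖ + |g|) ≤ η‖y'‖ + |g|/2`, i.e. `|g| ≤ 2 η ‖y'‖`, and there
`‖y' + g x‖ ≤ ‖y'‖ + |g| ≤ 2 ‖y'‖`. The density of `g` is `≤ 1/√(2π) ≤ 1/2`, so
`P(|g| ≤ 2 η ‖y'‖) ≤ 2 η ‖y'‖`, and the left side is `≤ E 2‖y'‖ 2η‖y'‖ ≤ 4 η E‖y‖² = 4 η n`.
-/

open MeasureTheory ProbabilityTheory
open scoped RealInnerProductSpace

namespace Pool.Agent.Helper47.ZC

section slabaux

variable {E : Type*} [NormedAddCommGroup E] [InnerProductSpace ℝ E] [FiniteDimensional ℝ E]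
  [MeasurableSpace E] [BorelSpace E]

omit [FiniteDimensional ℝ E] [MeasurableSpace E] [BorelSpace E] in
private lemma slab_norm_sq (x ξ : E) (hx : ‖x‖ = 1) :
    ‖ξ - ⟪x, ξ⟫ • x‖ ^ 2 + ⟪x, ξ⟫ ^ 2 = ‖ξ‖ ^ 2 := by
  rw [norm_sub_sq_real, norm_smul, hx, mul_one, inner_smul_right, real_inner_comm x ξ,
    Real.norm_eq_abs, sq_abs]
  ring

private lemma slab_map (x : E) (hx : ‖x‖ = 1) :
    ((stdGaussian E).prod (gaussianReal 0 1)).map
      (fun q : E × ℝ => q.1 - ⟪x, q.1⟫ • x + q.2 • x) = stdGaussian E := by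
  have hm : Measurable (fun q : E × ℝ => q.1 - ⟪x, q.1⟫ • x + q.2 • x) := by fun_prop
  have : IsProbabilityMeasure (((stdGaussian E).prod (gaussianReal 0 1)).map
      (fun q : E × ℝ => q.1 - ⟪x, q.1⟫ • x + q.2 • x)) :=
    Measure.isProbabilityMeasure_map hm.aemeasurable
  refine Measure.ext_of_charFun (funext fun ξ => ?_)
  rw [charFun_apply, integral_map hm.aemeasurable
    (Measurable.aestronglyMeasurable (by fun_prop))]
  have h1 : ∀ q : E × ℝ, Complex.exp (⟪q.1 - ⟪x, q.1⟫ • x + q.2 • x, ξ⟫ * Complex.I) =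
      Complex.exp (⟪q.1, ξ - ⟪x, ξ⟫ • x⟫ * Complex.I) *
        Complex.exp (⟪x, ξ⟫ * q.2 * Complex.I) := by
    intro q
    rw [← Complex.exp_add]
    congr 1
    rw [← add_mul]
    congr 1
    have h2 : ⟪q.1 - ⟪x, q.1⟫ • x + q.2 • x, ξ⟫ = ⟪q.1, ξ - ⟪x, ξ⟫ • x⟫ + ⟪x, ξ⟫ * q.2 := by
      rw [inner_add_left, inner_sub_left, inner_sub_right, real_inner_smul_left,
        real_inner_smul_left, real_inner_smul_right, real_inner_comm x q.1]
      ring
    rw [h2]
    push_cast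
    ring
  simp_rw [h1]
  rw [integral_prod_mul (fun y : E => Complex.exp (⟪y, ξ - ⟪x, ξ⟫ • x⟫ * Complex.I))
    (fun g : ℝ => Complex.exp (⟪x, ξ⟫ * g * Complex.I)), ← charFun_apply,
    ← charFun_apply_real, charFun_stdGaussian, charFun_stdGaussian, charFun_gaussianReal,
    ← Complex.exp_add]
  congr 1
  have h3 := slab_norm_sq x ξ hx
  have h4 : ((‖ξ - ⟪x, ξ⟫ • x‖ : ℂ)) ^ 2 + (⟪x, ξ⟫ : ℂ) ^ 2 = (‖ξ‖ : ℂ) ^ 2 := by
    rw [← Complex.ofReal_pow, ← Complex.ofReal_pow, ← Complex.ofReal_add, h3,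
      Complex.ofReal_pow]
  rw [← h4]
  push_cast
  ring

private lemma slab_gauss (c : ℝ) (hc : 0 ≤ c) :
    ∫ g, Set.indicator {g : ℝ | |g| ≤ c} (fun _ => (1 : ℝ)) g ∂(gaussianReal 0 1) ≤ c := by
  have hms : MeasurableSet {g : ℝ | |g| ≤ c} := measurableSet_le (by fun_prop) (by fun_prop)
  rw [integral_indicator hms, setIntegral_const, smul_eq_mul, mul_one]
  have hset : {g : ℝ | |g| ≤ c} = Set.Icc (-c) c := by
    ext g; simp [abs_le]
  rw [hset, measureReal_def, gaussianReal_apply 0 one_ne_zero]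
  have hpdf : ∀ g : ℝ, gaussianPDF 0 1 g ≤ ENNReal.ofReal (1 / 2) := by
    intro g
    unfold gaussianPDF gaussianPDFReal
    refine ENNReal.ofReal_le_ofReal ?_
    have h1 : Real.exp (-(g - 0) ^ 2 / (2 * ((1 : NNReal) : ℝ))) ≤ 1 := by
      rw [Real.exp_le_one_iff]
      have := sq_nonneg (g - 0)
      rw [NNReal.coe_one]
      linarith
    have h2 : 2 ≤ Real.sqrt (2 * Real.pi * ((1 : NNReal) : ℝ)) := by
      rw [NNReal.coe_one, mul_one]
      apply Real.le_sqrt_of_sq_le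
      nlinarith [Real.pi_gt_three]
    have h3 : (Real.sqrt (2 * Real.pi * ((1 : NNReal) : ℝ)))⁻¹ ≤ 1 / 2 := by
      rw [one_div]
      exact inv_anti₀ (by norm_num) h2
    calc _ ≤ (1 / 2 : ℝ) * 1 := by
            refine mul_le_mul h3 h1 (Real.exp_pos _).le (by norm_num)
      _ = 1 / 2 := mul_one _
  have h4 : ∫⁻ g in Set.Icc (-c) c, gaussianPDF 0 1 g ≤ ENNReal.ofReal c := by
    calc ∫⁻ g in Set.Icc (-c) c, gaussianPDF 0 1 g
        ≤ ∫⁻ _ in Set.Icc (-c) c, ENNReal.ofReal (1 / 2) := lintegral_mono fun g => hpdf g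
      _ = ENNReal.ofReal (1 / 2) * volume (Set.Icc (-c) c) := by
            rw [setLIntegral_const]
      _ = ENNReal.ofReal c := by
            rw [Real.volume_Icc, ← ENNReal.ofReal_mul (by norm_num)]
            congr 1
            ring
  exact ENNReal.toReal_le_of_le_ofReal hc h4

end slabaux

theorem slab {n : ℕ} (hn : 1 ≤ n) (x : EuclideanSpace ℝ (Fin n)) (hx : ‖x‖ = 1) (η : ℝ)
    (hη : 0 ≤ η) :
    ∫ y, Set.indicator {y : EuclideanSpace ℝ (Fin n) | |⟪x, y⟫| ≤ η * ‖y‖} (fun y => ‖y‖) y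
        ∂(stdGaussian (EuclideanSpace ℝ (Fin n))) ≤ 8 * n * η := by
  have hn1 : (1 : ℝ) ≤ n := by exact_mod_cast hn
  have hms : MeasurableSet {y : EuclideanSpace ℝ (Fin n) | |⟪x, y⟫| ≤ η * ‖y‖} :=
    measurableSet_le (by fun_prop) (by fun_prop)
  have hint : Integrable (fun y : EuclideanSpace ℝ (Fin n) => ‖y‖) (stdGaussian _) :=
    IsGaussian.integrable_id.norm
  have hcard : (Module.finrank ℝ (EuclideanSpace ℝ (Fin n)) : ℝ) = n := by
    rw [finrank_euclideanSpace_fin]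
  rcases le_or_gt (1 / 2) η with h | h
  · calc _ ≤ ∫ y : EuclideanSpace ℝ (Fin n), ‖y‖ ∂(stdGaussian _) := by
          refine integral_mono (hint.indicator hms) hint fun y => ?_
          exact Set.indicator_le_self' (fun _ _ => norm_nonneg _) y
      _ ≤ Real.sqrt (Module.finrank ℝ (EuclideanSpace ℝ (Fin n))) :=
          Helper24.Zono.integral_norm_le
      _ ≤ n := by
          rw [hcard]
          rw [Real.sqrt_le_left (by linarith)]
          nlinarith
      _ ≤ 8 * n * η := by nlinarith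
  · have hsq : Integrable (fun y : EuclideanSpace ℝ (Fin n) => ‖y‖ ^ 2) (stdGaussian _) := by
      have h1 := IsGaussian.memLp_id (stdGaussian (EuclideanSpace ℝ (Fin n))) (2 : ℕ) (by simp)
      simpa using h1.integrable_norm_pow'
    obtain ⟨T, hT⟩ : ∃ T : EuclideanSpace ℝ (Fin n) × ℝ → EuclideanSpace ℝ (Fin n),
        T = fun q => q.1 - ⟪x, q.1⟫ • x + q.2 • x := ⟨_, rfl⟩
    have hmT : Measurable T := by rw [hT]; fun_prop
    have hmap : ((stdGaussian (EuclideanSpace ℝ (Fin n))).prod (gaussianReal 0 1)).map T =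
        stdGaussian _ := by rw [hT]; exact slab_map x hx
    have hF : Measurable (fun y : EuclideanSpace ℝ (Fin n) =>
        Set.indicator {y : EuclideanSpace ℝ (Fin n) | |⟪x, y⟫| ≤ η * ‖y‖} (fun y => ‖y‖) y) :=
      (measurable_norm).indicator hms
    -- the pointwise bound
    have hpt : ∀ q : EuclideanSpace ℝ (Fin n) × ℝ,
        Set.indicator {y : EuclideanSpace ℝ (Fin n) | |⟪x, y⟫| ≤ η * ‖y‖} (fun y => ‖y‖) (T q) ≤
          (2 * ‖q.1‖) * Set.indicator {g : ℝ | |g| ≤ 2 * η * ‖q.1‖} (fun _ => (1 : ℝ)) q.2 := by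
      rintro ⟨y, g⟩
      by_cases hq : T (y, g) ∈ {y : EuclideanSpace ℝ (Fin n) | |⟪x, y⟫| ≤ η * ‖y‖}
      · rw [Set.indicator_of_mem hq]
        have hq' : |⟪x, T (y, g)⟫| ≤ η * ‖T (y, g)‖ := hq
        have e1 : ⟪x, T (y, g)⟫ = g := by
          rw [hT]
          simp only
          rw [inner_add_right, inner_sub_right, real_inner_smul_right, real_inner_smul_right,
            real_inner_self_eq_norm_sq, hx]
          ring
        have e2 : ‖T (y, g)‖ ≤ ‖y - ⟪x, y⟫ • x‖ + |g| := by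
          rw [hT]
          simp only
          refine (norm_add_le _ _).trans ?_
          rw [norm_smul, hx, mul_one, Real.norm_eq_abs]
        have e3 : ‖y - ⟪x, y⟫ • x‖ ≤ ‖y‖ := by
          have h3 := slab_norm_sq x y hx
          exact abs_le_of_sq_le_sq' (by nlinarith [sq_nonneg ⟪x, y⟫]) (norm_nonneg _) |>.2
        rw [e1] at hq'
        have e4 := abs_nonneg g
        have e5 : |g| ≤ 2 * η * ‖y - ⟪x, y⟫ • x‖ := by nlinarith
        have e6 : |g| ≤ 2 * η * ‖y‖ := e5.trans (by nlinarith)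
        rw [Set.indicator_of_mem (show g ∈ {g : ℝ | |g| ≤ 2 * η * ‖y‖} from e6), mul_one]
        have e7 := norm_nonneg (y - ⟪x, y⟫ • x)
        nlinarith
      · rw [Set.indicator_of_notMem hq]
        refine mul_nonneg (by positivity) ?_
        exact Set.indicator_nonneg (fun _ _ => zero_le_one) _
    have hmS : MeasurableSet {q : EuclideanSpace ℝ (Fin n) × ℝ | |q.2| ≤ 2 * η * ‖q.1‖} :=
      measurableSet_le (by fun_prop) (by fun_prop)
    have hmG : Measurable (fun q : EuclideanSpace ℝ (Fin n) × ℝ =>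
        (2 * ‖q.1‖) * Set.indicator {g : ℝ | |g| ≤ 2 * η * ‖q.1‖} (fun _ => (1 : ℝ)) q.2) := by
      have e8 : (fun q : EuclideanSpace ℝ (Fin n) × ℝ =>
          (2 * ‖q.1‖) * Set.indicator {g : ℝ | |g| ≤ 2 * η * ‖q.1‖} (fun _ => (1 : ℝ)) q.2) =
          fun q => (2 * ‖q.1‖) *
            Set.indicator {q : EuclideanSpace ℝ (Fin n) × ℝ | |q.2| ≤ 2 * η * ‖q.1‖}
              (fun _ => (1 : ℝ)) q := rfl
      rw [e8]
      exact (by fun_prop : Measurable fun q : EuclideanSpace ℝ (Fin n) × ℝ => 2 * ‖q.1‖).mul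
        (measurable_const.indicator hmS)
    have hG0 : ∀ q : EuclideanSpace ℝ (Fin n) × ℝ, 0 ≤
        (2 * ‖q.1‖) * Set.indicator {g : ℝ | |g| ≤ 2 * η * ‖q.1‖} (fun _ => (1 : ℝ)) q.2 :=
      fun q => mul_nonneg (by positivity) (Set.indicator_nonneg (fun _ _ => zero_le_one) _)
    have hGle : ∀ q : EuclideanSpace ℝ (Fin n) × ℝ,
        (2 * ‖q.1‖) * Set.indicator {g : ℝ | |g| ≤ 2 * η * ‖q.1‖} (fun _ => (1 : ℝ)) q.2 ≤
          2 * ‖q.1‖ := by
      intro q
      have e9 : Set.indicator {g : ℝ | |g| ≤ 2 * η * ‖q.1‖} (fun _ => (1 : ℝ)) q.2 ≤ 1 :=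
        Set.indicator_le_self' (fun _ _ => zero_le_one) q.2
      have e10 : 0 ≤ 2 * ‖q.1‖ := by positivity
      nlinarith
    have hGint : Integrable (fun q : EuclideanSpace ℝ (Fin n) × ℝ =>
        (2 * ‖q.1‖) * Set.indicator {g : ℝ | |g| ≤ 2 * η * ‖q.1‖} (fun _ => (1 : ℝ)) q.2)
        ((stdGaussian (EuclideanSpace ℝ (Fin n))).prod (gaussianReal 0 1)) := by
      refine ((hint.const_mul 2).comp_fst (gaussianReal 0 1)).mono' hmG.aestronglyMeasurable
        (Filter.Eventually.of_forall fun q => ?_)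
      rw [Real.norm_of_nonneg (hG0 q)]
      exact hGle q
    have hFT : Integrable (fun q => Set.indicator
        {y : EuclideanSpace ℝ (Fin n) | |⟪x, y⟫| ≤ η * ‖y‖} (fun y => ‖y‖) (T q))
        ((stdGaussian (EuclideanSpace ℝ (Fin n))).prod (gaussianReal 0 1)) := by
      refine hGint.mono' (hF.comp hmT).aestronglyMeasurable
        (Filter.Eventually.of_forall fun q => ?_)
      rw [Real.norm_of_nonneg (Set.indicator_nonneg (fun _ _ => norm_nonneg _) _)]
      exact hpt q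
    have step1 : ∫ y, Set.indicator {y : EuclideanSpace ℝ (Fin n) | |⟪x, y⟫| ≤ η * ‖y‖}
        (fun y => ‖y‖) y ∂(stdGaussian (EuclideanSpace ℝ (Fin n))) =
        ∫ q, Set.indicator {y : EuclideanSpace ℝ (Fin n) | |⟪x, y⟫| ≤ η * ‖y‖}
          (fun y => ‖y‖) (T q)
          ∂((stdGaussian (EuclideanSpace ℝ (Fin n))).prod (gaussianReal 0 1)) := by
      conv_lhs => rw [← hmap]
      rw [integral_map hmT.aemeasurable hF.aestronglyMeasurable]
    rw [step1]
    calc _ ≤ ∫ q : EuclideanSpace ℝ (Fin n) × ℝ,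
          (2 * ‖q.1‖) * Set.indicator {g : ℝ | |g| ≤ 2 * η * ‖q.1‖} (fun _ => (1 : ℝ)) q.2
          ∂((stdGaussian (EuclideanSpace ℝ (Fin n))).prod (gaussianReal 0 1)) :=
          integral_mono hFT hGint hpt
      _ = ∫ y : EuclideanSpace ℝ (Fin n), (∫ g : ℝ,
          (2 * ‖y‖) * Set.indicator {g : ℝ | |g| ≤ 2 * η * ‖y‖} (fun _ => (1 : ℝ)) g
          ∂(gaussianReal 0 1)) ∂(stdGaussian _) := integral_prod _ hGint
      _ ≤ ∫ y : EuclideanSpace ℝ (Fin n), 4 * η * ‖y‖ ^ 2 ∂(stdGaussian _) := by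
          refine integral_mono hGint.integral_prod_left (hsq.const_mul (4 * η)) fun y => ?_
          simp only
          rw [integral_const_mul]
          have h5 := slab_gauss (2 * η * ‖y‖) (by positivity)
          have h6 : 0 ≤ 2 * ‖y‖ := by positivity
          nlinarith
      _ = 4 * η * n := by
          rw [integral_const_mul]
          congr 1
          obtain ⟨b, hb⟩ : ∃ b, b = stdOrthonormalBasis ℝ (EuclideanSpace ℝ (Fin n)) := ⟨_, rfl⟩
          have e1 : ∀ g : EuclideanSpace ℝ (Fin n), ‖g‖ ^ 2 = ∑ i, ⟪b i, g⟫ ^ 2 :=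
            fun g => (b.sum_sq_inner_right g).symm
          have hmi : ∀ i, MemLp (fun g : EuclideanSpace ℝ (Fin n) => ⟪b i, g⟫) 2
              (stdGaussian _) := fun i =>
            (IsGaussian.memLp_two_id (μ := stdGaussian _)).const_inner (b i)
          simp_rw [e1]
          rw [integral_finsetSum _ fun i _ => (hmi i).integrable_sq]
          have e2 : ∀ i, ∫ g : EuclideanSpace ℝ (Fin n), ⟪b i, g⟫ ^ 2 ∂(stdGaussian _) = 1 := by
            intro i
            rw [Helper61.Zono.integral_inner_sq, b.norm_eq_one, one_pow]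
          simp_rw [e2]
          rw [Finset.sum_const, Finset.card_univ, nsmul_eq_mul, mul_one, Fintype.card_fin]
          exact hcard
      _ ≤ 8 * n * η := by nlinarith

end Pool.Agent.Helper47.ZC
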