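import Pool.Agent.Helper24.Zono.Pair3
import Pool.Agent.Helper47.ZC.Pair
import Pool.Agent.Helper47.ZC.PhiSq
import Pool.Agent.Helper47.ZC.NormCos

/-!
# Testing the error against `G = ∑ m_j phi lam ⟨u_j,·⟩`

Notation: `m_j = wt x j = ‖x j‖`, `u_j = dir x j` (unit or `m_j = 0`), `M = ∑ m_j`,
`Ssq = ∫ G²`. `F(z) = ∑ |⟨z, x j⟩| - ‖z‖`, `|F z| ≤ ε ‖z‖`, `∑ |⟨z,x j⟩| = ∑ m_i |⟨u_i, z⟩|`
(`Helper24.Zono.abs_inner_eq`).
* `Ssq_lower`: `Ssq = ∑_{ij} m_i m_j ∫ phi phi ≥ ∑_i m_i² ∫ phi² ≥ ∑ m_i² /(128 lam³)` (all terms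
  are `≥ 0` by `phi_phi_nonneg`; terms with `m_i = 0` vanish) and `∑ m_i² ≥ M²/N` (Cauchy-Schwarz).
* `test_ineq`: `-∫ F G = ∑_{ij} m_i m_j (-∫ |⟨u_i,z⟩| phi ⟨u_j,z⟩) + ∑_j m_j ∫ ‖z‖ phi ⟨u_j,z⟩
  ≥ cst⁻¹ Ssq - (cst⁻¹+1) M² e^{-lam²/2} - M U` by `pair_lower`, `norm_phi`, and
  `|∫ F G| ≤ ε ∫ ‖z‖ |G| ≤ ε √(∫ ‖z‖²) √(∫ G²) = ε √n √Ssq`
  (`Helper24.Zono.integral_norm_sq` in Pair3: `∫ ‖z‖² = n`).
-/

open MeasureTheory ProbabilityTheory
open scoped RealInnerProductSpace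
open Pool.Agent.Helper24.Zono (cst wt dir)

namespace Pool.Agent.Helper47.ZC

/-- The test function. -/
noncomputable def GG {n N : ℕ} (x : Fin N → EuclideanSpace ℝ (Fin n)) (lam : ℝ)
    (z : EuclideanSpace ℝ (Fin n)) : ℝ := ∑ j, wt x j * phi lam ⟪dir x j, z⟫

/-- Its second moment. -/
noncomputable def Ssq {n N : ℕ} (x : Fin N → EuclideanSpace ℝ (Fin n)) (lam : ℝ) : ℝ :=
  ∫ z, GG x lam z ^ 2 ∂(stdGaussian (EuclideanSpace ℝ (Fin n)))

private theorem s_cont_inner {n : ℕ} (u : EuclideanSpace ℝ (Fin n)) :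
    Continuous (fun z : EuclideanSpace ℝ (Fin n) => ⟪u, z⟫) := by fun_prop

private theorem s_cont_phi {n : ℕ} (lam : ℝ) (hl : 0 < lam) (u : EuclideanSpace ℝ (Fin n)) :
    Continuous (fun z : EuclideanSpace ℝ (Fin n) => phi lam ⟪u, z⟫) :=
  (continuous_phi hl).comp (s_cont_inner u)

private theorem s_int_pp {n : ℕ} (lam : ℝ) (hl : 0 < lam) (u v : EuclideanSpace ℝ (Fin n)) :
    Integrable (fun z : EuclideanSpace ℝ (Fin n) => phi lam ⟪u, z⟫ * phi lam ⟪v, z⟫)
      (stdGaussian (EuclideanSpace ℝ (Fin n))) := by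
  refine Integrable.of_bound ((s_cont_phi lam hl u).mul (s_cont_phi lam hl v)).aestronglyMeasurable
    ((1 / (2 * lam)) * (1 / (2 * lam))) (Filter.Eventually.of_forall fun z => ?_)
  rw [Real.norm_eq_abs, abs_mul]
  exact mul_le_mul (abs_phi_le hl _) (abs_phi_le hl _) (abs_nonneg _) (by positivity)

private theorem s_int_abs {n : ℕ} (lam : ℝ) (hl : 0 < lam) (u v : EuclideanSpace ℝ (Fin n)) :
    Integrable (fun z : EuclideanSpace ℝ (Fin n) => |⟪u, z⟫| * phi lam ⟪v, z⟫)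
      (stdGaussian (EuclideanSpace ℝ (Fin n))) := by
  have h := Pool.Agent.Helper24.Zono.integrable_abs_inner u (0 : EuclideanSpace ℝ (Fin n))
  simp only [add_zero] at h
  refine (h.mul_const (1 / (2 * lam))).mono'
    ((s_cont_inner u).abs.mul (s_cont_phi lam hl v)).aestronglyMeasurable
    (Filter.Eventually.of_forall fun z => ?_)
  rw [Real.norm_eq_abs, abs_mul, abs_abs]
  exact mul_le_mul_of_nonneg_left (abs_phi_le hl _) (abs_nonneg _)

private theorem s_int_norm {n : ℕ} (lam : ℝ) (hl : 0 < lam) (v : EuclideanSpace ℝ (Fin n)) :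
    Integrable (fun z : EuclideanSpace ℝ (Fin n) => ‖z‖ * phi lam ⟪v, z⟫)
      (stdGaussian (EuclideanSpace ℝ (Fin n))) := by
  have h := Pool.Agent.Helper24.Zono.integrable_norm_add' (0 : EuclideanSpace ℝ (Fin n))
  simp only [add_zero] at h
  refine (h.mul_const (1 / (2 * lam))).mono'
    (continuous_norm.mul (s_cont_phi lam hl v)).aestronglyMeasurable
    (Filter.Eventually.of_forall fun z => ?_)
  rw [Real.norm_eq_abs, abs_mul, abs_norm]
  exact mul_le_mul_of_nonneg_left (abs_phi_le hl _) (norm_nonneg _)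

private theorem s_Ssq_eq {n N : ℕ} (x : Fin N → EuclideanSpace ℝ (Fin n)) (lam : ℝ)
    (hl : 0 < lam) :
    Ssq x lam = ∑ i, ∑ j, wt x i * wt x j *
      ∫ z, phi lam ⟪dir x i, z⟫ * phi lam ⟪dir x j, z⟫
        ∂(stdGaussian (EuclideanSpace ℝ (Fin n))) := by
  unfold Ssq GG
  have h1 : ∀ z : EuclideanSpace ℝ (Fin n), (∑ j, wt x j * phi lam ⟪dir x j, z⟫) ^ 2 =
      ∑ i, ∑ j, wt x i * wt x j * (phi lam ⟪dir x i, z⟫ * phi lam ⟪dir x j, z⟫) := by
    intro z
    rw [sq, Finset.sum_mul_sum]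
    refine Finset.sum_congr rfl fun i _ => Finset.sum_congr rfl fun j _ => ?_
    ring
  simp_rw [h1]
  rw [integral_finsetSum _ fun i _ => integrable_finsetSum _ fun j _ =>
    (s_int_pp lam hl _ _).const_mul _]
  refine Finset.sum_congr rfl fun i _ => ?_
  rw [integral_finsetSum _ fun j _ => (s_int_pp lam hl _ _).const_mul _]
  refine Finset.sum_congr rfl fun j _ => ?_
  rw [integral_const_mul]

theorem Ssq_lower {n N : ℕ} (x : Fin N → EuclideanSpace ℝ (Fin n)) (lam : ℝ) (hl : 1 ≤ lam) :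
    (∑ j, wt x j) ^ 2 / (128 * N * lam ^ 3) ≤ Ssq x lam := by
  have hl0 : 0 < lam := by linarith
  have hw := fun j => Pool.Agent.Helper24.Zono.wt_nonneg x j
  have hnn : ∀ i j, 0 ≤ wt x i * wt x j *
      ∫ z, phi lam ⟪dir x i, z⟫ * phi lam ⟪dir x j, z⟫
        ∂(stdGaussian (EuclideanSpace ℝ (Fin n))) := by
    intro i j
    rcases Pool.Agent.Helper24.Zono.wt_or x i with h | h
    · rw [h]; simp
    rcases Pool.Agent.Helper24.Zono.wt_or x j with h' | h'
    · rw [h']; simp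
    exact mul_nonneg (mul_nonneg (hw i) (hw j)) (phi_phi_nonneg lam hl0 _ _ h h')
  have h1 : ∑ i, wt x i ^ 2 * (1 / (128 * lam ^ 3)) ≤ Ssq x lam := by
    rw [s_Ssq_eq x lam hl0]
    refine Finset.sum_le_sum fun i _ => ?_
    refine le_trans ?_ (Finset.single_le_sum (fun j _ => hnn i j) (Finset.mem_univ i))
    rcases Pool.Agent.Helper24.Zono.wt_or x i with h | h
    · rw [h]; simp
    · rw [← sq]
      exact mul_le_mul_of_nonneg_left (phi_sq_lower lam hl _ h) (sq_nonneg _)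
  refine le_trans ?_ h1
  rw [← Finset.sum_mul]
  rcases Nat.eq_zero_or_pos N with hN | hN
  · subst hN
    simp
  have hN' : (0 : ℝ) < N := by exact_mod_cast hN
  have h2 := sq_sum_le_card_mul_sum_sq (s := (Finset.univ : Finset (Fin N))) (f := fun j => wt x j)
  rw [Finset.card_univ, Fintype.card_fin] at h2
  rw [div_le_iff₀ (by positivity)]
  have h3 : (∑ i, wt x i ^ 2) * (1 / (128 * lam ^ 3)) * (128 * N * lam ^ 3) =
      N * ∑ i, wt x i ^ 2 := by
    field_simp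
  rw [h3]
  exact h2

private theorem s_cs {n : ℕ} (f g : EuclideanSpace ℝ (Fin n) → ℝ) (hf0 : ∀ z, 0 ≤ f z)
    (hg0 : ∀ z, 0 ≤ g z) (hf : MemLp f 2 (stdGaussian (EuclideanSpace ℝ (Fin n))))
    (hg : MemLp g 2 (stdGaussian (EuclideanSpace ℝ (Fin n)))) :
    ∫ z, f z * g z ∂(stdGaussian (EuclideanSpace ℝ (Fin n))) ≤
      Real.sqrt (∫ z, f z ^ 2 ∂(stdGaussian (EuclideanSpace ℝ (Fin n)))) *
        Real.sqrt (∫ z, g z ^ 2 ∂(stdGaussian (EuclideanSpace ℝ (Fin n)))) := by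
  have h := integral_mul_le_Lp_mul_Lq_of_nonneg
    (μ := stdGaussian (EuclideanSpace ℝ (Fin n))) Real.HolderConjugate.two_two
    (f := f) (g := g)
    (Filter.Eventually.of_forall hf0) (Filter.Eventually.of_forall hg0)
    (by simpa using hf) (by simpa using hg)
  simp only [Real.rpow_two, ← Real.sqrt_eq_rpow] at h
  exact h

theorem test_ineq : ∃ C : ℝ, 1 ≤ C ∧ ∀ (n N : ℕ) (x : Fin N → EuclideanSpace ℝ (Fin n)) (ε : ℝ),
    1 ≤ n → 0 < ε → Approx ε x → ∀ lam : ℝ, 1 ≤ lam →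
      cst⁻¹ * Ssq x lam - C * (∑ j, wt x j) ^ 2 * Real.exp (-(lam ^ 2 / 2))
        - (∑ j, wt x j) * ((C * n) ^ (((n : ℝ) + 2) / 2) / lam ^ (n + 2)
          + C * lam * Real.exp (-(lam ^ 2 / 4)))
      ≤ ε * Real.sqrt n * Real.sqrt (Ssq x lam) := by
  obtain ⟨C0, hC01, hC0⟩ := norm_phi
  have hc : 0 < cst := Pool.Agent.Helper24.Zono.cst_pos
  have hci : 0 < cst⁻¹ := inv_pos.2 hc
  refine ⟨C0 + cst⁻¹ + 1, by linarith, ?_⟩
  intro n N x ε hn hε hx lam hl
  have hl0 : 0 < lam := by linarith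
  have hw := fun j => Pool.Agent.Helper24.Zono.wt_nonneg x j
  set μ := stdGaussian (EuclideanSpace ℝ (Fin n)) with hμ
  set M := ∑ j, wt x j with hM
  have hM0 : 0 ≤ M := Finset.sum_nonneg fun j _ => hw j
  set U0 : ℝ := (C0 * n) ^ (((n : ℝ) + 2) / 2) / lam ^ (n + 2)
    + C0 * lam * Real.exp (-(lam ^ 2 / 4)) with hU0
  set U : ℝ := ((C0 + cst⁻¹ + 1) * n) ^ (((n : ℝ) + 2) / 2) / lam ^ (n + 2)
    + (C0 + cst⁻¹ + 1) * lam * Real.exp (-(lam ^ 2 / 4)) with hU
  have hnr : (0 : ℝ) ≤ n := Nat.cast_nonneg n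
  have hU0U : U0 ≤ U := by
    rw [hU0, hU]
    refine add_le_add ?_ ?_
    · refine div_le_div_of_nonneg_right ?_ (by positivity)
      refine Real.rpow_le_rpow (by positivity) ?_ (by positivity)
      exact mul_le_mul_of_nonneg_right (by linarith) hnr
    · have h3 : C0 * lam ≤ (C0 + cst⁻¹ + 1) * lam :=
        mul_le_mul_of_nonneg_right (by linarith) hl0.le
      exact mul_le_mul_of_nonneg_right h3 (Real.exp_pos _).le
  -- the two parts
  have hA : cst⁻¹ * Ssq x lam - (cst⁻¹ + 1) * M ^ 2 * Real.exp (-(lam ^ 2 / 2)) ≤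
      -∫ z, (∑ j, |⟪z, x j⟫|) * GG x lam z ∂μ := by
    have e1 : ∫ z, (∑ j, |⟪z, x j⟫|) * GG x lam z ∂μ =
        ∑ i, ∑ j, wt x i * wt x j * ∫ z, |⟪dir x i, z⟫| * phi lam ⟪dir x j, z⟫ ∂μ := by
      have h1 : ∀ z : EuclideanSpace ℝ (Fin n), (∑ j, |⟪z, x j⟫|) * GG x lam z =
          ∑ i, ∑ j, wt x i * wt x j * (|⟪dir x i, z⟫| * phi lam ⟪dir x j, z⟫) := by
        intro z
        unfold GG
        rw [Finset.sum_mul_sum]
        refine Finset.sum_congr rfl fun i _ => Finset.sum_congr rfl fun j _ => ?_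
        rw [Pool.Agent.Helper24.Zono.abs_inner_eq]
        ring
      simp_rw [h1]
      rw [integral_finsetSum _ fun i _ => integrable_finsetSum _ fun j _ =>
        (s_int_abs lam hl0 _ _).const_mul _]
      refine Finset.sum_congr rfl fun i _ => ?_
      rw [integral_finsetSum _ fun j _ => (s_int_abs lam hl0 _ _).const_mul _]
      refine Finset.sum_congr rfl fun j _ => ?_
      rw [integral_const_mul]
    rw [e1, s_Ssq_eq x lam hl0, ← hμ]
    have e2 : (cst⁻¹ + 1) * M ^ 2 * Real.exp (-(lam ^ 2 / 2)) =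
        ∑ i, ∑ j, wt x i * wt x j * ((cst⁻¹ + 1) * Real.exp (-(lam ^ 2 / 2))) := by
      simp_rw [← Finset.sum_mul]
      rw [← Finset.sum_mul_sum, ← hM]
      ring
    rw [e2, Finset.mul_sum, ← Finset.sum_sub_distrib, ← Finset.sum_neg_distrib]
    refine Finset.sum_le_sum fun i _ => ?_
    rw [Finset.mul_sum, ← Finset.sum_sub_distrib, ← Finset.sum_neg_distrib]
    refine Finset.sum_le_sum fun j _ => ?_
    rcases Pool.Agent.Helper24.Zono.wt_or x i with h | h
    · rw [h]; simp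
    rcases Pool.Agent.Helper24.Zono.wt_or x j with h' | h'
    · rw [h']; simp
    have h4 := pair_lower lam hl (dir x i) (dir x j) h h'
    have h5 : -lam ^ 2 / 2 = -(lam ^ 2 / 2) := by ring
    rw [h5, ← hμ] at h4
    have h6 := mul_le_mul_of_nonneg_left h4 (mul_nonneg (hw i) (hw j))
    linarith
  have hB : -(M * U0) ≤ ∫ z, ‖z‖ * GG x lam z ∂μ := by
    have e1 : ∫ z, ‖z‖ * GG x lam z ∂μ =
        ∑ j, wt x j * ∫ z, ‖z‖ * phi lam ⟪dir x j, z⟫ ∂μ := by
      have h1 : ∀ z : EuclideanSpace ℝ (Fin n), ‖z‖ * GG x lam z =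
          ∑ j, wt x j * (‖z‖ * phi lam ⟪dir x j, z⟫) := by
        intro z
        unfold GG
        rw [Finset.mul_sum]
        refine Finset.sum_congr rfl fun j _ => ?_
        ring
      simp_rw [h1]
      rw [integral_finsetSum _ fun j _ => (s_int_norm lam hl0 _).const_mul _]
      refine Finset.sum_congr rfl fun j _ => ?_
      rw [integral_const_mul]
    rw [e1, hM, Finset.sum_mul, ← Finset.sum_neg_distrib]
    refine Finset.sum_le_sum fun j _ => ?_
    rcases Pool.Agent.Helper24.Zono.wt_or x j with h' | h'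
    · rw [h']; simp
    have h4 := hC0 n hn (dir x j) h' lam hl
    rw [← hμ, ← hU0] at h4
    have h6 := mul_le_mul_of_nonneg_left h4 (hw j)
    linarith
  -- the upper bound
  have hGc : Continuous (GG x lam) := by
    unfold GG
    exact continuous_finsetSum _ fun j _ => continuous_const.mul (s_cont_phi lam hl0 _)
  have hGb : ∀ z, |GG x lam z| ≤ M * (1 / (2 * lam)) := by
    intro z
    unfold GG
    refine (Finset.abs_sum_le_sum_abs _ _).trans ?_
    rw [hM, Finset.sum_mul]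
    refine Finset.sum_le_sum fun j _ => ?_
    rw [abs_mul, abs_of_nonneg (hw j)]
    exact mul_le_mul_of_nonneg_left (abs_phi_le hl0 _) (hw j)
  have hFb : ∀ z : EuclideanSpace ℝ (Fin n), |(∑ j, |⟪z, x j⟫|) - ‖z‖| ≤ ε * ‖z‖ := by
    intro z
    obtain ⟨h1, h2⟩ := hx z
    rw [abs_le]
    constructor <;> nlinarith
  have hnI := Pool.Agent.Helper24.Zono.integrable_norm_add' (0 : EuclideanSpace ℝ (Fin n))
  simp only [add_zero] at hnI
  have hGm : MemLp (fun z => |GG x lam z|) 2 μ :=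
    MemLp.of_bound hGc.abs.aestronglyMeasurable (M * (1 / (2 * lam)))
      (Filter.Eventually.of_forall fun z => by
        rw [Real.norm_eq_abs, abs_abs]; exact hGb z)
  have hNm : MemLp (fun z : EuclideanSpace ℝ (Fin n) => ‖z‖) 2 μ :=
    IsGaussian.memLp_two_id.norm
  have hI1 : Integrable (fun z => (∑ j, |⟪z, x j⟫|) * GG x lam z) μ := by
    have hb : Integrable (fun z : EuclideanSpace ℝ (Fin n) => ((1 + ε) * ‖z‖) *
        (M * (1 / (2 * lam)))) μ := (hnI.const_mul _).mul_const _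
    refine hb.mono' ?_ (Filter.Eventually.of_forall fun z => ?_)
    · refine Continuous.aestronglyMeasurable ?_
      refine Continuous.mul ?_ hGc
      refine continuous_finsetSum _ fun j _ => ?_
      fun_prop
    · rw [Real.norm_eq_abs, abs_mul]
      have h1 : abs (∑ j, |⟪z, x j⟫|) ≤ (1 + ε) * ‖z‖ := by
        rw [abs_of_nonneg (Finset.sum_nonneg fun j _ => abs_nonneg _)]
        exact (hx z).2
      exact mul_le_mul h1 (hGb z) (abs_nonneg _) (by positivity)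
  have hI2 : Integrable (fun z => ‖z‖ * GG x lam z) μ := by
    refine (hnI.mul_const (M * (1 / (2 * lam)))).mono'
      (continuous_norm.mul hGc).aestronglyMeasurable (Filter.Eventually.of_forall fun z => ?_)
    rw [Real.norm_eq_abs, abs_mul, abs_norm]
    exact mul_le_mul_of_nonneg_left (hGb z) (norm_nonneg _)
  have hD : (∫ z, ‖z‖ * GG x lam z ∂μ) - ∫ z, (∑ j, |⟪z, x j⟫|) * GG x lam z ∂μ ≤
      ε * Real.sqrt n * Real.sqrt (Ssq x lam) := by
    rw [← integral_sub hI2 hI1]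
    have h1 : ∫ z, (‖z‖ * GG x lam z - (∑ j, |⟪z, x j⟫|) * GG x lam z) ∂μ ≤
        ∫ z, ε * (‖z‖ * |GG x lam z|) ∂μ := by
      refine integral_mono (hI2.sub hI1) ?_ fun z => ?_
      · refine Integrable.const_mul ?_ _
        refine (hI2.abs).congr (Filter.Eventually.of_forall fun z => ?_)
        simp only [abs_mul, abs_norm]
      · have h3 : ‖z‖ * GG x lam z - (∑ j, |⟪z, x j⟫|) * GG x lam z =
            -(((∑ j, |⟪z, x j⟫|) - ‖z‖) * GG x lam z) := by ring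
        simp only
        rw [h3]
        refine (neg_le_abs _).trans ?_
        rw [abs_mul]
        calc |(∑ j, |⟪z, x j⟫|) - ‖z‖| * |GG x lam z| ≤ (ε * ‖z‖) * |GG x lam z| :=
              mul_le_mul_of_nonneg_right (hFb z) (abs_nonneg _)
          _ = ε * (‖z‖ * |GG x lam z|) := by ring
    refine h1.trans ?_
    rw [integral_const_mul]
    have h2 := s_cs (fun z : EuclideanSpace ℝ (Fin n) => ‖z‖) (fun z => |GG x lam z|)
      (fun z => norm_nonneg _) (fun z => abs_nonneg _) hNm hGm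
    simp only [sq_abs] at h2
    rw [Pool.Agent.Helper24.Zono.integral_norm_sq] at h2
    have h3 : ∫ z, GG x lam z ^ 2 ∂(stdGaussian (EuclideanSpace ℝ (Fin n))) = Ssq x lam := rfl
    rw [h3] at h2
    calc ε * ∫ z, ‖z‖ * |GG x lam z| ∂μ ≤ ε * (Real.sqrt n * Real.sqrt (Ssq x lam)) :=
          mul_le_mul_of_nonneg_left h2 hε.le
      _ = _ := by ring
  have hE0 : 0 ≤ M ^ 2 * Real.exp (-(lam ^ 2 / 2)) := by positivity
  have h7 : (cst⁻¹ + 1) * M ^ 2 * Real.exp (-(lam ^ 2 / 2)) ≤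
      (C0 + cst⁻¹ + 1) * M ^ 2 * Real.exp (-(lam ^ 2 / 2)) := by
    nlinarith
  have h8 : M * U0 ≤ M * U := mul_le_mul_of_nonneg_left hU0U hM0
  linarith

end Pool.Agent.Helper47.ZC
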