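import Pool.Agent.Helper47.ZC.Select
import Pool.Agent.Helper47.ZC.Discr
import Pool.Agent.Helper47.ZC.Cells
import Pool.Agent.Helper47.ZC.Net

/-!
# Upper bound, assembly

`0 < ε ≤ 1/2`, `n ≥ 2`. `net` with `δ = ε/(16 n)` gives `X`, `|X| ≤ (64 n²/ε)^n`.
`η = 8 √n 2^{-L/(n-1)}`; `discr` with `η` and `τ = min (ε/4) (n η)`, so `σ = 33 n η` bounds the
slabs; `∑ w ≤ 2√n + 1 ≤ 3 √n` (hence `√n ∑ w ≤ 3 n`); `cells` gives `κ` (compose with `z`), `K = 2 n 2^L`; thinness: for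
`x ∈ X`, `|⟨x, z - z'⟩| ≤ ‖x‖ ‖z - z'‖ ≤ 2 √n 4 2^{-L/(n-1)} = η`. `m = 2^{-L}`, `t = ε/4`.
The hypothesis `h` below is `hlog` of `select`:
`2 m η² σ log (2|X|) = 66 n 2^{-L} η³ log(2|X|) = 66 * 512 n^{5/2} 2^{-L(n+2)/(n-1)} log (2|X|)` and
`log (2|X|) ≤ log (2 (64 n²/ε)^n) ≤ 2 n log (64 n²/ε)`; `t² = ε²/16`; `66*512*2*16 = 1081344`.
`N ≤ n (2 n 2^L + 3√n 2^L) ≤ 5 n² 2^L`.
The vectors `y_j` satisfy `Approx ε y`: by homogeneity it is enough to treat `‖v‖ = 1`; choose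
`x ∈ X`, `‖x - v‖ ≤ δ`; `h(v) = ∑ |⟨v,y_j⟩|` is subadditive with `h(v - x) ≤ (∑ ‖y_j‖) ‖v-x‖
≤ 3 n δ ≤ 3 ε/16`; `|h(x) - ‖x‖| ≤ t + τ ≤ ε/2`; `|‖x‖ - 1| ≤ δ ≤ ε/16`. Total `≤ 3ε/4 ≤ ε`.
-/

open scoped RealInnerProductSpace

namespace Pool.Agent.Helper47.ZC

private theorem norm_le_sqrt {n : ℕ} (v : EuclideanSpace ℝ (Fin n)) {c : ℝ} (hc : 0 ≤ c)
    (h : ∀ i, |v i| ≤ c) : ‖v‖ ≤ Real.sqrt n * c := by
  rw [EuclideanSpace.norm_eq]
  have h1 : ∑ i, ‖v i‖ ^ 2 ≤ (n : ℝ) * c ^ 2 := by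
    calc ∑ i, ‖v i‖ ^ 2 ≤ ∑ _i : Fin n, c ^ 2 := by
          apply Finset.sum_le_sum
          intro i _
          rw [Real.norm_eq_abs]
          exact pow_le_pow_left₀ (abs_nonneg _) (h i) 2
      _ = (n : ℝ) * c ^ 2 := by simp
  calc Real.sqrt (∑ i, ‖v i‖ ^ 2) ≤ Real.sqrt ((n : ℝ) * c ^ 2) := Real.sqrt_le_sqrt h1
    _ = Real.sqrt n * c := by
      rw [Real.sqrt_mul (Nat.cast_nonneg n), Real.sqrt_sq hc]

private theorem unit_suffices {n N : ℕ} {ε : ℝ} (y : Fin N → EuclideanSpace ℝ (Fin n))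
    (h : ∀ u : EuclideanSpace ℝ (Fin n), ‖u‖ = 1 → abs ((∑ j, |⟪u, y j⟫|) - 1) ≤ ε) :
    Approx ε y := by
  intro v
  by_cases hv : v = 0
  · subst hv
    simp
  · have hv0 : 0 < ‖v‖ := norm_pos_iff.2 hv
    have hu : ‖(‖v‖⁻¹ • v)‖ = 1 := by
      rw [norm_smul, norm_inv, norm_norm, inv_mul_cancel₀ hv0.ne']
    have h1 := h _ hu
    have h2 : ∑ j, |⟪v, y j⟫| = ‖v‖ * ∑ j, |⟪(‖v‖⁻¹ • v), y j⟫| := by
      rw [Finset.mul_sum]
      apply Finset.sum_congr rfl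
      intro j _
      rw [real_inner_smul_left, abs_mul, abs_of_pos (inv_pos.2 hv0), ← mul_assoc,
        mul_inv_cancel₀ hv0.ne', one_mul]
    rw [h2]
    obtain ⟨h3, h4⟩ := abs_le.1 h1
    constructor
    · rw [mul_comm]
      exact mul_le_mul_of_nonneg_left (by linarith) hv0.le
    · rw [mul_comm (1 + ε)]
      exact mul_le_mul_of_nonneg_left (by linarith) hv0.le

private theorem sum_inner_close {n N : ℕ} (y : Fin N → EuclideanSpace ℝ (Fin n))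
    (u x : EuclideanSpace ℝ (Fin n)) :
    abs ((∑ j, |⟪u, y j⟫|) - ∑ j, |⟪x, y j⟫|) ≤ ‖u - x‖ * ∑ j, ‖y j‖ := by
  rw [← Finset.sum_sub_distrib, Finset.mul_sum]
  refine (Finset.abs_sum_le_sum_abs _ _).trans (Finset.sum_le_sum ?_)
  intro j _
  calc abs (|⟪u, y j⟫| - |⟪x, y j⟫|) ≤ |⟪u, y j⟫ - ⟪x, y j⟫| := abs_abs_sub_abs_le _ _
    _ = |⟪u - x, y j⟫| := by rw [inner_sub_left]
    _ ≤ ‖u - x‖ * ‖y j‖ := abs_real_inner_le_norm _ _

theorem upper1 (n L : ℕ) (hn : 2 ≤ n) (ε : ℝ) (h0 : 0 < ε) (h1 : ε ≤ 1 / 2)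
    (h : 1081344 * (n : ℝ) ^ (7 / 2 : ℝ) * Real.log (64 * n ^ 2 / ε) / ε ^ 2
      < (2 : ℝ) ^ ((L : ℝ) * (((n : ℝ) + 2) / ((n : ℝ) - 1)))) :
    ∃ (N : ℕ) (y : Fin N → EuclideanSpace ℝ (Fin n)), Approx ε y ∧
      (N : ℝ) ≤ 5 * n ^ 2 * 2 ^ L := by
  have hn1 : 1 ≤ n := by omega
  have hnr : (2 : ℝ) ≤ n := by exact_mod_cast hn
  have hn0 : (0 : ℝ) < n := by linarith
  have hnm : (0 : ℝ) < (n : ℝ) - 1 := by linarith
  have hsn0 : 0 < Real.sqrt n := Real.sqrt_pos.2 hn0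
  have hsn1 : 1 ≤ Real.sqrt n := by
    rw [show (1 : ℝ) = Real.sqrt 1 from Real.sqrt_one.symm]
    exact Real.sqrt_le_sqrt (by linarith)
  have hsq : Real.sqrt n * Real.sqrt n = n := Real.mul_self_sqrt hn0.le
  have hsnn : Real.sqrt n ≤ n := by nlinarith
  -- the net
  obtain ⟨δ, hδ⟩ : ∃ δ : ℝ, δ = ε / (16 * n) := ⟨_, rfl⟩
  have hδ0 : 0 < δ := by rw [hδ]; positivity
  have hδ1 : δ ≤ ε / 32 := by
    rw [hδ]
    apply div_le_div_of_nonneg_left h0.le (by norm_num) (by linarith)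
  obtain ⟨X, hXne, hXc, hXn, hXa⟩ := net n hn1 δ hδ0 (by linarith)
  have hXc' : (X.card : ℝ) ≤ (64 * n ^ 2 / ε) ^ n := by
    have e1 : 4 * (n : ℝ) / δ = 64 * n ^ 2 / ε := by
      rw [hδ]
      field_simp
      ring
    rw [e1] at hXc
    exact hXc
  -- the power of two
  obtain ⟨p, hp⟩ : ∃ p : ℝ, p = (2 : ℝ) ^ (-((L : ℝ) / ((n : ℝ) - 1))) := ⟨_, rfl⟩
  have hp0 : 0 < p := by rw [hp]; exact Real.rpow_pos_of_pos (by norm_num) _
  obtain ⟨η, hη⟩ : ∃ η : ℝ, η = 8 * Real.sqrt n * p := ⟨_, rfl⟩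
  have hη0 : 0 < η := by rw [hη]; positivity
  obtain ⟨τ, hτ⟩ : ∃ τ : ℝ, τ = min (ε / 4) (n * η) := ⟨_, rfl⟩
  have hτ0 : 0 < τ := by rw [hτ]; positivity
  have hτ1 : τ ≤ ε / 4 := by rw [hτ]; exact min_le_left _ _
  have hτ2 : τ ≤ n * η := by rw [hτ]; exact min_le_right _ _
  obtain ⟨k, w, z, hw, hz1, hz2, hws, hwx, hwsl⟩ := discr hn1 X η τ hη0.le hτ0
  have hW : ∑ a, w a ≤ 3 * Real.sqrt n := by linarith
  have hW0 : 0 ≤ ∑ a, w a := Finset.sum_nonneg (fun a _ => hw a)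
  obtain ⟨κ, hκ1, hκ2⟩ := cells' n L hn
  rw [← hp] at hκ2
  have h2L : (0 : ℝ) < 2 ^ L := by positivity
  obtain ⟨N, y, hN, hyx, hys⟩ := select X w z (fun a => κ (z a)) hw hz1
    (fun a => by
      obtain ⟨i, hi, hi'⟩ := hκ1 (z a) (hz1 a) (hz2 a)
      exact ⟨i, hi, fun a' ha' => hi' (z a') (hz1 a') (hz2 a') ha'⟩)
    η (33 * n * η) ((2 : ℝ) ^ L)⁻¹ (ε / 4) hη0 (by positivity) (by positivity) (by positivity)
    (fun x hx a a' haa => by
      have g1 := hκ2 (z a) (z a') (hz1 a) (hz2 a) (hz1 a') (hz2 a') haa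
      have g2 : ‖z a - z a'‖ ≤ Real.sqrt n * (4 * p) := by
        apply norm_le_sqrt _ (by positivity)
        intro i
        exact g1 i
      calc |⟪x, z a - z a'⟫| ≤ ‖x‖ * ‖z a - z a'‖ := abs_real_inner_le_norm _ _
        _ ≤ 2 * (Real.sqrt n * (4 * p)) := mul_le_mul (hXn x hx).2 g2 (norm_nonneg _) (by norm_num)
        _ = η := by rw [hη]; ring)
    (fun x hx => by
      refine (hwsl x hx (hXn x hx).1).trans ?_
      linarith)
    (by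
      obtain ⟨lg, hlg⟩ : ∃ lg : ℝ, lg = Real.log (64 * n ^ 2 / ε) := ⟨_, rfl⟩
      have hbase : 1 < 64 * (n : ℝ) ^ 2 / ε := by
        rw [lt_div_iff₀ h0]
        nlinarith
      have hlg2 : Real.log 2 ≤ lg := by
        rw [hlg]
        apply Real.log_le_log (by norm_num)
        rw [le_div_iff₀ h0]
        nlinarith
      have hl2 : 0 < Real.log 2 := Real.log_pos (by norm_num)
      have hlg0 : 0 < lg := lt_of_lt_of_le hl2 hlg2
      have hXpos : (0 : ℝ) < X.card := by exact_mod_cast hXne.card_pos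
      have hX1 : (1 : ℝ) ≤ X.card := by exact_mod_cast hXne.card_pos
      have hlogX : Real.log (2 * X.card) ≤ 2 * n * lg := by
        calc Real.log (2 * X.card) ≤ Real.log (2 * (64 * n ^ 2 / ε) ^ n) := by
              apply Real.log_le_log (by positivity)
              linarith
          _ = Real.log 2 + n * lg := by
              rw [Real.log_mul (by norm_num) (by positivity), Real.log_pow, hlg]
          _ ≤ 2 * n * lg := by nlinarith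
      have hlogX0 : 0 ≤ Real.log (2 * X.card) := Real.log_nonneg (by linarith)
      obtain ⟨P, hP⟩ : ∃ P : ℝ, P = (2 : ℝ) ^ ((L : ℝ) * (((n : ℝ) + 2) / ((n : ℝ) - 1))) :=
        ⟨_, rfl⟩
      have hP0 : 0 < P := by rw [hP]; exact Real.rpow_pos_of_pos (by norm_num) _
      rw [← hP, ← hlg] at h
      have hpP : ((2 : ℝ) ^ L)⁻¹ * p ^ 3 * P = 1 := by
        rw [hp, hP, ← Real.rpow_natCast 2 L, ← Real.rpow_neg (by norm_num),
          ← Real.rpow_natCast _ 3, ← Real.rpow_mul (by norm_num),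
          ← Real.rpow_add (by norm_num), ← Real.rpow_add (by norm_num)]
        have : -(L : ℝ) + -((L : ℝ) / ((n : ℝ) - 1)) * ((3 : ℕ) : ℝ) +
            (L : ℝ) * (((n : ℝ) + 2) / ((n : ℝ) - 1)) = 0 := by
          push_cast
          field_simp
          ring
        rw [this, Real.rpow_zero]
      have hpow : (n : ℝ) ^ (7 / 2 : ℝ) = n ^ 3 * Real.sqrt n := by
        rw [Real.sqrt_eq_rpow, ← Real.rpow_natCast, ← Real.rpow_add hn0]
        norm_num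
      rw [hpow] at h
      have hmain : 2 * (((2 : ℝ) ^ L)⁻¹ * η ^ 2 * (33 * n * η)) * Real.log (2 * X.card) ≤
          67584 * (n ^ 3 * Real.sqrt n) * lg * (((2 : ℝ) ^ L)⁻¹ * p ^ 3) := by
        have e1 : 2 * (((2 : ℝ) ^ L)⁻¹ * η ^ 2 * (33 * n * η)) =
            33792 * n * (Real.sqrt n * Real.sqrt n * Real.sqrt n) * (((2 : ℝ) ^ L)⁻¹ * p ^ 3) := by
          rw [hη]
          ring
        rw [e1, hsq]
        calc 33792 * n * (n * Real.sqrt n) * (((2 : ℝ) ^ L)⁻¹ * p ^ 3) * Real.log (2 * X.card)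
            ≤ 33792 * n * (n * Real.sqrt n) * (((2 : ℝ) ^ L)⁻¹ * p ^ 3) * (2 * n * lg) :=
              mul_le_mul_of_nonneg_left hlogX (by positivity)
          _ = _ := by ring
      refine lt_of_le_of_lt hmain ?_
      have e2 : ((2 : ℝ) ^ L)⁻¹ * p ^ 3 = 1 / P := by
        rw [eq_div_iff hP0.ne']
        exact hpP
      rw [e2, mul_one_div, div_lt_iff₀ hP0]
      rw [div_lt_iff₀ (by positivity)] at h
      nlinarith)
  refine ⟨N, y, ?_, ?_⟩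
  · apply unit_suffices
    intro u hu
    obtain ⟨x, hx, hxu⟩ := hXa u hu
    have hys' : ∑ j, ‖y j‖ ≤ 3 * n := by
      calc ∑ j, ‖y j‖ ≤ Real.sqrt n * ∑ a, w a := hys
        _ ≤ Real.sqrt n * (3 * Real.sqrt n) := mul_le_mul_of_nonneg_left hW hsn0.le
        _ = 3 * n := by rw [show Real.sqrt n * (3 * Real.sqrt n) =
            3 * (Real.sqrt n * Real.sqrt n) by ring, hsq]
    have hys0 : 0 ≤ ∑ j, ‖y j‖ := Finset.sum_nonneg (fun j _ => norm_nonneg _)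
    have g1 : abs ((∑ j, |⟪u, y j⟫|) - ∑ j, |⟪x, y j⟫|) ≤ 3 * ε / 16 := by
      calc abs ((∑ j, |⟪u, y j⟫|) - ∑ j, |⟪x, y j⟫|) ≤ ‖u - x‖ * ∑ j, ‖y j‖ :=
            sum_inner_close y u x
        _ ≤ δ * (3 * n) := by
            apply mul_le_mul _ hys' hys0 hδ0.le
            rw [norm_sub_rev]
            exact hxu
        _ = 3 * ε / 16 := by
            rw [hδ]
            field_simp
    have g2 := hyx x hx
    have g3 := hwx x hx
    have g4 : abs (‖x‖ - 1) ≤ δ := by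
      rw [← hu]
      exact (abs_norm_sub_norm_le x u).trans hxu
    obtain ⟨a1, a2⟩ := abs_le.1 g1
    obtain ⟨b1, b2⟩ := abs_le.1 g2
    obtain ⟨c1, c2⟩ := abs_le.1 g3
    obtain ⟨d1, d2⟩ := abs_le.1 g4
    rw [abs_le]
    constructor <;> linarith
  · refine hN.trans ?_
    push_cast
    rw [div_inv_eq_mul]
    calc (n : ℝ) * (2 * n * 2 ^ L + (∑ a, w a) * 2 ^ L)
        = n * ((2 * n + ∑ a, w a) * 2 ^ L) := by ring
      _ ≤ n * ((2 * n + 3 * n) * 2 ^ L) := by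
          apply mul_le_mul_of_nonneg_left _ hn0.le
          apply mul_le_mul_of_nonneg_right _ h2L.le
          linarith
      _ = 5 * n ^ 2 * 2 ^ L := by ring

end Pool.Agent.Helper47.ZC
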